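import Mathlib
import Pool.Agent.R439.PLoc

set_option autoImplicit false

/-!
Definitions and statements for MP_2293c7_nt (`∑ C(-1/3,k)^2 9^k = L - p/L` modulo `p^2`).
-/

namespace Pool.Agent.R488.Cub

open Finset Pool.Agent.R439.PL

/-- the binomial coefficient `C(a,k)` for rational `a` -/
def gb (a : ℚ) (k : ℕ) : ℚ := (∏ i ∈ range k, (a - i)) / k.factorial

/-- harmonic numbers -/
def H (m : ℕ) : ℚ := ∑ i ∈ range m, 1 / ((i : ℚ) + 1)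

/-- CUB-B1 -/
def StmtB1 : Prop := ∀ n : ℕ, ∑ k ∈ range (n + 1), (-9 : ℚ) ^ k * gb (2 * n + 1 / 3) k *
  ((3 * n - k).choose (2 * n) : ℚ) = 27 ^ n * gb (-2 / 3) n

/-- CUB-B2 -/
def StmtB2 : Prop := ∀ j : ℕ, ∑ k ∈ range (2 * j + 1), ((2 * j).choose k : ℚ) * ((-9) ^ k *
    ∏ i ∈ range k, ((1 / 6 - j + i) / (1 / 2 - 3 * j + i) : ℚ)) =
  (-4) ^ j * ∏ i ∈ range j, ((1 / 3 + i) / (1 / 6 + i) : ℚ)

/-- CUB-E: harmonic numbers of `p/2`, `p/3`, `p/6`, `p = 6j+1` -/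
def StmtE : Prop := ∀ (p j : ℕ) [Fact p.Prime], p = 6 * j + 1 →
  EQ p 2 (p * H (3 * j)) (-2 * (64 ^ j - 1)) ∧
  EQ p 2 (p * H (2 * j)) (-3 * ((-27) ^ j - 1)) ∧
  EQ p 2 (p * H j) (-2 * (64 ^ j - 1) - 3 * ((-27) ^ j - 1))

/-- the Jacobi sum modulo `p^2` -/
def JS (p j : ℕ) : ℚ := ∑ x ∈ range p, ((x : ℚ) * (1 - x)) ^ (4 * j * p)

/-- `∑_{i<2j} (-1)^i C(4j-1,i)/(2j-i)` -/
def ZZ (j : ℕ) : ℚ := ∑ i ∈ range (2 * j), (-1) ^ i * ((4 * j - 1).choose i : ℚ) / (2 * j - i)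

/-- CUB-SUM -/
def StmtSum : Prop := ∀ (p j : ℕ) [Fact p.Prime], p = 6 * j + 1 →
  EQ p 2 (JS p j) ((p - 1) * ((4 * j).choose (2 * j) : ℚ) + p * (8 * j * ZZ j))

/-- CUB-ALT (exact) -/
def StmtAlt : Prop := ∀ j : ℕ, 0 < j → 8 * (j : ℚ) * ZZ j =
  -((4 * j).choose (2 * j) : ℚ) * (1 + 4 * j * (H (4 * j) - H (2 * j)))

/-- CUB-JAC -/
def StmtJac : Prop := ∀ (p j : ℕ) [Fact p.Prime], p = 6 * j + 1 →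
  ∃ L M : ℤ, 4 * (p : ℤ) = L ^ 2 + 27 * M ^ 2 ∧ L % 3 = 1 ∧
    (¬ I p 1 (JS p j) → EQ p 2 (JS p j) ((L : ℚ) - p / L))

/-- CUB-UNIQ -/
def StmtUniq : Prop := ∀ (p : ℕ), p.Prime → ∀ L M L' M' : ℤ, 4 * (p : ℤ) = L ^ 2 + 27 * M ^ 2 →
  4 * (p : ℤ) = L' ^ 2 + 27 * M' ^ 2 → L = L' ∨ L = -L'

end Pool.Agent.R488.Cub
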