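import Mathlib
import Pool.Agent.R488.Cub.Defs
import Pool.Agent.R488.Tri.ModA

set_option autoImplicit false

/-!
Linear interpolation modulo `p^2`, and expansions of products.
-/

namespace Pool.Agent.R488.Cub

open Finset Pool.Agent.R439.PL Pool.Agent.R439.PL.S4 Pool.Agent.R488.Tri

variable {p : ℕ} [hp : Fact p.Prime]

/-- `f` is affine modulo `p^2` on `p Z_p` -/
def Lin (p : ℕ) [Fact p.Prime] (f : ℚ → ℚ) : Prop :=
  ∃ d ∈ Zp p, ∀ u, I p 1 u → EQ p 2 (f u) (f 0 + d * u)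

theorem Lin.zero {f : ℚ → ℚ} (h : Lin p f) : f 0 ∈ Zp p := by
  obtain ⟨d, _, h⟩ := h
  exact (h 0 I.zero).1

theorem Lin.affine {a b : ℚ} (ha : a ∈ Zp p) (hb : b ∈ Zp p) : Lin p (fun u => a + b * u) := by
  refine ⟨b, hb, fun u hu => ?_⟩
  have : (fun u => a + b * u) u = (fun u => a + b * u) 0 + b * u := by simp
  rw [this]
  exact EQ.refl (by simpa using add_mem ha (mul_mem hb hu.mem))

theorem Lin.mul {f g : ℚ → ℚ} (hf : Lin p f) (hg : Lin p g) : Lin p (fun u => f u * g u) := by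
  have f0 := hf.zero
  have g0 := hg.zero
  obtain ⟨d, hd, hf⟩ := hf
  obtain ⟨e, he, hg⟩ := hg
  refine ⟨d * g 0 + e * f 0, add_mem (mul_mem hd g0) (mul_mem he f0), fun u hu => ?_⟩
  have h1 := (hf u hu).mul (hg u hu)
  refine h1.trans ⟨h1.2.1, ?_, ?_⟩
  · exact add_mem (mul_mem f0 g0) (mul_mem (add_mem (mul_mem hd g0) (mul_mem he f0)) hu.mem)
  · have : (f 0 + d * u) * (g 0 + e * u) - (f 0 * g 0 + (d * g 0 + e * f 0) * u) = (u * u) * (d * e) := by ring
    rw [this]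
    exact (hu.mul hu).mulR (mul_mem hd he)

theorem Lin.inv {f : ℚ → ℚ} (hf : Lin p f) (h0 : U p (f 0)) : Lin p (fun u => (f u)⁻¹) := by
  obtain ⟨d, hd, hf⟩ := hf
  refine ⟨-(d * (f 0)⁻¹ * (f 0)⁻¹), neg_mem (mul_mem (mul_mem hd h0.2.2) h0.2.2), fun u hu => ?_⟩
  have h1 := hf u hu
  have h2 : EQ p 1 (f 0) (f 0 + d * u) := ⟨h0.2.1, h1.2.1, by
    have : f 0 - (f 0 + d * u) = -(d * u) := by ring
    rw [this]; exact (hu.mulL hd).neg⟩
  have u1 := h2.unit (by norm_num) h0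
  have h3 := (h1.symm.inv (by norm_num) u1).symm
  refine h3.trans ⟨h3.2.1, ?_, ?_⟩
  · exact add_mem h0.2.2 (mul_mem (neg_mem (mul_mem (mul_mem hd h0.2.2) h0.2.2)) hu.mem)
  · have a1 := u1.1
    have a2 := h0.1
    have : (f 0 + d * u)⁻¹ - ((f 0)⁻¹ + -(d * (f 0)⁻¹ * (f 0)⁻¹) * u) =
        (u * u) * (d * d * (f 0)⁻¹ * (f 0)⁻¹ * (f 0 + d * u)⁻¹) := by
      field_simp
      ring
    rw [this]
    exact (hu.mul hu).mulR (mul_mem (mul_mem (mul_mem (mul_mem hd hd) h0.2.2) h0.2.2) u1.2.2)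

theorem Lin.sum {ι : Type*} {s : Finset ι} {f : ι → ℚ → ℚ} (h : ∀ i ∈ s, Lin p (f i)) :
    Lin p (fun u => ∑ i ∈ s, f i u) := by
  classical
  induction s using Finset.induction_on with
  | empty => simpa using Lin.affine (p := p) (zero_mem _) (zero_mem _)
  | insert a s ha ih =>
    obtain ⟨d, hd, h1⟩ := h a (mem_insert_self _ _)
    obtain ⟨e, he, h2⟩ := ih fun i hi => h i (mem_insert_of_mem hi)
    refine ⟨d + e, add_mem hd he, fun u hu => ?_⟩
    beta_reduce
    rw [sum_insert ha, sum_insert ha]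
    have := (h1 u hu).add (h2 u hu)
    beta_reduce at this
    have e1 : f a 0 + d * u + (∑ i ∈ s, f i 0 + e * u) = f a 0 + ∑ i ∈ s, f i 0 + (d + e) * u := by ring
    rwa [e1] at this

theorem Lin.prod {ι : Type*} {s : Finset ι} {f : ι → ℚ → ℚ} (h : ∀ i ∈ s, Lin p (f i)) :
    Lin p (fun u => ∏ i ∈ s, f i u) := by
  classical
  induction s using Finset.induction_on with
  | empty =>
    have := Lin.affine (p := p) (one_mem _) (zero_mem _)
    simpa using this
  | insert a s ha ih =>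
    have := (h a (mem_insert_self _ _)).mul (ih fun i hi => h i (mem_insert_of_mem hi))
    simpa [prod_insert ha] using this

theorem Lin.interp {f : ℚ → ℚ} (h : Lin p f) {u : ℚ} (hu : I p 1 u) :
    EQ p 2 (f 0) (2 * f u - f (2 * u)) := by
  obtain ⟨d, hd, h⟩ := h
  have m2 : (2 : ℚ) ∈ Zp p := by exact_mod_cast nat_mem (p := p) 2
  have h1 := h u hu
  have h2 := h (2 * u) (hu.mulL m2)
  have h3 := (((EQ.refl (k := 2) m2).mul h1).sub h2).symm
  have e : 2 * (f 0 + d * u) - (f 0 + d * (2 * u)) = f 0 := by ring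
  rwa [e] at h3

/-- expansion of a product of `e_i - δ` modulo `p^2` -/
theorem prod1 {ι : Type*} {s : Finset ι} {e : ι → ℚ} {δ : ℚ} (he : ∀ i ∈ s, U p (e i))
    (hδ : I p 1 δ) : EQ p 2 (∏ i ∈ s, (e i - δ)) ((∏ i ∈ s, e i) * (1 - δ * ∑ i ∈ s, (e i)⁻¹)) := by
  classical
  induction s using Finset.induction_on with
  | empty => simpa using EQ.refl (one_mem (Zp p))
  | insert a s ha ih =>
    have ih := ih fun i hi => he i (mem_insert_of_mem hi)
    have ua := he a (mem_insert_self _ _)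
    rw [prod_insert ha, prod_insert ha, sum_insert ha]
    have hS : ∑ i ∈ s, (e i)⁻¹ ∈ Zp p := sum_mem fun i hi => (he i (mem_insert_of_mem hi)).2.2
    have hP : ∏ i ∈ s, e i ∈ Zp p := prod_mem fun i hi => (he i (mem_insert_of_mem hi)).2.1
    have h1 : e a - δ ∈ Zp p := sub_mem ua.2.1 hδ.mem
    have h2 := (EQ.refl (p := p) (k := 2) h1).mul ih
    refine h2.trans ⟨h2.2.1, ?_, ?_⟩
    · exact mul_mem (mul_mem ua.2.1 hP) (sub_mem (one_mem _) (mul_mem hδ.mem (add_mem ua.2.2 hS)))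
    · have h0 := ua.1
      generalize ∏ i ∈ s, e i = P at *
      generalize ∑ i ∈ s, (e i)⁻¹ = S at *
      have : (e a - δ) * (P * (1 - δ * S)) - e a * P * (1 - δ * ((e a)⁻¹ + S)) = δ * δ * (P * S) := by
        field_simp
        ring
      rw [this]
      exact (hδ.mul hδ).mulR (mul_mem hP hS)

/-- `∑_{i<b} 1/(a-i) = H a - H (a-b)` -/
theorem H_sub (a b : ℕ) (h : b ≤ a) : ∑ i ∈ range b, ((a : ℚ) - i)⁻¹ = H a - H (a - b) := by
  induction b with
  | zero => simp
  | succ b ih =>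
    rw [sum_range_succ, ih (by omega)]
    obtain ⟨c, hc⟩ : ∃ c, a = b + 1 + c := ⟨a - (b + 1), by omega⟩
    have e1 : a - b = c + 1 := by omega
    have e2 : a - (b + 1) = c := by omega
    rw [e1, e2, H, H, H, sum_range_succ _ c, hc]
    push_cast
    have : (b : ℚ) + 1 + c - b = c + 1 := by ring
    rw [this]
    ring

theorem H_mem {m : ℕ} (hm : m < p) : H m ∈ Zp p := by
  refine sum_mem fun i hi => ?_
  have := U_nat (p := p) (k := i + 1) (by omega) (by have := mem_range.1 hi; omega)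
  rw [one_div]
  exact_mod_cast this.2.2

/-- `∏_{i<b} (a - i - δ) = a!/(a-b)! (1 - δ (H a - H (a-b)))` -/
theorem prodH {a b : ℕ} (hb : b ≤ a) (ha : a < p) {δ : ℚ} (hδ : I p 1 δ) :
    EQ p 2 (∏ i ∈ range b, ((a : ℚ) - i - δ)) ((∏ i ∈ range b, ((a : ℚ) - i)) * (1 - δ * (H a - H (a - b)))) := by
  have := prod1 (p := p) (s := range b) (e := fun i => (a : ℚ) - i) (δ := δ) (fun i hi => by
    have hi' := mem_range.1 hi
    have h1 := U_nat (p := p) (k := a - i) (by omega) (by omega)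
    rw [Nat.cast_sub (by omega)] at h1
    exact h1) hδ
  rwa [H_sub a b hb] at this

/-- `∏_{i<b} (a-i) = C(a,b) b!` -/
theorem prod_choose (a b : ℕ) (h : b ≤ a) : ∏ i ∈ range b, ((a : ℚ) - i) = (a.choose b : ℚ) * b.factorial := by
  have h1 := Nat.descFactorial_eq_factorial_mul_choose a b
  have h2 : ((a.descFactorial b : ℕ) : ℚ) = ∏ i ∈ range b, ((a : ℚ) - i) := by
    rw [Nat.descFactorial_eq_prod_range]
    push_cast
    refine prod_congr rfl fun i hi => ?_
    rw [Nat.cast_sub (by have := mem_range.1 hi; omega)]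
  rw [← h2, h1]
  push_cast
  ring

/-- `C(p-1,k) = (-1)^k (1 - p H k)` modulo `p^2` -/
theorem choose_pm2 {k : ℕ} (hk : k < p) : EQ p 2 ((p - 1).choose k : ℚ) ((-1) ^ k * (1 - p * H k)) := by
  have h1 : ((p - 1).choose k : ℚ) * k.factorial = (-1) ^ k * ∏ i ∈ range k, ((k : ℚ) - i - p) := by
    rw [← prod_choose _ _ (by omega)]
    rw [← prod_range_reflect (fun i => ((k : ℚ) - i - p)), ← card_range k, ← prod_const, card_range,
      ← prod_mul_distrib]
    refine prod_congr rfl fun i hi => ?_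
    have hi' := mem_range.1 hi
    rw [Nat.cast_sub (by omega), Nat.sub_sub, Nat.cast_sub (show 1 + i ≤ k by omega)]
    push_cast
    ring
  have h2 := prodH (p := p) (a := k) (b := k) (le_refl k) hk (I_p)
  rw [prod_choose _ _ (le_refl k), Nat.choose_self, Nat.sub_self] at h2
  have hH0 : H 0 = 0 := by simp [H]
  rw [hH0, sub_zero, Nat.cast_one, one_mul] at h2
  have uk := U_fac (p := p) hk
  have h3 := ((EQ.refl (k := 2) (neg_mem' (p := p) k)).mul h2).mul (EQ.refl (k := 2) uk.2.2)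
  rw [← h1] at h3
  have a1 := uk.1
  have e1 : ((p - 1).choose k : ℚ) * k.factorial * (k.factorial : ℚ)⁻¹ = ((p - 1).choose k : ℚ) := by
    field_simp
  have e2 : (-1 : ℚ) ^ k * (k.factorial * (1 - p * H k)) * (k.factorial : ℚ)⁻¹ = (-1) ^ k * (1 - p * H k) := by
    field_simp
  rwa [e1, e2] at h3

end Pool.Agent.R488.Cub
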