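import Mathlib
import Pool.Agent.R488.Cub.Defs

set_option autoImplicit false

/-!
CUB-SUM: power sum expansion of the Jacobi sum modulo `p^2` (MP_2293c7_nt).
-/

namespace Pool.Agent.R488.Cub

open Finset Pool.Agent.R439.PL

namespace JSm

variable {p : ℕ} [hp : Fact p.Prime]

theorem EQ_int {k : ℕ} {a b : ℤ} (h : (p : ℤ) ^ k ∣ a - b) : EQ p k (a : ℚ) (b : ℚ) := by
  refine ⟨int_mem a, int_mem b, ?_⟩
  obtain ⟨c, hc⟩ := h
  refine ⟨(c : ℚ), int_mem c, ?_⟩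
  have : ((a - b : ℤ) : ℚ) = ((p : ℤ) ^ k * c : ℤ) := by rw [hc]
  push_cast at this
  exact this

theorem neg_mem' (k : ℕ) : ((-1 : ℚ)) ^ k ∈ Zp p := pow_mem (neg_mem (one_mem _)) _

/-- `C(p-1,k) = (-1)^k` modulo `p` -/
theorem choose_pm1 (k : ℕ) (hk : k < p) : EQ p 1 ((p - 1).choose k : ℚ) ((-1) ^ k) := by
  induction k with
  | zero => simpa using EQ.refl (k := 1) (one_mem (Zp p))
  | succ k ih =>
    have ih := ih (by omega)
    have h1 : (((p - 1).choose (k + 1) : ℕ) : ℚ) + ((p - 1).choose k : ℕ) = (p.choose (k + 1) : ℕ) := by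
      obtain ⟨q, hq⟩ : ∃ q, p = q + 1 := ⟨p - 1, by omega⟩
      rw [hq, Nat.add_sub_cancel, Nat.choose_succ_succ]; push_cast; ring
    have h2 : p ∣ p.choose (k + 1) := hp.out.dvd_choose_self (by omega) hk
    obtain ⟨c, hc⟩ := h2
    refine ⟨nat_mem _, neg_mem' _, ?_⟩
    have h3 : (((p - 1).choose (k + 1) : ℕ) : ℚ) - (-1) ^ (k + 1) = p * c -
        (((p - 1).choose k : ℚ) - (-1) ^ k) := by
      have : ((p.choose (k + 1) : ℕ) : ℚ) = p * c := by rw [hc]; push_cast; ring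
      rw [pow_succ]
      linear_combination h1 + this
    rw [h3]
    exact ((I_p (p := p)).mulR (nat_mem c)).sub ih.2.2

/-! ### Power sums -/

theorem pow_p_congr {a b : ℤ} (h : (p : ℤ) ∣ a - b) (N : ℕ) :
    (p : ℤ) ^ 2 ∣ a ^ (p * N) - b ^ (p * N) := by
  have h1 := dvd_sub_pow_of_dvd_sub h 1
  rw [pow_one] at h1
  rw [pow_mul, pow_mul]
  exact h1.trans (sub_dvd_pow_sub_pow _ _ N)

theorem sum_zmod (f : ℕ → ℤ) : ∑ x ∈ range p, f x = ∑ x : ZMod p, f x.val := by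
  haveI : NeZero p := ⟨hp.out.ne_zero⟩
  refine Finset.sum_nbij' (fun n => (n : ZMod p)) ZMod.val ?_ ?_ ?_ ?_ ?_
  · intro x _; exact mem_univ _
  · intro x _; exact mem_range.2 (ZMod.val_lt x)
  · intro x hx; exact ZMod.val_cast_of_lt (mem_range.1 hx)
  · intro x _; exact ZMod.natCast_zmod_val x
  · intro x hx
    rw [ZMod.val_cast_of_lt (mem_range.1 hx)]

theorem ps_div {N : ℕ} (hN : 0 < N) (h : (p - 1) ∣ N) :
    (p : ℤ) ^ 2 ∣ (∑ x ∈ range p, (x : ℤ) ^ (p * N)) - ((p : ℤ) - 1) := by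
  have h2 := hp.out.two_le
  obtain ⟨q, hq⟩ : ∃ q, p = q + 1 := ⟨p - 1, by omega⟩
  have e1 : (∑ x ∈ range p, (x : ℤ) ^ (p * N)) - ((p : ℤ) - 1) =
      ∑ x ∈ range q, (((x : ℤ) + 1) ^ (p * N) - 1) := by
    have : ∑ x ∈ range p, (x : ℤ) ^ (p * N) = ∑ x ∈ range (q + 1), (x : ℤ) ^ (p * N) := by
      rw [← hq]
    rw [this, sum_range_succ', sum_sub_distrib, sum_const, card_range]
    have h3 : ((0 : ℕ) : ℤ) ^ (p * N) = 0 := by
      rw [Nat.cast_zero]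
      exact zero_pow (Nat.mul_pos (by omega) hN).ne'
    rw [h3, hq]
    push_cast
    simp
  rw [e1]
  refine Finset.dvd_sum fun x hx => ?_
  have hx' := mem_range.1 hx
  obtain ⟨M, hM⟩ := h
  have hco : IsCoprime ((x : ℤ) + 1) (p : ℤ) := by
    rw [isCoprime_comm]
    refine (Int.isCoprime_iff_gcd_eq_one.2 ?_)
    have h4 : Nat.Coprime p (x + 1) := by
      refine (Nat.Prime.coprime_iff_not_dvd hp.out).2 ?_
      intro hd
      have := Nat.le_of_dvd (by omega) hd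
      omega
    have h5 : ((x : ℤ) + 1) = ((x + 1 : ℕ) : ℤ) := by push_cast; rfl
    rw [h5, Int.gcd_natCast_natCast]
    exact h4
  have h6 : (p : ℤ) ∣ ((x : ℤ) + 1) ^ (p - 1) - 1 := by
    have := Int.ModEq.pow_card_sub_one_eq_one hp.out hco
    exact (Int.modEq_iff_dvd.1 this.symm)
  have h7 := pow_p_congr h6 M
  rw [one_pow, ← pow_mul] at h7
  have e2 : (p - 1) * (p * M) = p * N := by rw [hM]; ring
  rwa [e2] at h7

theorem ps_ndiv {N : ℕ} (h : ¬ (p - 1) ∣ N) :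
    (p : ℤ) ^ 2 ∣ (∑ x ∈ range p, (x : ℤ) ^ (p * N)) := by
  haveI : NeZero p := ⟨hp.out.ne_zero⟩
  have h1 : ¬ ∀ x : (ZMod p)ˣ, x ^ N = 1 := by
    rw [FiniteField.forall_pow_eq_one_iff, ZMod.card]
    exact h
  push Not at h1
  obtain ⟨g, hg⟩ := h1
  set S : ℤ := ∑ x ∈ range p, (x : ℤ) ^ (p * N) with hS
  have e1 : S = ∑ x : ZMod p, ((x.val : ℕ) : ℤ) ^ (p * N) :=
    sum_zmod (fun x => (x : ℤ) ^ (p * N))
  have e2 : S = ∑ x : ZMod p, (((g : ZMod p) * x).val : ℤ) ^ (p * N) := by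
    rw [e1]
    exact (Equiv.sum_comp (Units.mulLeft g) (fun x : ZMod p => ((x.val : ℕ) : ℤ) ^ (p * N))).symm
  set G : ℤ := ((g : ZMod p).val : ℤ) with hG
  have h2 : (p : ℤ) ^ 2 ∣ S - G ^ (p * N) * S := by
    have e3 : S - G ^ (p * N) * S = ∑ x : ZMod p, ((((g : ZMod p) * x).val : ℤ) ^ (p * N) -
        (G * (x.val : ℤ)) ^ (p * N)) := by
      rw [sum_sub_distrib, ← e2]
      congr 1
      rw [e1, mul_sum]
      exact sum_congr rfl fun x _ => by rw [mul_pow]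
    rw [e3]
    refine Finset.dvd_sum fun x _ => pow_p_congr ?_ N
    rw [← ZMod.intCast_eq_intCast_iff_dvd_sub]
    rw [hG]
    push_cast
    rw [ZMod.natCast_zmod_val, ZMod.natCast_zmod_val, ZMod.natCast_zmod_val]
  have h3 : ¬ (p : ℤ) ∣ 1 - G ^ (p * N) := by
    rw [← ZMod.intCast_eq_intCast_iff_dvd_sub]
    rw [hG]
    push_cast
    rw [ZMod.natCast_zmod_val, pow_mul, ZMod.pow_card]
    intro h4
    apply hg
    apply Units.ext
    rw [Units.val_pow_eq_pow_val, Units.val_one]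
    exact h4
  have h4 : S - G ^ (p * N) * S = (1 - G ^ (p * N)) * S := by ring
  rw [h4] at h2
  have hco : IsCoprime ((p : ℤ) ^ 2) (1 - G ^ (p * N)) :=
    IsCoprime.pow_left ((Prime.coprime_iff_not_dvd (pz (p := p))).2 h3)
  exact hco.dvd_of_dvd_mul_left h2

/-- the power sums -/
def PS (p N : ℕ) : ℚ := ∑ x ∈ range p, ((x : ℚ) ^ p) ^ N

theorem PS_eq {N : ℕ} (hN : 0 < N) :
    EQ p 2 (PS p N) (if (p - 1) ∣ N then (p : ℚ) - 1 else 0) := by
  have e : PS p N = ((∑ x ∈ range p, (x : ℤ) ^ (p * N) : ℤ) : ℚ) := by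
    rw [PS]
    push_cast
    exact sum_congr rfl fun x _ => by rw [pow_mul]
  rw [e]
  split_ifs with h
  · have := EQ_int (ps_div hN h)
    push_cast at this
    push_cast
    exact this
  · have := EQ_int (k := 2) (a := ∑ x ∈ range p, (x : ℤ) ^ (p * N)) (b := 0)
      (by rw [sub_zero]; exact ps_ndiv h)
    push_cast at this
    push_cast
    exact this

/-! ### The binomial expansion -/

/-- `((1-x)^p - (1-x^p)) / p` -/
def Qx (p : ℕ) (x : ℚ) : ℚ := ∑ k ∈ Ico 1 p, ((p.choose k : ℚ) / p) * (-x) ^ k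

theorem bin (hodd : Odd p) (x : ℚ) : (1 - x) ^ p = 1 - x ^ p + p * Qx p x := by
  have h1 : (1 - x) ^ p = ∑ m ∈ range (p + 1), (-x) ^ m * 1 ^ (p - m) * (p.choose m : ℚ) := by
    rw [← add_pow]; congr 1; ring
  have hp0 := p_ne (p := p)
  rw [h1, sum_range_succ, range_eq_Ico, sum_eq_sum_Ico_succ_bot hp.out.pos, Qx, mul_sum]
  have h2 : ∀ k ∈ Ico (0 + 1) p, (-x) ^ k * 1 ^ (p - k) * (p.choose k : ℚ) =
      p * ((p.choose k : ℚ) / p * (-x) ^ k) := by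
    intro k _
    rw [one_pow]
    field_simp
  rw [sum_congr rfl h2, Nat.choose_self, Nat.choose_zero_right, hodd.neg_pow]
  simp only [pow_zero, one_pow, Nat.cast_one, mul_one, zero_add]
  ring

theorem U_nat {k : ℕ} (h0 : 0 < k) (h1 : k < p) : U p (k : ℚ) := by
  have : ¬ (p : ℤ) ∣ (k : ℤ) := by
    intro h
    have h2 : p ∣ k := by exact_mod_cast h
    have := Nat.le_of_dvd h0 h2
    omega
  have := U_int this
  exact_mod_cast this

theorem fermat (x : ℕ) : EQ p 1 ((x : ℚ)) ((x : ℚ) ^ p) := by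
  have h : (p : ℤ) ^ 1 ∣ (x : ℤ) - (x : ℤ) ^ p := by
    rw [pow_one, ← ZMod.intCast_eq_intCast_iff_dvd_sub]
    push_cast
    rw [ZMod.pow_card]
  have := EQ_int h
  push_cast at this
  exact this

theorem Q_congr (x : ℕ) :
    EQ p 1 (Qx p x) (-∑ k ∈ Ico 1 p, ((x : ℚ) ^ p) ^ k / k) := by
  rw [Qx, ← sum_neg_distrib]
  refine EQ.sum fun k hk => ?_
  rw [mem_Ico] at hk
  obtain ⟨l, rfl⟩ : ∃ l, k = l + 1 := ⟨k - 1, by omega⟩
  have hu := U_nat (p := p) (k := l + 1) (by omega) hk.2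
  have hp0 := p_ne (p := p)
  have e1 : (p.choose (l + 1) : ℚ) / p = ((p - 1).choose l : ℚ) / ((l + 1 : ℕ) : ℚ) := by
    have h2 := hp.out.two_le
    obtain ⟨r, hr⟩ : ∃ r, p = r + 1 := ⟨p - 1, by omega⟩
    have h3 := Nat.add_one_mul_choose_eq r l
    rw [div_eq_div_iff hp0 hu.1]
    rw [hr, Nat.add_sub_cancel]
    have h4 : ((r + 1 : ℕ) : ℚ) * (r.choose l : ℚ) =
      ((r + 1).choose (l + 1) : ℚ) * ((l + 1 : ℕ) : ℚ) := by exact_mod_cast h3
    rw [← h4]; ring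
  rw [e1]
  have h5 : EQ p 1 (((p - 1).choose l : ℚ) / ((l + 1 : ℕ) : ℚ))
      ((-1) ^ l / ((l + 1 : ℕ) : ℚ)) :=
    EQ.div one_pos (choose_pm1 l (by omega)) (EQ.refl hu.2.1) hu
  have h6 : EQ p 1 ((-(x : ℚ)) ^ (l + 1)) ((-((x : ℚ) ^ p)) ^ (l + 1)) := (fermat x).neg.pow _
  have h7 := h5.mul h6
  have e2 : (-1 : ℚ) ^ l / ((l + 1 : ℕ) : ℚ) * (-((x : ℚ) ^ p)) ^ (l + 1) =
      -(((x : ℚ) ^ p) ^ (l + 1) / ((l + 1 : ℕ) : ℚ)) := by
    rw [neg_pow ((x : ℚ) ^ p)]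
    have : (-1 : ℚ) ^ l * (-1) ^ (l + 1) = -1 := by
      rw [← pow_add]
      exact Odd.neg_one_pow ⟨l, by ring⟩
    rw [div_mul_eq_mul_div, ← mul_assoc, this]
    ring
  rwa [e2] at h7

theorem pow_exp {a b : ℚ} (ha : a ∈ Zp p) (hb : b ∈ Zp p) (m : ℕ) :
    EQ p 2 ((a + p * b) ^ (m + 1)) (a ^ (m + 1) + (m + 1 : ℕ) * (p * (b * a ^ m))) := by
  have hpm := p_mem (p := p)
  induction m with
  | zero =>
    simp only [zero_add, pow_one, pow_zero, mul_one, Nat.cast_one, one_mul]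
    exact EQ.refl (add_mem ha (mul_mem hpm hb))
  | succ m ih =>
    have h1 := ih.mul (EQ.refl (p := p) (k := 2) (add_mem ha (mul_mem hpm hb)))
    rw [← pow_succ] at h1
    refine h1.trans ⟨h1.2.1, ?_, ?_⟩
    · exact add_mem (pow_mem ha _) (mul_mem (nat_mem _) (mul_mem hpm (mul_mem hb (pow_mem ha _))))
    · refine ⟨(m + 1 : ℕ) * (b * b * a ^ m), mul_mem (nat_mem _)
        (mul_mem (mul_mem hb hb) (pow_mem ha _)), ?_⟩
      push_cast
      ring

/-- the terms of the Jacobi sum -/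
theorem term (hodd : Odd p) (m : ℕ) (x : ℕ) :
    EQ p 2 (((x : ℚ) * (1 - x)) ^ ((m + 1) * p))
      ((∑ i ∈ range (m + 2), ((-1) ^ i * ((m + 1).choose i : ℚ)) * ((x : ℚ) ^ p) ^ (m + 1 + i)) -
        (m + 1 : ℕ) * (p * ∑ k ∈ Ico 1 p, ∑ i ∈ range (m + 1),
          ((-1) ^ i * (m.choose i : ℚ) / k) * ((x : ℚ) ^ p) ^ (m + 1 + k + i))) := by
  set X : ℚ := (x : ℚ) ^ p with hX
  have hXm : X ∈ Zp p := pow_mem (nat_mem x) p
  have hQm : Qx p x ∈ Zp p := (Q_congr x).1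
  have e1 : ((x : ℚ) * (1 - x)) ^ ((m + 1) * p) = X ^ (m + 1) * ((1 - X) + p * Qx p x) ^ (m + 1) := by
    rw [mul_comm (m + 1) p, pow_mul, mul_pow, bin hodd, mul_pow]
  have h1 : EQ p 2 (X ^ (m + 1) * ((1 - X) + p * Qx p x) ^ (m + 1))
      (X ^ (m + 1) * ((1 - X) ^ (m + 1) + (m + 1 : ℕ) * (p * (Qx p x * (1 - X) ^ m)))) :=
    (EQ.refl (pow_mem hXm _)).mul (pow_exp (sub_mem (one_mem _) hXm) hQm m)
  set L : ℚ := -∑ k ∈ Ico 1 p, X ^ k / k with hL
  have hQL : EQ p 1 (Qx p x) L := Q_congr x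
  have h2 : EQ p 2 (p * (Qx p x * (1 - X) ^ m)) (p * (L * (1 - X) ^ m)) := by
    have h3 : EQ p 1 (Qx p x * (1 - X) ^ m) (L * (1 - X) ^ m) :=
      hQL.mul (EQ.refl (pow_mem (sub_mem (one_mem _) hXm) m))
    refine ⟨mul_mem p_mem h3.1, mul_mem p_mem h3.2.1, ?_⟩
    rw [← mul_sub]
    exact I_p_mul_iff.2 h3.2.2
  have h4 : EQ p 2 (X ^ (m + 1) * ((1 - X) ^ (m + 1) + (m + 1 : ℕ) * (p * (Qx p x * (1 - X) ^ m))))
      (X ^ (m + 1) * ((1 - X) ^ (m + 1) + (m + 1 : ℕ) * (p * (L * (1 - X) ^ m)))) :=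
    (EQ.refl (pow_mem hXm _)).mul ((EQ.refl (pow_mem (sub_mem (one_mem _) hXm) _)).add
      ((EQ.refl (nat_mem _)).mul h2))
  have e2 : ∀ r : ℕ, (1 - X) ^ r = ∑ i ∈ range (r + 1), ((-1) ^ i * (r.choose i : ℚ)) * X ^ i := by
    intro r
    have : (1 - X) ^ r = (-X + 1) ^ r := by congr 1; ring
    rw [this, add_pow]
    refine sum_congr rfl fun i _ => ?_
    rw [neg_pow X, one_pow]
    ring
  have e3 : X ^ (m + 1) * ((1 - X) ^ (m + 1) + (m + 1 : ℕ) * (p * (L * (1 - X) ^ m))) =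
      (∑ i ∈ range (m + 2), ((-1) ^ i * ((m + 1).choose i : ℚ)) * X ^ (m + 1 + i)) -
        (m + 1 : ℕ) * (p * ∑ k ∈ Ico 1 p, ∑ i ∈ range (m + 1),
          ((-1) ^ i * (m.choose i : ℚ) / k) * X ^ (m + 1 + k + i)) := by
    have e4 : X ^ (m + 1) * (1 - X) ^ (m + 1) =
        ∑ i ∈ range (m + 2), ((-1) ^ i * ((m + 1).choose i : ℚ)) * X ^ (m + 1 + i) := by
      rw [e2 (m + 1), mul_sum]
      refine sum_congr rfl fun i _ => ?_
      rw [pow_add]; ring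
    have e5 : X ^ (m + 1) * ((∑ k ∈ Ico 1 p, X ^ k / k) * (1 - X) ^ m) =
        ∑ k ∈ Ico 1 p, ∑ i ∈ range (m + 1),
          ((-1) ^ i * (m.choose i : ℚ) / k) * X ^ (m + 1 + k + i) := by
      rw [e2 m, sum_mul_sum, mul_sum]
      refine sum_congr rfl fun k _ => ?_
      rw [mul_sum]
      refine sum_congr rfl fun i _ => ?_
      rw [pow_add X (m + 1 + k) i, pow_add X (m + 1) k]; ring
    rw [← e4, ← e5, hL]
    ring
  rw [e1, ← e3]
  exact h1.trans h4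

/-- the inner sum over `k` -/
theorem inner {j i : ℕ} (hj : 0 < j) (hi : i < 4 * j) (hpj : p = 6 * j + 1) (f : ℕ → ℚ) :
    ∑ k ∈ Ico 1 p, (if (p - 1) ∣ 4 * j + k + i then f k else 0) =
      f (if i < 2 * j then 2 * j - i else 8 * j - i) := by
  have hp1 : p - 1 = 6 * j := by omega
  rw [hp1]
  have hmem : (if i < 2 * j then 2 * j - i else 8 * j - i) ∈ Ico 1 p := by
    rw [mem_Ico]
    split_ifs <;> omega
  rw [sum_eq_single_of_mem _ hmem]
  · rw [if_pos]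
    split_ifs with h
    · exact ⟨1, by omega⟩
    · exact ⟨2, by omega⟩
  · intro k hk hne
    rw [mem_Ico] at hk
    rw [if_neg]
    rintro ⟨c, hc⟩
    have c0 : c ≠ 0 := by rintro rfl; omega
    have c3 : c < 3 := by
      by_contra h
      have := Nat.mul_le_mul_left (6 * j) (not_lt.1 h)
      omega
    apply hne
    have : c = 1 ∨ c = 2 := by omega
    rcases this with rfl | rfl
    · split_ifs <;> omega
    · split_ifs <;> omega

end JSm

open JSm in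
theorem jsum : StmtSum := by
  intro p j hp hpj
  have h2 := hp.out.two_le
  have hj : 0 < j := by omega
  have hodd : Odd p := ⟨3 * j, by omega⟩
  obtain ⟨m, hm⟩ : ∃ m, 4 * j = m + 1 := ⟨4 * j - 1, by omega⟩
  have hp1 : p - 1 = 6 * j := by omega
  have hpq : (p : ℚ) = 6 * j + 1 := by rw [hpj]; push_cast; ring
  -- expansion
  have s1 : EQ p 2 (JS p j)
      (∑ x ∈ range p, ((∑ i ∈ range (m + 2), ((-1) ^ i * ((m + 1).choose i : ℚ)) *
        ((x : ℚ) ^ p) ^ (m + 1 + i)) -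
        (m + 1 : ℕ) * (p * ∑ k ∈ Ico 1 p, ∑ i ∈ range (m + 1),
          ((-1) ^ i * (m.choose i : ℚ) / k) * ((x : ℚ) ^ p) ^ (m + 1 + k + i)))) := by
    rw [JS, hm]
    exact EQ.sum fun x _ => term hodd m x
  have s2 : (∑ x ∈ range p, ((∑ i ∈ range (m + 2), ((-1) ^ i * ((m + 1).choose i : ℚ)) *
        ((x : ℚ) ^ p) ^ (m + 1 + i)) -
        (m + 1 : ℕ) * (p * ∑ k ∈ Ico 1 p, ∑ i ∈ range (m + 1),
          ((-1) ^ i * (m.choose i : ℚ) / k) * ((x : ℚ) ^ p) ^ (m + 1 + k + i)))) =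
      (∑ i ∈ range (m + 2), ((-1) ^ i * ((m + 1).choose i : ℚ)) * PS p (m + 1 + i)) -
        (m + 1 : ℕ) * (p * ∑ k ∈ Ico 1 p, ∑ i ∈ range (m + 1),
          ((-1) ^ i * (m.choose i : ℚ) / k) * PS p (m + 1 + k + i)) := by
    rw [sum_sub_distrib, sum_comm, ← mul_sum, ← mul_sum]
    congr 1
    · refine sum_congr rfl fun i _ => ?_
      rw [PS, mul_sum]
    · congr 2
      rw [sum_comm]
      refine sum_congr rfl fun k _ => ?_
      rw [sum_comm]
      refine sum_congr rfl fun i _ => ?_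
      rw [PS, mul_sum]
  have hcm : ∀ (r i k : ℕ), k ∈ Ico 1 p → ((-1) ^ i * (r.choose i : ℚ) / k) ∈ Zp p := by
    intro r i k hk
    rw [mem_Ico] at hk
    rw [div_eq_mul_inv]
    exact mul_mem (mul_mem (neg_mem' i) (nat_mem _)) (U_nat (by omega) hk.2).2.2
  have s3 : EQ p 2 ((∑ i ∈ range (m + 2), ((-1) ^ i * ((m + 1).choose i : ℚ)) *
        PS p (m + 1 + i)) -
        (m + 1 : ℕ) * (p * ∑ k ∈ Ico 1 p, ∑ i ∈ range (m + 1),
          ((-1) ^ i * (m.choose i : ℚ) / k) * PS p (m + 1 + k + i)))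
      ((∑ i ∈ range (m + 2), ((-1) ^ i * ((m + 1).choose i : ℚ)) *
        (if (p - 1) ∣ m + 1 + i then (p : ℚ) - 1 else 0)) -
        (m + 1 : ℕ) * (p * ∑ k ∈ Ico 1 p, ∑ i ∈ range (m + 1),
          ((-1) ^ i * (m.choose i : ℚ) / k) *
            (if (p - 1) ∣ m + 1 + k + i then (p : ℚ) - 1 else 0))) := by
    refine EQ.sub (EQ.sum fun i _ => ?_) ((EQ.refl (nat_mem _)).mul ((EQ.refl p_mem).mul
      (EQ.sum fun k hk => EQ.sum fun i _ => ?_)))
    · exact (EQ.refl (mul_mem (neg_mem' i) (nat_mem _))).mul (PS_eq (by omega))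
    · exact (EQ.refl (hcm m i k hk)).mul (PS_eq (by omega))
  -- the first sum
  have f1 : (∑ i ∈ range (m + 2), ((-1) ^ i * ((m + 1).choose i : ℚ)) *
        (if (p - 1) ∣ m + 1 + i then (p : ℚ) - 1 else 0)) =
      ((p : ℚ) - 1) * ((4 * j).choose (2 * j) : ℚ) := by
    rw [← hm, hp1, sum_eq_single_of_mem (2 * j) (mem_range.2 (by omega))]
    · rw [if_pos ⟨1, by omega⟩, Even.neg_one_pow ⟨j, by ring⟩]
      ring
    · intro i hi hne
      rw [mem_range] at hi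
      rw [if_neg, mul_zero]
      rintro ⟨c, hc⟩
      have c0 : c ≠ 0 := by rintro rfl; omega
      have c2 : c < 2 := by
        by_contra h
        have := Nat.mul_le_mul_left (6 * j) (not_lt.1 h)
        omega
      have : c = 1 := by omega
      subst this
      omega
  -- the second sum
  set Zx : ℚ := ∑ i ∈ range (4 * j), ((-1) ^ i * ((4 * j - 1).choose i : ℚ)) /
    ((if i < 2 * j then 2 * j - i else 8 * j - i : ℕ) : ℚ) with hZx
  have f2 : ∑ k ∈ Ico 1 p, ∑ i ∈ range (m + 1), ((-1) ^ i * (m.choose i : ℚ) / k) *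
      (if (p - 1) ∣ m + 1 + k + i then (p : ℚ) - 1 else 0) = ((p : ℚ) - 1) * Zx := by
    have hm' : m = 4 * j - 1 := by omega
    rw [sum_comm, ← hm, hm', hZx, mul_sum]
    refine sum_congr rfl fun i hi => ?_
    have hi' := mem_range.1 hi
    have := inner (p := p) hj hi' hpj
      (fun k => ((-1) ^ i * ((4 * j - 1).choose i : ℚ) / (k : ℚ)) * ((p : ℚ) - 1))
    rw [mul_comm ((p : ℚ) - 1), ← this]
    refine sum_congr rfl fun k _ => ?_
    rw [mul_ite, mul_zero]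
  have hZm : ∀ i, i < 4 * j → ((-1) ^ i * ((4 * j - 1).choose i : ℚ)) /
      ((if i < 2 * j then 2 * j - i else 8 * j - i : ℕ) : ℚ) ∈ Zp p := by
    intro i hi
    exact hcm _ _ _ (by rw [mem_Ico]; split_ifs <;> omega)
  -- `Zx` modulo `p`
  have f3 : EQ p 1 Zx (2 * ZZ j) := by
    have e1 : 4 * j = 2 * j + 2 * j := by ring
    have e2 : Zx = (∑ i ∈ range (2 * j), ((-1) ^ i * ((4 * j - 1).choose i : ℚ)) /
          ((if i < 2 * j then 2 * j - i else 8 * j - i : ℕ) : ℚ)) +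
        ∑ i ∈ range (2 * j), ((-1) ^ (2 * j + i) * ((4 * j - 1).choose (2 * j + i) : ℚ)) /
          ((if 2 * j + i < 2 * j then 2 * j - (2 * j + i) else 8 * j - (2 * j + i) : ℕ) : ℚ) := by
      rw [hZx]
      conv_lhs => rw [show range (4 * j) = range (2 * j + 2 * j) by rw [← e1]]
      rw [sum_range_add]
    have e3 : (∑ i ∈ range (2 * j), ((-1) ^ i * ((4 * j - 1).choose i : ℚ)) /
          ((if i < 2 * j then 2 * j - i else 8 * j - i : ℕ) : ℚ)) = ZZ j := by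
      rw [ZZ]
      refine sum_congr rfl fun i hi => ?_
      have hi' := mem_range.1 hi
      rw [if_pos hi', Nat.cast_sub hi'.le]
      push_cast
      rfl
    have e4 : ∑ i ∈ range (2 * j), ((-1) ^ (2 * j + i) * ((4 * j - 1).choose (2 * j + i) : ℚ)) /
          ((if 2 * j + i < 2 * j then 2 * j - (2 * j + i) else 8 * j - (2 * j + i) : ℕ) : ℚ) =
        ∑ i ∈ range (2 * j), -((-1) ^ i * ((4 * j - 1).choose i : ℚ)) / ((4 * j + 1 + i : ℕ) : ℚ) := by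
      rw [← Finset.sum_range_reflect]
      refine sum_congr rfl fun i hi => ?_
      have hi' := mem_range.1 hi
      rw [if_neg (by omega)]
      have a1 : 8 * j - (2 * j + (2 * j - 1 - i)) = 4 * j + 1 + i := by omega
      have a2 : 2 * j + (2 * j - 1 - i) = 4 * j - 1 - i := by omega
      have a3 : (4 * j - 1).choose (4 * j - 1 - i) = (4 * j - 1).choose i :=
        Nat.choose_symm (by omega)
      have a4 : (-1 : ℚ) ^ (4 * j - 1 - i) = -(-1) ^ i := by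
        have b1 : (-1 : ℚ) ^ (4 * j - 1 - i) * (-1) ^ i = -1 := by
          rw [← pow_add]
          exact Odd.neg_one_pow ⟨2 * j - 1, by omega⟩
        have b2 : (-1 : ℚ) ^ i * (-1) ^ i = 1 := by
          rw [← pow_add]
          exact Even.neg_one_pow ⟨i, rfl⟩
        calc (-1 : ℚ) ^ (4 * j - 1 - i) = (-1 : ℚ) ^ (4 * j - 1 - i) * ((-1 : ℚ) ^ i * (-1) ^ i) := by
              rw [b2, mul_one]
          _ = ((-1 : ℚ) ^ (4 * j - 1 - i) * (-1 : ℚ) ^ i) * (-1) ^ i := by ring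
          _ = -(-1) ^ i := by rw [b1]; ring
      rw [a1, a2, a3, a4]
      ring
    have e5 : EQ p 1 (∑ i ∈ range (2 * j), -((-1) ^ i * ((4 * j - 1).choose i : ℚ)) /
        ((4 * j + 1 + i : ℕ) : ℚ)) (ZZ j) := by
      rw [ZZ]
      refine EQ.sum fun i hi => ?_
      have hi' := mem_range.1 hi
      have u1 : U p ((4 * j + 1 + i : ℕ) : ℚ) := U_nat (by omega) (by omega)
      have c1 : EQ p 1 ((4 * j + 1 + i : ℕ) : ℚ) (((i : ℤ) - 2 * j : ℤ) : ℚ) := by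
        have := EQ_int (p := p) (k := 1) (a := ((4 * j + 1 + i : ℕ) : ℤ)) (b := (i : ℤ) - 2 * j)
          (by rw [pow_one]; exact ⟨1, by rw [hpj]; push_cast; ring⟩)
        push_cast at this ⊢
        exact this
      have c2 := EQ.div one_pos
        (EQ.refl (p := p) (k := 1) (neg_mem (mul_mem (neg_mem' i) (nat_mem ((4 * j - 1).choose i)))))
        c1 u1
      have c3 : -((-1 : ℚ) ^ i * ((4 * j - 1).choose i : ℚ)) / (((i : ℤ) - 2 * j : ℤ) : ℚ) =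
          (-1) ^ i * ((4 * j - 1).choose i : ℚ) / (2 * j - i) := by
        have d1 : (2 * (j : ℚ) - i) ≠ 0 := by
          have : (i : ℚ) < 2 * j := by exact_mod_cast hi'
          linarith
        have d2 : (((i : ℤ) - 2 * j : ℤ) : ℚ) = -(2 * (j : ℚ) - i) := by push_cast; ring
        rw [d2, neg_div_neg_eq]
      rw [c3] at c2
      exact c2
    rw [e2, e3, e4]
    have hZZm : ZZ j ∈ Zp p := e5.2.1
    have := (EQ.refl (p := p) (k := 1) hZZm).add e5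
    have e6 : ZZ j + ZZ j = 2 * ZZ j := by ring
    rwa [e6] at this
  -- conclusion
  rw [s2] at s1
  refine (s1.trans s3).trans ?_
  rw [f1, f2]
  have hZxm : Zx ∈ Zp p := f3.1
  have g1 : EQ p 1 (-(((p : ℚ) - 1) * Zx)) (2 * ZZ j) := by
    refine EQ.trans ?_ f3
    refine ⟨neg_mem (mul_mem (sub_mem p_mem (one_mem _)) hZxm), hZxm, ?_⟩
    exact ⟨-Zx, neg_mem hZxm, by ring⟩
  have g2 : EQ p 2 ((p : ℚ) * (-(((p : ℚ) - 1) * Zx))) (p * (2 * ZZ j)) := by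
    refine ⟨mul_mem p_mem g1.1, mul_mem p_mem g1.2.1, ?_⟩
    rw [← mul_sub]
    exact I_p_mul_iff.2 g1.2.2
  have g3 := (EQ.refl (p := p) (k := 2) (nat_mem (m + 1))).mul g2
  have g4 : EQ p 2 (((p : ℚ) - 1) * ((4 * j).choose (2 * j) : ℚ))
      (((p : ℚ) - 1) * ((4 * j).choose (2 * j) : ℚ)) :=
    EQ.refl (mul_mem (sub_mem p_mem (one_mem _)) (nat_mem _))
  have g5 := g4.add g3
  have k1 : ((p : ℚ) - 1) * ((4 * j).choose (2 * j) : ℚ) +
      ((m + 1 : ℕ) : ℚ) * ((p : ℚ) * (-(((p : ℚ) - 1) * Zx))) =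
      ((p : ℚ) - 1) * ((4 * j).choose (2 * j) : ℚ) -
        ((m + 1 : ℕ) : ℚ) * ((p : ℚ) * (((p : ℚ) - 1) * Zx)) := by ring
  have k2 : ((m + 1 : ℕ) : ℚ) = 4 * j := by rw [← hm]; push_cast; ring
  have k3 : ((p : ℚ) - 1) * ((4 * j).choose (2 * j) : ℚ) +
      ((m + 1 : ℕ) : ℚ) * ((p : ℚ) * (2 * ZZ j)) =
      ((p : ℚ) - 1) * ((4 * j).choose (2 * j) : ℚ) + p * (8 * j * ZZ j) := by
    rw [k2]; ring
  rw [k1, k3] at g5
  exact g5

end Pool.Agent.R488.Cub
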