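import Mathlib
import Pool.Agent.R488.Cub.Defs

set_option autoImplicit false

/-!
CUB-JAC: the cubic Jacobi sum modulo `p^2` (for MP_2293c7_nt).
-/

namespace Pool.Agent.R488.Cub

open Finset Pool.Agent.R439.PL

namespace Jac

/-- integer endgame -/
theorem endgame (p : ℤ) (hp : Prime p) (L J1 J2 Jz : ℤ) (h1 : p ^ 2 ∣ Jz - J1)
    (h2 : p ^ 2 ∣ J1 + J2 - L) (h3 : p ^ 2 ∣ J1 * J2 - p) (h : ¬ p ∣ Jz) :
    ¬ p ∣ L ∧ p ^ 2 ∣ L * Jz - L ^ 2 + p := by
  obtain ⟨a, ha⟩ := h1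
  obtain ⟨b, hb⟩ := h2
  obtain ⟨c, hc⟩ := h3
  have hJ1 : ¬ p ∣ J1 := by
    rintro ⟨d, hd⟩
    exact h ⟨d + p * a, by linear_combination ha + hd⟩
  have hJ12 : p ∣ J1 * J2 := ⟨p * c + 1, by linear_combination hc⟩
  have hJ2 : p ∣ J2 := (hp.dvd_or_dvd hJ12).resolve_left hJ1
  obtain ⟨k, hk⟩ := hJ2
  have hk1 : J1 * k - 1 = p * c := by
    have : p * (J1 * k - 1) = p * (p * c) := by rw [hk] at hc; linear_combination hc
    exact mul_left_cancel₀ hp.ne_zero this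
  refine ⟨?_, ?_⟩
  · rintro ⟨d, hd⟩
    exact hJ1 ⟨d - k + p * b, by linear_combination hb + hd - hk⟩
  · refine ⟨L * (a + b) - c - k ^ 2 + p * b * k, ?_⟩
    have e1 : Jz = J1 + p ^ 2 * a := by linear_combination ha
    have e2 : J1 = L - p * k + p ^ 2 * b := by linear_combination hb - hk
    have e3 : L * k = 1 + p * c + p * k ^ 2 - p ^ 2 * b * k := by
      rw [e2] at hk1; linear_combination hk1
    rw [e1, e2]
    linear_combination (-p) * e3

variable {p : ℕ} [hp : Fact p.Prime]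

open Classical in
/-- class counts -/
noncomputable def N (χ : MulChar (ZMod p) ℂ) (t : ℂ) : ℕ :=
  (univ.filter fun x : ZMod p => χ (x * (1 - x)) = t).card

theorem sum_classes {R : Type*} [CommRing R] (χ : MulChar (ZMod p) ℂ) (w : ℂ)
    (hw3 : w ^ 3 = 1) (hw1 : w ≠ 1)
    (hχ : ∀ x : ZMod p, x ≠ 0 → χ x = 1 ∨ χ x = w ∨ χ x = w ^ 2)
    (f : ZMod p → R) (t : R) (hf0 : f 0 = 0) (hf1 : f 1 = 0)
    (hfa : ∀ x, χ (x * (1 - x)) = 1 → f x = 1) (hfb : ∀ x, χ (x * (1 - x)) = w → f x = t)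
    (hfc : ∀ x, χ (x * (1 - x)) = w ^ 2 → f x = t ^ 2) :
    ∑ x, f x = N χ 1 + N χ w * t + N χ (w ^ 2) * t ^ 2 := by
  classical
  have hw0 : w ≠ 0 := by rintro rfl; norm_num at hw3
  have hw2 : w ^ 2 ≠ 1 := by
    intro h; apply hw1
    have : w ^ 3 = w ^ 2 * w := by ring
    rw [h, one_mul, hw3] at this
    exact this.symm
  have hw12 : w ≠ w ^ 2 := by
    intro h; apply hw1
    have : w * 1 = w * w := by rw [mul_one]; rw [← pow_two]; exact h
    exact (mul_left_cancel₀ hw0 this).symm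
  have h00 : χ (0 * (1 - 0)) = 0 := by rw [zero_mul]; exact MulChar.map_zero χ
  have h11 : χ (1 * (1 - 1)) = 0 := by rw [sub_self, mul_zero]; exact MulChar.map_zero χ
  have key : ∀ x : ZMod p, f x = (if χ (x * (1 - x)) = 1 then 1 else 0) +
      (if χ (x * (1 - x)) = w then t else 0) + (if χ (x * (1 - x)) = w ^ 2 then t ^ 2 else 0) := by
    intro x
    by_cases hx0 : x = 0
    · subst hx0
      rw [hf0, h00, if_neg (by norm_num), if_neg hw0.symm, if_neg (pow_ne_zero 2 hw0).symm]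
      ring
    by_cases hx1 : x = 1
    · subst hx1
      rw [hf1, h11, if_neg (by norm_num), if_neg hw0.symm, if_neg (pow_ne_zero 2 hw0).symm]
      ring
    have hne : x * (1 - x) ≠ 0 := mul_ne_zero hx0 (sub_ne_zero.2 (Ne.symm hx1))
    rcases hχ _ hne with h | h | h
    · rw [hfa x h, h, if_pos rfl, if_neg (Ne.symm hw1), if_neg (Ne.symm hw2)]; ring
    · rw [hfb x h, h, if_neg hw1, if_pos rfl, if_neg hw12]; ring
    · rw [hfc x h, h, if_neg hw2, if_neg (Ne.symm hw12), if_pos rfl]; ring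
  rw [Finset.sum_congr rfl fun x _ => key x, sum_add_distrib, sum_add_distrib]
  unfold N
  rw [← sum_filter, ← sum_filter, ← sum_filter, sum_const, sum_const, sum_const]
  simp only [nsmul_eq_mul, mul_one]

/-- the classes of `w`, `w^2` have cardinality divisible by 3 -/
theorem three_dvd (χ : MulChar (ZMod p) ℂ)
    (hχ : ∀ x : ZMod p, x ≠ 0 → χ x ^ 3 = 1) (t : ℂ) (ht0 : t ≠ 0) (ht1 : t ≠ 1) :
    3 ∣ N χ t := by
  classical
  have hχ0 : χ 0 = 0 := MulChar.map_zero χ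
  let A := {x : ZMod p // χ (x * (1 - x)) = t}
  have hA : ∀ x : A, x.1 ≠ 0 ∧ 1 - x.1 ≠ 0 := by
    rintro ⟨x, hx⟩
    constructor
    · rintro h
      dsimp only at h
      rw [h, zero_mul, hχ0] at hx
      exact ht0 hx.symm
    · rintro h
      dsimp only at h
      rw [h, mul_zero, hχ0] at hx
      exact ht0 hx.symm
  have hf : ∀ x : A, χ ((1 - x.1)⁻¹ * (1 - (1 - x.1)⁻¹)) = t := by
    intro x
    obtain ⟨h0, h1⟩ := hA x
    have e : (1 - x.1)⁻¹ * (1 - (1 - x.1)⁻¹) = x.1 * (1 - x.1) * (-(1 - x.1)⁻¹) ^ 3 := by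
      field_simp
      ring
    rw [e, map_mul, map_pow, hχ _ (neg_ne_zero.2 (inv_ne_zero h1)), mul_one]
    exact x.2
  let f : Function.End A := fun x => ⟨(1 - x.1)⁻¹, hf x⟩
  have hf3 : f ^ 3 ^ 1 = 1 := by
    funext x
    obtain ⟨h0, h1⟩ := hA x
    rw [pow_one]
    change f (f (f x)) = x
    apply Subtype.ext
    change (1 - (1 - (1 - x.1)⁻¹)⁻¹)⁻¹ = x.1
    have e1 : 1 - (1 - x.1)⁻¹ = (-x.1) / (1 - x.1) := by field_simp; ring
    have e2 : (1 - (1 - x.1)⁻¹)⁻¹ = (x.1 - 1) / x.1 := by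
      rw [e1, inv_div]
      field_simp
      ring
    have e3 : 1 - (x.1 - 1) / x.1 = x.1⁻¹ := by field_simp; ring
    rw [e2, e3, inv_inv]
  have : Fact (Nat.Prime 3) := ⟨by norm_num⟩
  have hc := Equiv.Perm.card_fixedPoints_modEq hf3
  have hfix : Fintype.card (Function.fixedPoints f) = 0 := by
    rw [Fintype.card_eq_zero_iff]
    constructor
    rintro ⟨x, hx⟩
    obtain ⟨h0, h1⟩ := hA x
    have hx' : (1 - x.1)⁻¹ = x.1 := congrArg Subtype.val hx
    have h2 : x.1 * (1 - x.1) = 1 := by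
      nth_rewrite 1 [← hx']
      exact inv_mul_cancel₀ h1
    have h3 := x.2
    rw [h2, map_one] at h3
    exact ht1 h3.symm
  rw [hfix] at hc
  have hcard : N χ t = Fintype.card A := by
    unfold N
    rw [Fintype.card_subtype]
  rw [hcard]
  exact (Nat.modEq_zero_iff_dvd).1 hc


theorem tri_card (w : ℂ) (hw3 : w ^ 3 = 1) (hw1 : w ≠ 1) (χ : MulChar (ZMod p) ℂ)
    (hχ : ∀ x : ZMod p, x ≠ 0 → χ x = 1 ∨ χ x = w ∨ χ x = w ^ 2) :
    N χ 1 + N χ w + N χ (w ^ 2) + 2 = p := by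
  have hχ0 : χ 0 = 0 := MulChar.map_zero χ
  have hw0 : w ≠ 0 := by rintro rfl; norm_num at hw3
  have h2 := sum_classes (R := ℤ) χ w hw3 hw1 hχ
    (fun x => if x = 0 then 0 else if x = 1 then 0 else 1) 1 (by simp) (by simp) ?_ ?_ ?_
  · have h3 : ∑ x : ZMod p, (if x = 0 then (0 : ℤ) else if x = 1 then 0 else 1) = p - 2 := by
      have e : ∀ x : ZMod p, (if x = 0 then (0 : ℤ) else if x = 1 then 0 else 1) =
          1 - (if x = 0 then 1 else 0) - (if x = 1 then 1 else 0) := by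
        intro x
        by_cases h0 : x = 0
        · subst h0; simp
        · by_cases h1 : x = 1
          · subst h1; simp
          · simp [h0, h1]
      rw [Finset.sum_congr rfl fun x _ => e x, sum_sub_distrib, sum_sub_distrib]
      simp only [sum_const, card_univ, ZMod.card, nsmul_eq_mul, mul_one, sum_ite_eq', mem_univ,
        if_true]
      ring
    rw [h3] at h2
    have h4 : ((N χ 1 + N χ w + N χ (w ^ 2) + 2 : ℕ) : ℤ) = (p : ℤ) := by
      push_cast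
      linear_combination -h2
    exact_mod_cast h4
  all_goals
    intro x hx
    have hx0 : x ≠ 0 := by
      rintro rfl
      rw [zero_mul, hχ0] at hx
      first
        | exact zero_ne_one hx
        | exact hw0 hx.symm
        | exact (pow_ne_zero 2 hw0) hx.symm
    have hx1 : x ≠ 1 := by
      rintro rfl
      rw [sub_self, mul_zero, hχ0] at hx
      first
        | exact zero_ne_one hx
        | exact hw0 hx.symm
        | exact (pow_ne_zero 2 hw0) hx.symm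
    simp [hx0, hx1]

theorem jac_sum (χ : MulChar (ZMod p) ℂ) (w : ℂ) (hw3 : w ^ 3 = 1) (hw1 : w ≠ 1)
    (hχ : ∀ x : ZMod p, x ≠ 0 → χ x = 1 ∨ χ x = w ∨ χ x = w ^ 2) (hne : χ ≠ 1)
    (hne2 : χ * χ ≠ 1) :
    ((N χ 1 : ℤ)) ^ 2 + (N χ w : ℤ) ^ 2 + (N χ (w ^ 2) : ℤ) ^ 2 - N χ 1 * N χ w -
      N χ 1 * N χ (w ^ 2) - N χ w * N χ (w ^ 2) = p := by
  have hχ0 : χ 0 = 0 := MulChar.map_zero χ
  have hw0 : w ≠ 0 := by rintro rfl; norm_num at hw3
  have hq : w ^ 2 + w + 1 = 0 := by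
    have : (w - 1) * (w ^ 2 + w + 1) = 0 := by linear_combination hw3
    exact (mul_eq_zero.1 this).resolve_left (sub_ne_zero.2 hw1)
  have hJ1 : jacobiSum χ χ = N χ 1 + N χ w * w + N χ (w ^ 2) * w ^ 2 := by
    have := sum_classes (R := ℂ) χ w hw3 hw1 hχ (fun x => χ x * χ (1 - x)) w ?_ ?_ ?_ ?_ ?_
    · unfold jacobiSum; exact this
    · simp [hχ0]
    · simp [hχ0]
    all_goals
      intro x hx
      rw [← map_mul]
      exact hx
  have hJ2 : jacobiSum χ⁻¹ χ⁻¹ = N χ 1 + N χ w * w ^ 2 + N χ (w ^ 2) * (w ^ 2) ^ 2 := by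
    have := sum_classes (R := ℂ) χ w hw3 hw1 hχ (fun x => χ⁻¹ x * χ⁻¹ (1 - x)) (w ^ 2) ?_ ?_ ?_ ?_ ?_
    · unfold jacobiSum; exact this
    · simp [MulChar.map_zero]
    · simp [MulChar.map_zero]
    · intro x hx
      rw [← map_mul, MulChar.inv_apply_eq_inv', hx, inv_one]
    · intro x hx
      rw [← map_mul, MulChar.inv_apply_eq_inv', hx]
      exact inv_eq_of_mul_eq_one_right (by rw [← hw3]; ring)
    · intro x hx
      rw [← map_mul, MulChar.inv_apply_eq_inv', hx]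
      exact inv_eq_of_mul_eq_one_right (by
        have : w ^ 2 * (w ^ 2) ^ 2 = (w ^ 3) ^ 2 := by ring
        rw [this, hw3, one_pow])
  have hprod := jacobiSum_mul_jacobiSum_inv (F := ZMod p) (F' := ℂ) (by
    rw [ZMod.ringChar_zmod_n, ringChar.eq ℂ 0]
    exact hp.out.ne_zero.symm) hne hne hne2
  rw [hJ1, hJ2, ZMod.card] at hprod
  have : (((N χ 1 : ℤ)) ^ 2 + (N χ w : ℤ) ^ 2 + (N χ (w ^ 2) : ℤ) ^ 2 - N χ 1 * N χ w -
      N χ 1 * N χ (w ^ 2) - N χ w * N χ (w ^ 2) : ℤ) = ((p : ℤ) : ℂ) := by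
    push_cast
    generalize (N χ 1 : ℂ) = a at *
    generalize (N χ (w ^ 2) : ℂ) = c at *
    generalize (N χ w : ℂ) = b at *
    rw [← hprod]
    linear_combination (-(a * b + a * c * (w ^ 2 - w + 1) + b ^ 2 * (w - 1) +
      b * c * (w ^ 3 - w + 1) + c ^ 2 * (w ^ 3 + 1) * (w - 1))) * hq
  exact_mod_cast this


theorem sum_range_zmod {R : Type*} [AddCommMonoid R] (F : ℕ → R) :
    ∑ x ∈ range p, F x = ∑ u : ZMod p, F u.val := by
  have : NeZero p := ⟨hp.out.ne_zero⟩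
  refine Finset.sum_nbij' (fun x => (x : ZMod p)) (fun u => u.val) ?_ ?_ ?_ ?_ ?_
  · intros; exact mem_univ _
  · intro u _; exact mem_range.2 (ZMod.val_lt u)
  · intro x hx; exact ZMod.val_cast_of_lt (mem_range.1 hx)
  · intro u _; exact ZMod.natCast_zmod_val u
  · intro x hx; rw [ZMod.val_cast_of_lt (mem_range.1 hx)]

theorem powp {a b : ℤ} (h : (p : ℤ) ∣ a - b) : (p : ℤ) ^ 2 ∣ a ^ p - b ^ p := by
  have := dvd_sub_pow_of_dvd_sub (R := ℤ) h 1
  simpa using this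

end Jac

open Jac

theorem jac : StmtJac := by
  intro p j hp h
  have hj : 0 < j := by have := hp.out.one_lt; omega
  have hpz : Prime (p : ℤ) := Nat.prime_iff_prime_int.1 hp.out
  obtain ⟨g, hg⟩ := IsCyclic.exists_generator (α := (ZMod p)ˣ)
  have hcard : Fintype.card (ZMod p)ˣ = 6 * j := by rw [ZMod.card_units]; omega
  have hord : orderOf g = 6 * j := by
    rw [orderOf_eq_card_of_forall_mem_zpowers hg, Nat.card_eq_fintype_card, hcard]
  obtain ⟨w, hw⟩ : ∃ w : ℂ, IsPrimitiveRoot w 3 := ⟨_, Complex.isPrimitiveRoot_exp 3 (by norm_num)⟩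
  have hw3 : w ^ 3 = 1 := hw.pow_eq_one
  have hw1 : w ≠ 1 := hw.ne_one (by norm_num)
  have hw0 : w ≠ 0 := hw.ne_zero (by norm_num)
  have hw2 : w ^ 2 ≠ 1 := by
    intro h; apply hw1
    have : w ^ 3 = w ^ 2 * w := by ring
    rw [h, one_mul, hw3] at this
    exact this.symm
  have hwu : Units.mk0 w hw0 ∈ rootsOfUnity (Fintype.card (ZMod p)ˣ) ℂ := by
    rw [mem_rootsOfUnity]
    apply Units.ext
    rw [Units.val_pow_eq_pow_val, Units.val_one, hcard]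
    have : 6 * j = 3 * (2 * j) := by ring
    rw [this, pow_mul]
    change (w ^ 3) ^ (2 * j) = 1
    rw [hw3, one_pow]
  obtain ⟨χ, hχg⟩ : ∃ χ : MulChar (ZMod p) ℂ, χ (g : ZMod p) = w :=
    ⟨MulChar.ofRootOfUnity hwu hg, MulChar.ofRootOfUnity_spec hwu hg⟩
  have hlog : ∀ x : ZMod p, x ≠ 0 → ∃ n : ℕ, x = (g : ZMod p) ^ n := by
    intro x hx
    have h1 := hg (Units.mk0 x hx)
    rw [← mem_powers_iff_mem_zpowers] at h1
    obtain ⟨n, hn⟩ := h1
    refine ⟨n, ?_⟩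
    have h2 := congrArg Units.val hn
    simpa using h2.symm
  have hwn : ∀ n : ℕ, w ^ n = w ^ (n % 3) := by
    intro n
    conv_lhs => rw [← Nat.div_add_mod n 3]
    rw [pow_add, pow_mul, hw3, one_pow, one_mul]
  have hχ : ∀ x : ZMod p, x ≠ 0 → χ x = 1 ∨ χ x = w ∨ χ x = w ^ 2 := by
    intro x hx
    obtain ⟨n, rfl⟩ := hlog x hx
    rw [map_pow, hχg, hwn]
    have h3 : n % 3 < 3 := Nat.mod_lt _ (by norm_num)
    interval_cases (n % 3) <;> simp
  have hχ3 : ∀ x : ZMod p, x ≠ 0 → χ x ^ 3 = 1 := by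
    intro x hx
    obtain ⟨n, rfl⟩ := hlog x hx
    rw [map_pow, hχg, ← pow_mul, mul_comm, pow_mul, hw3, one_pow]
  have hχ0 : χ 0 = 0 := MulChar.map_zero χ
  have hχ1 : χ ≠ 1 := by
    intro h1
    rw [h1, MulChar.one_apply_coe] at hχg
    exact hw1 hχg.symm
  have hχ2 : χ * χ ≠ 1 := by
    intro h1
    have h2 : (χ * χ) (g : ZMod p) = w ^ 2 := by rw [MulChar.mul_apply, hχg, pow_two]
    rw [h1, MulChar.one_apply_coe] at h2
    exact hw2 h2.symm
  -- the integer `R`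
  obtain ⟨G, hG⟩ : ∃ G : ℕ, (G : ZMod p) = (g : ZMod p) := by
    have : NeZero p := ⟨hp.out.ne_zero⟩
    exact ⟨(g : ZMod p).val, ZMod.natCast_zmod_val _⟩
  obtain ⟨R, hR⟩ : ∃ R : ℤ, R = (G : ℤ) ^ (4 * j * p) := ⟨_, rfl⟩
  have hG6 : (p : ℤ) ∣ (G : ℤ) ^ (6 * j) - 1 := by
    rw [← ZMod.intCast_zmod_eq_zero_iff_dvd]
    push_cast
    rw [hG, ← Units.val_pow_eq_pow_val, ← hord, pow_orderOf_eq_one, Units.val_one, sub_self]
  have hR3 : (p : ℤ) ^ 2 ∣ R ^ 3 - 1 := by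
    have h1 := powp (p := p) hG6
    rw [one_pow] at h1
    have h2 : R ^ 3 - 1 = (((G : ℤ) ^ (6 * j)) ^ p - 1) * (((G : ℤ) ^ (6 * j)) ^ p + 1) := by
      have : R ^ 3 = (((G : ℤ) ^ (6 * j)) ^ p) ^ 2 := by
        rw [hR, ← pow_mul, ← pow_mul, ← pow_mul]
        congr 1
        ring
      rw [this]; ring
    rw [h2]
    exact Dvd.dvd.mul_right h1 _
  have hR1 : ¬ (p : ℤ) ∣ R - 1 := by
    intro h1
    rw [← ZMod.intCast_zmod_eq_zero_iff_dvd, hR] at h1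
    push_cast at h1
    rw [hG, ← Units.val_pow_eq_pow_val, sub_eq_zero, Units.val_eq_one] at h1
    have h2 := orderOf_dvd_of_pow_eq_one h1
    rw [hord] at h2
    obtain ⟨c, hc⟩ := h2
    have h3 : (2 * j) * (2 * p) = (2 * j) * (3 * c) := by
      have e1 : (2 * j) * (2 * p) = 4 * j * p := by ring
      have e2 : (2 * j) * (3 * c) = 6 * j * c := by ring
      rw [e1, e2, hc]
    have h4 := Nat.eq_of_mul_eq_mul_left (by omega) h3
    omega
  have hRq : (p : ℤ) ^ 2 ∣ R ^ 2 + R + 1 := by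
    have h1 : (p : ℤ) ^ 2 ∣ (R - 1) * (R ^ 2 + R + 1) := by
      have : (R - 1) * (R ^ 2 + R + 1) = R ^ 3 - 1 := by ring
      rw [this]; exact hR3
    have h2 : IsCoprime ((p : ℤ) ^ 2) (R - 1) := (hpz.coprime_iff_not_dvd.2 hR1).pow_left
    exact h2.dvd_of_dvd_mul_left h1
  -- terms
  have ht3 : ((R : ZMod (p ^ 2))) ^ 3 = 1 := by
    have h1 : ((R ^ 3 - 1 : ℤ) : ZMod (p ^ 2)) = 0 := by
      rw [ZMod.intCast_zmod_eq_zero_iff_dvd]
      push_cast
      exact hR3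
    push_cast at h1
    exact sub_eq_zero.1 h1
  have hterm : ∀ (x : ZMod p) (n : ℕ), x * (1 - x) = (g : ZMod p) ^ n →
      ((((x.val : ℤ) * (1 - (x.val : ℤ))) ^ (4 * j * p) : ℤ) : ZMod (p ^ 2)) =
        (R : ZMod (p ^ 2)) ^ (n % 3) := by
    intro x n hx
    have : NeZero p := ⟨hp.out.ne_zero⟩
    have h1 : (p : ℤ) ∣ (x.val : ℤ) * (1 - (x.val : ℤ)) - (G : ℤ) ^ n := by
      rw [← ZMod.intCast_zmod_eq_zero_iff_dvd]
      push_cast
      rw [hG, ZMod.natCast_zmod_val, hx, sub_self]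
    have h2 : ((((x.val : ℤ) * (1 - (x.val : ℤ))) ^ p - ((G : ℤ) ^ n) ^ p : ℤ) :
        ZMod (p ^ 2)) = 0 := by
      rw [ZMod.intCast_zmod_eq_zero_iff_dvd]
      exact_mod_cast powp (p := p) h1
    rw [Int.cast_sub, sub_eq_zero] at h2
    have h3 : (R : ZMod (p ^ 2)) ^ (n % 3) = (R : ZMod (p ^ 2)) ^ n := by
      conv_rhs => rw [← Nat.div_add_mod n 3]
      rw [pow_add, pow_mul, ht3, one_pow, one_mul]
    rw [h3, hR]
    have e1 : 4 * j * p = p * (4 * j) := by ring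
    rw [e1, pow_mul, Int.cast_pow _ (4 * j), h2]
    push_cast
    rw [← pow_mul, ← pow_mul, ← pow_mul]
    congr 1
    ring
  have hcls : ∀ (x : ZMod p) (i : ℕ), i < 3 → χ (x * (1 - x)) = w ^ i →
      ((((x.val : ℤ) * (1 - (x.val : ℤ))) ^ (4 * j * p) : ℤ) : ZMod (p ^ 2)) =
        (R : ZMod (p ^ 2)) ^ i := by
    intro x i hi hx
    have hne : x * (1 - x) ≠ 0 := by
      intro h0
      rw [h0, hχ0] at hx
      exact pow_ne_zero i hw0 hx.symm
    obtain ⟨n, hn⟩ := hlog _ hne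
    rw [hterm x n hn]
    congr 1
    rw [hn, map_pow, hχg, hwn] at hx
    exact hw.pow_inj (Nat.mod_lt _ (by norm_num)) hi hx
  have h4jp : 4 * j * p ≠ 0 := by
    have := hp.out.pos
    positivity
  have hsum := sum_classes (R := ZMod (p ^ 2)) χ w hw3 hw1 hχ
    (fun x => ((((x.val : ℤ) * (1 - (x.val : ℤ))) ^ (4 * j * p) : ℤ) : ZMod (p ^ 2)))
    (R : ZMod (p ^ 2)) (by
      rw [ZMod.val_zero]
      simp [h4jp]) (by
      have : Fact (1 < p) := ⟨hp.out.one_lt⟩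
      rw [ZMod.val_one]
      simp [h4jp])
    (fun x hx => by
      have := hcls x 0 (by norm_num) (by rw [hx, pow_zero])
      simpa using this)
    (fun x hx => by
      have := hcls x 1 (by norm_num) (by rw [hx, pow_one])
      simpa using this)
    (fun x hx => by
      have := hcls x 2 (by norm_num) hx
      simpa using this)
  -- the integer Jacobi sum
  obtain ⟨Jz, hJz⟩ : ∃ Jz : ℤ, Jz = ∑ x ∈ range p, ((x : ℤ) * (1 - (x : ℤ))) ^ (4 * j * p) :=
    ⟨_, rfl⟩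
  have hJS : JS p j = (Jz : ℚ) := by
    rw [hJz]; unfold JS; push_cast; rfl
  have h1 : (p : ℤ) ^ 2 ∣ Jz - (N χ 1 + N χ w * R + N χ (w ^ 2) * R ^ 2) := by
    have h2 : ((Jz - (N χ 1 + N χ w * R + N χ (w ^ 2) * R ^ 2) : ℤ) : ZMod (p ^ 2)) = 0 := by
      rw [hJz, sum_range_zmod (p := p) (fun x => ((x : ℤ) * (1 - (x : ℤ))) ^ (4 * j * p))]
      rw [Int.cast_sub, Int.cast_sum, hsum]
      push_cast
      ring
    rw [ZMod.intCast_zmod_eq_zero_iff_dvd] at h2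
    exact_mod_cast h2
  have hnorm := jac_sum χ w hw3 hw1 hχ hχ1 hχ2
  have hcount := tri_card w hw3 hw1 χ hχ
  obtain ⟨a, ha⟩ := three_dvd χ hχ3 w hw0 hw1
  obtain ⟨b, hb⟩ := three_dvd χ hχ3 (w ^ 2) (pow_ne_zero 2 hw0) hw2
  generalize N χ 1 = n0 at *
  generalize N χ (w ^ 2) = n2 at *
  generalize N χ w = n1 at *
  obtain ⟨c, hc⟩ := hRq
  have hR3' := hR3
  obtain ⟨d, hd⟩ := hR3
  refine ⟨2 * n0 - n1 - n2, a - b, ?_, ?_, ?_⟩
  · rw [← hnorm, ha, hb]
    push_cast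
    ring
  · rw [ha, hb] at *
    push_cast
    omega
  · intro hI
    have hnd : ¬ (p : ℤ) ∣ Jz := by
      rintro ⟨e, he⟩
      apply hI
      rw [hJS, he]
      exact ⟨e, int_mem e, by push_cast; ring⟩
    obtain ⟨hL, hE⟩ := endgame (p : ℤ) hpz (2 * n0 - n1 - n2) (n0 + n1 * R + n2 * R ^ 2)
      (n0 + n1 * R ^ 2 + n2 * R) Jz h1
      ⟨(n1 + n2) * c, by linear_combination ((n1 : ℤ) + n2) * hc⟩
      ⟨(n1 ^ 2 + n2 ^ 2) * (R - 1) * c + (n0 * n1 + n0 * n2) * c + n1 * n2 * (R ^ 2 - R + 1) * c, by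
        linear_combination (((n1 : ℤ) ^ 2 + n2 ^ 2) * (R - 1) + (n0 * n1 + n0 * n2) +
          n1 * n2 * (R ^ 2 - R + 1)) * hc + hnorm⟩ hnd
    obtain ⟨e, he⟩ := hE
    generalize (2 * n0 - n1 - n2 : ℤ) = L at *
    have hU : U p (L : ℚ) := U_int hL
    have hL0 : (L : ℚ) ≠ 0 := hU.1
    rw [hJS]
    refine ⟨int_mem _, sub_mem (int_mem _) ?_, ?_⟩
    · rw [div_eq_mul_inv]; exact mul_mem (nat_mem p) hU.2.2
    · refine ⟨(e : ℚ) * (L : ℚ)⁻¹, mul_mem (int_mem e) hU.2.2, ?_⟩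
      have he' : (L : ℚ) * Jz - (L : ℚ) ^ 2 + p = (p : ℚ) ^ 2 * e := by exact_mod_cast he
      field_simp
      linear_combination he'

end Pool.Agent.R488.Cub
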