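import Pool.Agent.R488.Cub.Defs

set_option autoImplicit false

namespace Pool.Agent.R488.Cub

open Finset

lemma ch1 (n k : ℕ) (hk : k ≤ n) :
    ((2 * n).choose (n + k + 1) : ℚ) * (n + k + 1) = ((2 * n).choose (n + k) : ℚ) * (n - k) := by
  have h := Nat.choose_succ_right_eq (2 * n) (n + k)
  have e : 2 * n - (n + k) = n - k := by omega
  rw [e] at h
  have h2 : (((2 * n).choose (n + k + 1) * (n + k + 1) : ℕ) : ℚ) =
      (((2 * n).choose (n + k) * (n - k) : ℕ) : ℚ) := by exact_mod_cast h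
  push_cast [Nat.cast_sub hk] at h2
  exact h2

lemma sumV (n : ℕ) (hn : 0 < n) : ∀ m, m ≤ n →
    ∑ k ∈ range m, (-1 : ℚ) ^ k * ((2 * n).choose (n + k + 1) : ℚ) =
      ((2 * n).choose n : ℚ) / 2 - (-1) ^ m * (n - m) / (2 * n) * ((2 * n).choose (n + m) : ℚ) := by
  have hn' : (n : ℚ) ≠ 0 := by exact_mod_cast hn.ne'
  intro m
  induction m with
  | zero =>
    intro _
    simp
    field_simp
    ring
  | succ m ih =>
    intro hm
    rw [sum_range_succ, ih (by omega)]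
    have h := ch1 n m (by omega)
    have e : n + (m + 1) = n + m + 1 := by ring
    rw [e]
    push_cast
    rw [pow_succ]
    field_simp
    linear_combination ((-1 : ℚ) ^ m) * h

lemma sumU (n : ℕ) (hn : 0 < n) : ∀ m, m ≤ n →
    ∑ k ∈ range m, (-1 : ℚ) ^ k * ((k : ℚ) + 1) * ((2 * n).choose (n + k + 1) : ℚ) =
      (n : ℚ) / (2 * (2 * n - 1)) * ((2 * n).choose n : ℚ) -
        (-1) ^ m * (n - m) * (2 * m + 1) / (2 * (2 * n - 1)) * ((2 * n).choose (n + m) : ℚ) := by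
  have hn' : (2 * (n : ℚ) - 1) ≠ 0 := by
    have : (1 : ℚ) ≤ n := by exact_mod_cast hn
    linarith
  intro m
  induction m with
  | zero =>
    intro _
    simp
  | succ m ih =>
    intro hm
    rw [sum_range_succ, ih (by omega)]
    have h := ch1 n m (by omega)
    have e : n + (m + 1) = n + m + 1 := by ring
    rw [e]
    push_cast
    rw [pow_succ]
    have e1 : (2 * (n : ℚ) - 1)⁻¹ * (2 * n - 1) = 1 := inv_mul_cancel₀ hn'
    simp only [div_eq_mul_inv, mul_inv]
    linear_combination ((-1 : ℚ) ^ m * (2 * (m : ℚ) + 1) * 2⁻¹ * (2 * (n : ℚ) - 1)⁻¹) * h -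
      ((-1 : ℚ) ^ m * ((m : ℚ) + 1) * ((2 * n).choose (n + m + 1) : ℚ)) * e1

lemma ch2 (N k : ℕ) (hk : k ≤ N + 1) :
    ((2 * (N + 1)).choose (N + 1 + k) : ℚ) * ((N + 1 + k) * (N + 1 - k)) =
      (2 * N + 2) * (2 * N + 1) * ((2 * N).choose (N + k) : ℚ) := by
  have h1 := Nat.add_one_mul_choose_eq (2 * N + 1) (N + k)
  have h2 := Nat.choose_mul_succ_eq (2 * N) (N + k)
  have e : 2 * N + 1 - (N + k) = N + 1 - k := by omega
  rw [e] at h2
  have h1' : (2 * (N : ℚ) + 1 + 1) * ((2 * N + 1).choose (N + k) : ℚ) =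
      ((2 * N + 1 + 1).choose (N + k + 1) : ℚ) * (N + k + 1) := by exact_mod_cast h1
  have h2' : ((2 * N).choose (N + k) : ℚ) * (2 * (N : ℚ) + 1) =
      ((2 * N + 1).choose (N + k) : ℚ) * (((N + 1 - k : ℕ)) : ℚ) := by exact_mod_cast h2
  rw [Nat.cast_sub hk] at h2'
  push_cast at h2'
  have e2 : 2 * (N + 1) = 2 * N + 1 + 1 := by ring
  have e3 : N + 1 + k = N + k + 1 := by ring
  rw [e2, e3]
  linear_combination (-((N : ℚ) + 1 - k)) * h1' - (2 * (N : ℚ) + 2) * h2'

lemma H_succ (n : ℕ) : H (n + 1) = H n + 1 / ((n : ℚ) + 1) := by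
  unfold H
  rw [sum_range_succ]

lemma sumT (n : ℕ) : ∑ k ∈ range n, (-1 : ℚ) ^ k * ((2 * n).choose (n + k + 1) : ℚ) / ((k : ℚ) + 1) =
    ((2 * n).choose n : ℚ) * (H (2 * n) - H n) := by
  induction n with
  | zero => simp
  | succ N ih =>
    have hrec : ((N : ℚ) + 1) ^ 2 * ∑ k ∈ range (N + 1),
        (-1 : ℚ) ^ k * ((2 * (N + 1)).choose (N + 1 + k + 1) : ℚ) / ((k : ℚ) + 1) =
        (2 * N + 2) * (2 * N + 1) * ∑ k ∈ range N,
          (-1 : ℚ) ^ k * ((2 * N).choose (N + k + 1) : ℚ) / ((k : ℚ) + 1) +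
        ∑ k ∈ range (N + 1), (-1 : ℚ) ^ k * ((k : ℚ) + 1) *
          ((2 * (N + 1)).choose (N + 1 + k + 1) : ℚ) := by
      have hext : ∑ k ∈ range N, (-1 : ℚ) ^ k * ((2 * N).choose (N + k + 1) : ℚ) / ((k : ℚ) + 1) =
          ∑ k ∈ range (N + 1), (-1 : ℚ) ^ k * ((2 * N).choose (N + k + 1) : ℚ) / ((k : ℚ) + 1) := by
        rw [sum_range_succ, Nat.choose_eq_zero_of_lt (show 2 * N < N + N + 1 by omega)]
        simp
      rw [hext, mul_sum, mul_sum, ← sum_add_distrib]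
      refine sum_congr rfl fun k hk => ?_
      have hk' : k + 1 ≤ N + 1 := by
        have := mem_range.mp hk
        omega
      have h := ch2 N (k + 1) hk'
      have hk0 : (k : ℚ) + 1 ≠ 0 := by positivity
      have e1 : N + 1 + (k + 1) = N + 1 + k + 1 := by ring
      have e2 : N + (k + 1) = N + k + 1 := by ring
      rw [e1, e2] at h
      push_cast at h
      field_simp
      linear_combination h
    have hU := sumU (N + 1) (Nat.succ_pos N) (N + 1) le_rfl
    rw [hU, ih] at hrec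
    have h0 := ch2 N 0 (Nat.zero_le _)
    have e : 2 * (N + 1) = 2 * N + 1 + 1 := by ring
    have hH : H (2 * (N + 1)) = H (2 * N) + 1 / (2 * (N : ℚ) + 1) + 1 / (2 * (N : ℚ) + 2) := by
      rw [e, H_succ, H_succ]
      push_cast
      ring
    rw [hH, H_succ]
    have hN1 : ((N : ℚ) + 1) ≠ 0 := by positivity
    have hN2 : (2 * (N : ℚ) + 1) ≠ 0 := by positivity
    have hN3 : (2 * (N : ℚ) + 2) ≠ 0 := by positivity
    push_cast at hrec h0
    simp only [add_zero, sub_zero] at h0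
    have hN4 : (2 * ((N : ℚ) + 1) - 1) = 2 * N + 1 := by ring
    rw [hN4] at hrec
    have hsq : ((N : ℚ) + 1) ^ 2 ≠ 0 := by positivity
    refine mul_left_cancel₀ hsq ?_
    rw [hrec]
    have hc : (2 * (N : ℚ) + 2) * (2 * N + 1) * ((2 * N).choose N : ℚ) =
      ((2 * (N + 1)).choose (N + 1) : ℚ) * ((N + 1) * (N + 1)) := h0.symm
    have : (2 * (N : ℚ) + 2) * (2 * N + 1) * (((2 * N).choose N : ℚ) * (H (2 * N) - H N)) =
      ((2 * (N + 1)).choose (N + 1) : ℚ) * ((N + 1) * (N + 1)) * (H (2 * N) - H N) := by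
      rw [← hc]; ring
    rw [this]
    field_simp
    ring

theorem alt : StmtAlt := by
  intro j hj
  have hm : 0 < 2 * j := by omega
  have hV := sumV (2 * j) hm (2 * j) le_rfl
  have hT := sumT (2 * j)
  have e4 : 2 * (2 * j) = 4 * j := by ring
  rw [e4] at hV hT
  have hZ : 4 * (j : ℚ) * ZZ j = -(2 * j * ∑ k ∈ range (2 * j), (-1 : ℚ) ^ k *
      ((4 * j).choose (2 * j + k + 1) : ℚ) / ((k : ℚ) + 1) +
      ∑ k ∈ range (2 * j), (-1 : ℚ) ^ k * ((4 * j).choose (2 * j + k + 1) : ℚ)) := by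
    unfold ZZ
    rw [← sum_range_reflect, mul_sum, mul_sum, ← sum_add_distrib, ← sum_neg_distrib]
    refine sum_congr rfl fun k hk => ?_
    have hk' : k < 2 * j := mem_range.mp hk
    have hk0 : (k : ℚ) + 1 ≠ 0 := by positivity
    have hch : (4 * j - 1).choose (2 * j - 1 - k) = (4 * j - 1).choose (2 * j + k) := by
      rw [← Nat.choose_symm (show 2 * j + k ≤ 4 * j - 1 by omega)]
      congr 1
      omega
    have hs := Nat.add_one_mul_choose_eq (4 * j - 1) (2 * j + k)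
    have e5 : 4 * j - 1 + 1 = 4 * j := by omega
    rw [e5] at hs
    have hs' : (4 * (j : ℚ)) * ((4 * j - 1).choose (2 * j + k) : ℚ) =
      ((4 * j).choose (2 * j + k + 1) : ℚ) * (2 * j + k + 1) := by exact_mod_cast hs
    have hcast : ((2 * j - 1 - k : ℕ) : ℚ) = 2 * j - 1 - k := by
      rw [Nat.cast_sub (by omega), Nat.cast_sub (by omega)]
      push_cast
      ring
    have hsign : (-1 : ℚ) ^ (2 * j - 1 - k) = -(-1) ^ k := by
      have : (-1 : ℚ) ^ (2 * j - 1 - k) * (-1) ^ (k + 1) = 1 := by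
        rw [← pow_add]
        have : 2 * j - 1 - k + (k + 1) = 2 * j := by omega
        rw [this, pow_mul]
        norm_num
      have h2 : ((-1 : ℚ) ^ k) * ((-1) ^ k) = 1 := by
        rw [← pow_add, ← two_mul, pow_mul]
        norm_num
      rw [pow_succ] at this
      linear_combination (-((-1 : ℚ) ^ k)) * this - (-1 : ℚ) ^ (2 * j - 1 - k) * h2
    rw [hch, hcast, hsign]
    have e6 : (2 * (j : ℚ) - (2 * j - 1 - k)) = k + 1 := by ring
    rw [e6]
    field_simp
    linear_combination (-1 : ℚ) * hs'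
  rw [hT, hV] at hZ
  push_cast at hZ
  have : 8 * (j : ℚ) * ZZ j = 2 * (4 * j * ZZ j) := by ring
  rw [this, hZ]
  ring

end Pool.Agent.R488.Cub
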