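import Pool.Agent.R488.Cub.Defs

set_option autoImplicit false
set_option maxHeartbeats 1000000

/-!
CUB-B1: an exact evaluation, by a WZ certificate.
-/

namespace Pool.Agent.R488.Cub

open Finset

namespace B1

def B (n k : ℕ) : ℚ := ((3 * n - k).choose (2 * n) : ℚ)

def U (n k : ℕ) : ℚ := (-9) ^ k * gb (2 * n + 1 / 3) k * B n k

def h (n k : ℕ) : ℚ := 3 * (3 * n + 2) * ((3 * n + 2) * (15 * n + 7) - (21 * n + 11) * k) /
  ((2 * n + 1) * (6 * n + 4 - 3 * k)) * U n k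

theorem gb_succ (a : ℚ) (k : ℕ) : gb a (k + 1) = gb a k * (a - k) / (k + 1) := by
  unfold gb
  rw [prod_range_succ, Nat.factorial_succ]
  have h1 : (k.factorial : ℚ) ≠ 0 := by positivity
  have h2 : (k : ℚ) + 1 ≠ 0 := by positivity
  push_cast
  field_simp

theorem gb_shift (a : ℚ) (k : ℕ) :
    gb (a + 2) k * ((a + 2 - k) * (a + 1 - k)) = gb a k * ((a + 2) * (a + 1)) := by
  induction k with
  | zero => simp [gb]
  | succ k ih =>
    rw [gb_succ, gb_succ]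
    have h2 : (k : ℚ) + 1 ≠ 0 := by positivity
    push_cast
    field_simp
    linear_combination (a - k) * ih

theorem B_succ (k m : ℕ) : B (k + 1 + m) (k + 1) * (2 * k + 3 + 3 * m) =
    B (k + 1 + m) k * (m + 1) := by
  unfold B
  have h1 : 3 * (k + 1 + m) - (k + 1) = 2 * k + 2 + 3 * m := by omega
  have h2 : 3 * (k + 1 + m) - k = 2 * k + 2 + 3 * m + 1 := by omega
  rw [h1, h2]
  have h3 := Nat.choose_mul_succ_eq (2 * k + 2 + 3 * m) (2 * (k + 1 + m))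
  have h4 : 2 * k + 2 + 3 * m + 1 - 2 * (k + 1 + m) = m + 1 := by omega
  rw [h4] at h3
  have h5 : (((2 * k + 2 + 3 * m).choose (2 * (k + 1 + m)) * (2 * k + 2 + 3 * m + 1) : ℕ) : ℚ) =
    (((2 * k + 2 + 3 * m + 1).choose (2 * (k + 1 + m)) * (m + 1) : ℕ) : ℚ) := by exact_mod_cast h3
  push_cast at h5 ⊢
  linear_combination h5

theorem B_n (k m : ℕ) : B (k + m + 1) k * ((2 * (k + m) + 2) * (2 * (k + m) + 1) * (m + 1)) =
    (3 * m + 2 * k + 1) * (3 * m + 2 * k + 2) * (3 * m + 2 * k + 3) * B (k + m) k := by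
  unfold B
  have h1 : 3 * (k + m + 1) - k = 3 * m + 2 * k + 3 := by omega
  have h2 : 3 * (k + m) - k = 3 * m + 2 * k := by omega
  have h3 : 2 * (k + m + 1) = 2 * (k + m) + 1 + 1 := by ring
  rw [h1, h2, h3]
  have e1 := Nat.add_one_mul_choose_eq (3 * m + 2 * k) (2 * (k + m))
  have e2 := Nat.add_one_mul_choose_eq (3 * m + 2 * k + 1) (2 * (k + m) + 1)
  have e3 := Nat.choose_mul_succ_eq (3 * m + 2 * k + 2) (2 * (k + m) + 1 + 1)
  have h4 : 3 * m + 2 * k + 2 + 1 - (2 * (k + m) + 1 + 1) = m + 1 := by omega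
  rw [h4] at e3
  have f1 : ((3 * m + 2 * k + 1 : ℕ) : ℚ) * ((3 * m + 2 * k).choose (2 * (k + m)) : ℚ) =
    ((3 * m + 2 * k + 1).choose (2 * (k + m) + 1) : ℚ) * ((2 * (k + m) + 1 : ℕ) : ℚ) := by
    exact_mod_cast e1
  have f2 : ((3 * m + 2 * k + 2 : ℕ) : ℚ) * ((3 * m + 2 * k + 1).choose (2 * (k + m) + 1) : ℚ) =
    ((3 * m + 2 * k + 2).choose (2 * (k + m) + 1 + 1) : ℚ) * ((2 * (k + m) + 2 : ℕ) : ℚ) := by
    exact_mod_cast e2
  have f3 : ((3 * m + 2 * k + 2).choose (2 * (k + m) + 1 + 1) : ℚ) * ((3 * m + 2 * k + 3 : ℕ) : ℚ) =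
    ((3 * m + 2 * k + 3).choose (2 * (k + m) + 1 + 1) : ℚ) * ((m + 1 : ℕ) : ℚ) := by
    exact_mod_cast e3
  push_cast at f1 f2 f3
  generalize ((3 * m + 2 * k).choose (2 * (k + m)) : ℚ) = x0 at *
  generalize ((3 * m + 2 * k + 1).choose (2 * (k + m) + 1) : ℚ) = x1 at *
  generalize ((3 * m + 2 * k + 2).choose (2 * (k + m) + 1 + 1) : ℚ) = x2 at *
  generalize ((3 * m + 2 * k + 3).choose (2 * (k + m) + 1 + 1) : ℚ) = x3 at *
  linear_combination (-(2 * ((k : ℚ) + m) + 2) * (2 * (k + m) + 1)) * f3 -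
    (3 * (m : ℚ) + 2 * k + 3) * (2 * (k + m) + 1) * f2 -
    (3 * (m : ℚ) + 2 * k + 2) * (3 * m + 2 * k + 3) * f1

/-- the telescoping step -/
theorem step (k m : ℕ) : h (k + 1 + m) k + (((k + 1 + m : ℕ) : ℚ) + 1) * U (k + 1 + m + 1) (k + 1) +
    9 * (3 * ((k + 1 + m : ℕ) : ℚ) + 2) * U (k + 1 + m) (k + 1) = h (k + 1 + m) (k + 1) := by
  have hB1 := B_succ k m
  have hB2 := B_n (k + 1) m
  have hc1 := gb_succ (2 * ((k + 1 + m : ℕ) : ℚ) + 1 / 3) k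
  have hc2 := gb_shift (2 * ((k + 1 + m : ℕ) : ℚ) + 1 / 3) (k + 1)
  have e1 : (2 * ((k + 1 + m + 1 : ℕ) : ℚ) + 1 / 3) = 2 * ((k + 1 + m : ℕ) : ℚ) + 1 / 3 + 2 := by
    push_cast; ring
  unfold h U
  rw [e1]
  generalize gb (2 * ((k + 1 + m : ℕ) : ℚ) + 1 / 3) k = y at *
  generalize gb (2 * ((k + 1 + m : ℕ) : ℚ) + 1 / 3) (k + 1) = y1 at *
  generalize gb (2 * ((k + 1 + m : ℕ) : ℚ) + 1 / 3 + 2) (k + 1) = y2 at *
  generalize B (k + 1 + m) k = b at *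
  generalize B (k + 1 + m) (k + 1) = b1 at *
  generalize B (k + 1 + m + 1) (k + 1) = b2 at *
  push_cast at hB1 hB2 hc1 hc2 ⊢
  have p1 : (2 * (k : ℚ) + 3 + 3 * m) ≠ 0 := by positivity
  have p2 : (k : ℚ) + 1 ≠ 0 := by positivity
  have p3 : (m : ℚ) + 1 ≠ 0 := by positivity
  have hb1 : b1 = b * (m + 1) / (2 * k + 3 + 3 * m) := by
    rw [eq_div_iff p1]; exact hB1
  have p4 : ((2 * ((k : ℚ) + 1 + m) + 2) * (2 * (k + 1 + m) + 1) * (m + 1)) ≠ 0 := by positivity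
  have hb2 : b2 = (3 * m + 2 * (k + 1) + 1) * (3 * m + 2 * (k + 1) + 2) *
      (3 * m + 2 * (k + 1) + 3) * b1 / ((2 * (k + 1 + m) + 2) * (2 * (k + 1 + m) + 1) * (m + 1)) := by
    rw [eq_div_iff p4]; exact hB2
  have p5 : ((2 * ((k : ℚ) + 1 + m) + 1 / 3 + 2 - (k + 1)) *
      (2 * (k + 1 + m) + 1 / 3 + 1 - (k + 1))) ≠ 0 := by
    have q1 : (2 * ((k : ℚ) + 1 + m) + 1 / 3 + 2 - (k + 1)) = k + 2 * m + 10 / 3 := by ring
    have q2 : (2 * ((k : ℚ) + 1 + m) + 1 / 3 + 1 - (k + 1)) = k + 2 * m + 7 / 3 := by ring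
    rw [q1, q2]; positivity
  have hy2 : y2 = y1 * ((2 * (k + 1 + m) + 1 / 3 + 2) * (2 * (k + 1 + m) + 1 / 3 + 1)) /
      ((2 * (k + 1 + m) + 1 / 3 + 2 - (k + 1)) * (2 * (k + 1 + m) + 1 / 3 + 1 - (k + 1))) := by
    rw [eq_div_iff p5]; exact hc2
  have q1 : (2 * ((k : ℚ) + 1 + m) + 1 / 3 + 2 - (k + 1)) = (3 * k + 6 * m + 10) / 3 := by ring
  have q2 : (2 * ((k : ℚ) + 1 + m) + 1 / 3 + 1 - (k + 1)) = (3 * k + 6 * m + 7) / 3 := by ring
  have q3 : (6 * ((k : ℚ) + 1 + m) + 4 - 3 * k) = 3 * k + 6 * m + 10 := by ring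
  have q4 : (6 * ((k : ℚ) + 1 + m) + 4 - 3 * (k + 1)) = 3 * k + 6 * m + 7 := by ring
  rw [q1, q2] at hy2
  rw [hy2, hc1, hb2, hb1, q3, q4, pow_succ]
  have p6 : (3 * (k : ℚ) + 6 * m + 10) ≠ 0 := by positivity
  have p7 : (3 * (k : ℚ) + 6 * m + 7) ≠ 0 := by positivity
  have p8 : (2 * ((k : ℚ) + 1 + m) + 1) ≠ 0 := by positivity
  have p9 : (2 * ((k : ℚ) + 1 + m) + 2) ≠ 0 := by positivity
  generalize (-9 : ℚ) ^ k = s
  field_simp
  ring

theorem U_zero (n : ℕ) : U n 0 = ((3 * n).choose (2 * n) : ℚ) := by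
  unfold U B gb
  simp

theorem base (n : ℕ) : ((n : ℚ) + 1) * U (n + 1) 0 + 9 * (3 * n + 2) * U n 0 = h n 0 := by
  have hB := B_n 0 n
  unfold h
  have e1 : U (n + 1) 0 = B (0 + n + 1) 0 := by
    rw [U_zero, zero_add]; rfl
  have e2 : U n 0 = B (0 + n) 0 := by
    rw [U_zero, zero_add]; rfl
  rw [e1, e2]
  generalize B (0 + n + 1) 0 = b1 at *
  generalize B (0 + n) 0 = b at *
  push_cast at hB ⊢
  have p4 : ((2 * (0 + (n : ℚ)) + 2) * (2 * (0 + n) + 1) * (n + 1)) ≠ 0 := by positivity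
  have hb1 : b1 = (3 * n + 2 * 0 + 1) * (3 * n + 2 * 0 + 2) * (3 * n + 2 * 0 + 3) * b /
      ((2 * (0 + n) + 2) * (2 * (0 + n) + 1) * (n + 1)) := by
    rw [eq_div_iff p4]; exact hB
  rw [hb1]
  have p5 : (6 * (n : ℚ) + 4 - 3 * 0) ≠ 0 := by
    rw [mul_zero, sub_zero]; positivity
  have p6 : (2 * (n : ℚ) + 1) ≠ 0 := by positivity
  have p7 : (n : ℚ) + 1 ≠ 0 := by positivity
  have p8 : (2 * (n : ℚ) + 2) ≠ 0 := by positivity
  simp only [zero_add, mul_zero, add_zero, sub_zero] at *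
  field_simp
  ring

theorem partial_sum (n K : ℕ) (hK : K ≤ n) :
    ∑ k ∈ range (K + 1), (((n : ℚ) + 1) * U (n + 1) k + 9 * (3 * n + 2) * U n k) = h n K := by
  induction K with
  | zero =>
    rw [sum_range_one]
    exact base n
  | succ K ih =>
    rw [sum_range_succ, ih (by omega)]
    obtain ⟨m, rfl⟩ : ∃ m, n = K + 1 + m := ⟨n - (K + 1), by omega⟩
    rw [← add_assoc]
    exact step K m

theorem last (n : ℕ) : h n n + ((n : ℚ) + 1) * U (n + 1) (n + 1) = 0 := by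
  have hc1 := gb_succ (2 * (n : ℚ) + 1 / 3) n
  have hc2 := gb_shift (2 * (n : ℚ) + 1 / 3) (n + 1)
  have e1 : (2 * ((n + 1 : ℕ) : ℚ) + 1 / 3) = 2 * (n : ℚ) + 1 / 3 + 2 := by
    push_cast; ring
  have e2 : B n n = 1 := by
    unfold B
    rw [show 3 * n - n = 2 * n by omega, Nat.choose_self]; norm_num
  have e3 : B (n + 1) (n + 1) = 1 := by
    unfold B
    rw [show 3 * (n + 1) - (n + 1) = 2 * (n + 1) by omega, Nat.choose_self]; norm_num
  unfold h U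
  rw [e1, e2, e3, pow_succ]
  generalize gb (2 * (n : ℚ) + 1 / 3) n = y at *
  generalize gb (2 * (n : ℚ) + 1 / 3) (n + 1) = y1 at *
  generalize gb (2 * (n : ℚ) + 1 / 3 + 2) (n + 1) = y2 at *
  push_cast at hc1 hc2
  have q1 : (2 * (n : ℚ) + 1 / 3 + 2 - (n + 1)) = (3 * n + 4) / 3 := by ring
  have q2 : (2 * (n : ℚ) + 1 / 3 + 1 - (n + 1)) = (3 * n + 1) / 3 := by ring
  have q3 : (6 * (n : ℚ) + 4 - 3 * n) = 3 * n + 4 := by ring
  have q4 : (2 * (n : ℚ) + 1 / 3 - n) = (3 * n + 1) / 3 := by ring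
  rw [q1, q2] at hc2
  rw [q4] at hc1
  have p1 : (3 * (n : ℚ) + 4) ≠ 0 := by positivity
  have p2 : (3 * (n : ℚ) + 1) ≠ 0 := by positivity
  have p3 : (n : ℚ) + 1 ≠ 0 := by positivity
  have p4 : (2 * (n : ℚ) + 1) ≠ 0 := by positivity
  have hy2 : y2 = y1 * ((2 * n + 1 / 3 + 2) * (2 * n + 1 / 3 + 1)) /
      ((3 * n + 4) / 3 * ((3 * n + 1) / 3)) := by
    rw [eq_div_iff (by positivity)]; exact hc2
  rw [hy2, hc1, q3]
  generalize (-9 : ℚ) ^ n = s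
  field_simp
  ring

def S (n : ℕ) : ℚ := ∑ k ∈ range (n + 1), U n k

theorem S_rec (n : ℕ) : ((n : ℚ) + 1) * S (n + 1) + 9 * (3 * n + 2) * S n = 0 := by
  have h1 := partial_sum n n le_rfl
  have h2 := last n
  unfold S
  rw [sum_range_succ (fun k => U (n + 1) k) (n + 1)]
  rw [sum_add_distrib, ← mul_sum, ← mul_sum] at h1
  linear_combination h1 + h2

end B1

open B1 in
theorem b1 : StmtB1 := by
  intro n
  change S n = _
  induction n with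
  | zero => simp [S, U, B, gb]
  | succ n ih =>
    have h1 := S_rec n
    rw [ih] at h1
    have h2 := gb_succ (-2 / 3) n
    have p3 : (n : ℚ) + 1 ≠ 0 := by positivity
    rw [h2, pow_succ]
    have h3 : S (n + 1) = -(9 * (3 * n + 2) * (27 ^ n * gb (-2 / 3) n)) / (n + 1) := by
      rw [eq_div_iff p3]; linear_combination h1
    rw [h3]
    field_simp
    ring

end Pool.Agent.R488.Cub
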