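import Pool.Agent.R488.Cub.Defs

set_option autoImplicit false

/-!
CUB-B2: an exact evaluation of a terminating `2F1(9)`, with a telescoping certificate.
-/

namespace Pool.Agent.R488.Cub

open Finset

/-- the hypergeometric factor -/
def rr (j k : ℕ) : ℚ := (-9) ^ k * ∏ i ∈ range k, ((1 / 6 - j + i) / (1 / 2 - 3 * j + i) : ℚ)

lemma rr_zero (j : ℕ) : rr j 0 = 1 := by simp [rr]

lemma odd_ne (a b : ℕ) : (2 * (a : ℚ) + 1 - 6 * b) ≠ 0 := by
  intro h
  have h2 : (2 * (a : ℤ) + 1 - 6 * b) = 0 := by exact_mod_cast h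
  omega

lemma six_ne (a b : ℕ) : (6 * (a : ℚ) + 1 - 6 * b) ≠ 0 := by
  intro h
  have h2 : (6 * (a : ℤ) + 1 - 6 * b) = 0 := by exact_mod_cast h
  omega

lemma rr_succ (j k : ℕ) : rr j (k + 1) * (2 * k + 1 - 6 * j) = -3 * (6 * k + 1 - 6 * j) * rr j k := by
  have h1 := odd_ne k j
  have h2 : (1 / 2 - 3 * (j : ℚ) + k) = (2 * k + 1 - 6 * j) / 2 := by ring
  have h3 : ((1 / 6 - (j : ℚ) + k) / (1 / 2 - 3 * j + k)) * (2 * k + 1 - 6 * j) =
      (6 * k + 1 - 6 * j) / 3 := by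
    rw [h2]
    generalize hA : (2 * (k : ℚ) + 1 - 6 * j) = A at *
    field_simp
    ring
  unfold rr
  rw [prod_range_succ, pow_succ]
  linear_combination (-9) * (-9) ^ k * (∏ i ∈ range k, ((1 / 6 - j + i) / (1 / 2 - 3 * j + i) : ℚ)) * h3

lemma rr_next (j k : ℕ) : rr (j + 1) k * ((6 * j + 5 - 6 * k) * (6 * j + 3) * (6 * j + 1)) =
    (6 * j + 5 - 2 * k) * (6 * j + 3 - 2 * k) * (6 * j + 1 - 2 * k) * rr j k := by
  induction k with
  | zero => simp [rr_zero]
  | succ k ih =>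
    have h1 := rr_succ (j + 1) k
    have h2 := rr_succ j k
    have n1 := odd_ne k (j + 1)
    have n2 := odd_ne k j
    have n3 := six_ne k (j + 1)
    push_cast at h1 n1 n3 ⊢
    have e1 : rr (j + 1) (k + 1) = -3 * (6 * k + 1 - 6 * (j + 1)) * rr (j + 1) k / (2 * k + 1 - 6 * (j + 1)) := by
      rw [eq_div_iff n1]; exact h1
    have e2 : rr j (k + 1) = -3 * (6 * k + 1 - 6 * j) * rr j k / (2 * k + 1 - 6 * j) := by
      rw [eq_div_iff n2]; exact h2
    rw [e1, e2]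
    rw [div_mul_eq_mul_div, mul_div_assoc', div_eq_div_iff n1 n2]
    have key : (-3 * (6 * (k:ℚ) + 1 - 6 * (j + 1)) * rr (j + 1) k) * ((6 * j + 3) * (6 * j + 1)) * (-1) * 1 =
      3 * (-(1:ℚ)) * ((6 * j + 5 - 2 * k) * (6 * j + 3 - 2 * k) * (6 * j + 1 - 2 * k) * rr j k) := by
      rw [← ih]; ring
    linear_combination (-(6 * (j:ℚ) + 5 - 6 * (k + 1)) * (2 * k + 1 - 6 * j)) * key

lemma choose_rel (j k : ℕ) : ((k : ℚ) + 1) * ((2 * j + 1).choose (k + 1) : ℚ) =
    (2 * j + 1 - k) * ((2 * j + 1).choose k : ℚ) := by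
  have h := Nat.choose_succ_right_eq (2 * j + 1) k
  have h2 : (((2 * j + 1).choose (k + 1) * (k + 1) : ℕ) : ℚ) =
      (((2 * j + 1).choose k * (2 * j + 1 - k) : ℕ) : ℚ) := by rw [h]
  rcases le_or_gt k (2 * j + 1) with h3 | h3
  · rw [Nat.cast_mul, Nat.cast_mul, Nat.cast_sub h3] at h2
    push_cast at h2
    linear_combination h2
  · rw [Nat.choose_eq_zero_of_lt h3, Nat.choose_eq_zero_of_lt (by omega)]
    simp

lemma choose_rel2 (j k : ℕ) : (2 * (j : ℚ) + 1) * ((2 * j).choose (k + 1) : ℚ) =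
    (2 * j - k) * ((2 * j + 1).choose (k + 1) : ℚ) := by
  have h := Nat.add_one_mul_choose_eq (2 * j) (k + 1)
  -- (2j+1) * C(2j,k+1) = C(2j+1,k+2) * (k+2)
  have h2 := choose_rel j (k + 1)
  have h3 : (((2 * j + 1) * (2 * j).choose (k + 1) : ℕ) : ℚ) =
    (((2 * j + 1).choose (k + 1 + 1) * (k + 1 + 1) : ℕ) : ℚ) := by exact_mod_cast h
  push_cast at h2 h3 ⊢
  linear_combination h3 + h2

lemma partial_sum (j K : ℕ) : ∑ k ∈ range (K + 1), ((6 * (j:ℚ) + 1) * (((2 * (j + 1)).choose k : ℚ) * rr (j + 1) k)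
      + 8 * (3 * j + 1) * (((2 * j).choose k : ℚ) * rr j k)) =
    (3 * (2 * j + 1) * (10 * j + 3) - 2 * (14 * j + 5) * K) / (2 * j + 1) *
      ((2 * j + 1).choose K : ℚ) * rr j K := by
  have hj : (2 * (j : ℚ) + 1) ≠ 0 := by positivity
  induction K with
  | zero =>
    simp [rr_zero]
    field_simp
    ring
  | succ K ih =>
    rw [sum_range_succ, ih]
    have c1 := choose_rel j K
    have c2 := choose_rel2 j K
    have c3 : ((2 * (j + 1)).choose (K + 1) : ℚ) = ((2 * j + 1).choose K : ℚ) + ((2 * j + 1).choose (K + 1) : ℚ) := by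
      rw [show 2 * (j + 1) = 2 * j + 1 + 1 by ring, Nat.choose_succ_succ]
      push_cast; ring
    have r1 := rr_succ j K
    have r2 := rr_next j (K + 1)
    have n1 := odd_ne K j
    have n2 := six_ne K j
    have n3 : (6 * (j : ℚ) + 1) ≠ 0 := by positivity
    rw [c3]
    set X : ℚ := ((2 * j + 1).choose (K + 1) : ℚ) with hX
    set Y : ℚ := ((2 * j + 1).choose K : ℚ) with hY
    set Z : ℚ := ((2 * j).choose (K + 1) : ℚ) with hZ
    set ρ : ℚ := rr j K with hρ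
    set σ : ℚ := rr j (K + 1) with hσ
    set τ : ℚ := rr (j + 1) (K + 1) with hτ
    push_cast at r1 r2 ⊢
    have n4 : ((K : ℚ) + 1) ≠ 0 := by positivity
    have n5 : (2 * (j : ℚ) + 1) ≠ 0 := hj
    have eσ : σ = -3 * (6 * K + 1 - 6 * j) * ρ / (2 * K + 1 - 6 * j) := by
      rw [eq_div_iff n1]; exact r1
    have n6 : ((6 * (j : ℚ) + 5 - 6 * (K + 1)) * (6 * j + 3) * (6 * j + 1)) ≠ 0 := by
      have : (6 * (j : ℚ) + 5 - 6 * (K + 1)) = -(6 * K + 1 - 6 * j) := by ring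
      rw [this]
      have n7 : (6 * (j : ℚ) + 3) ≠ 0 := by positivity
      exact mul_ne_zero (mul_ne_zero (neg_ne_zero.mpr n2) n7) n3
    have eτ : (6 * (j : ℚ) + 1) * τ = -((6 * j + 3 - 2 * K) * (6 * j + 1 - 2 * K)) / (2 * j + 1) * ρ := by
      have n7 : (6 * (j : ℚ) + 3) ≠ 0 := by positivity
      have h1 : τ = (6 * j + 5 - 2 * (K + 1)) * (6 * j + 3 - 2 * (K + 1)) * (6 * j + 1 - 2 * (K + 1)) * σ /
          ((6 * (j : ℚ) + 5 - 6 * (K + 1)) * (6 * j + 3) * (6 * j + 1)) := by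
        rw [eq_div_iff n6]; exact r2
      rw [h1, eσ]
      have e1 : (6 * (j : ℚ) + 5 - 6 * (K + 1)) = -(6 * K + 1 - 6 * j) := by ring
      have e2 : (6 * (j : ℚ) + 1 - 2 * (K + 1)) = -(2 * K + 1 - 6 * j) := by ring
      rw [e1, e2]
      generalize hA : (6 * (K : ℚ) + 1 - 6 * j) = A at *
      generalize hB : (2 * (K : ℚ) + 1 - 6 * j) = B at *
      field_simp
      ring
    have eX : X = (2 * j + 1 - K) * Y / (K + 1) := by
      rw [eq_div_iff n4]; linear_combination c1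
    have eZ : Z = (2 * j - K) * X / (2 * j + 1) := by
      rw [eq_div_iff n5]; linear_combination c2
    have e3 : (6 * (j:ℚ) + 1) * ((Y + X) * τ) = (Y + X) * ((6 * (j : ℚ) + 1) * τ) := by ring
    rw [e3, eτ, eZ, eX, eσ]
    clear_value X Y Z ρ σ τ
    clear ih r1 r2 eσ eτ eX eZ e3 c1 c2 c3 n6 hσ hτ
    generalize hB : (2 * (K : ℚ) + 1 - 6 * j) = B at *
    field_simp
    rw [← hB]
    ring

theorem b2 : StmtB2 := by
  intro j
  show ∑ k ∈ range (2 * j + 1), ((2 * j).choose k : ℚ) * rr j k = _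
  induction j with
  | zero => simp [rr_zero]
  | succ j ih =>
    have h := partial_sum j (2 * j + 2)
    rw [sum_add_distrib, ← mul_sum, ← mul_sum] at h
    rw [show 2 * j + 2 + 1 = 2 * (j + 1) + 1 by ring] at h
    have h0 : ((2 * j + 1).choose (2 * j + 2) : ℚ) = 0 := by
      rw [Nat.choose_eq_zero_of_lt (by omega)]; simp
    rw [h0, mul_zero, zero_mul] at h
    have h1 : ∑ k ∈ range (2 * (j + 1) + 1), ((2 * j).choose k : ℚ) * rr j k =
        ∑ k ∈ range (2 * j + 1), ((2 * j).choose k : ℚ) * rr j k := by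
      symm
      apply sum_subset
      · intro x hx
        rw [mem_range] at hx ⊢
        omega
      · intro x hx hx2
        rw [mem_range] at hx hx2
        rw [Nat.choose_eq_zero_of_lt (by omega)]
        simp
    rw [h1, ih] at h
    have n3 : (6 * (j : ℚ) + 1) ≠ 0 := by positivity
    have n4 : (1 / 6 + (j : ℚ)) ≠ 0 := by positivity
    rw [prod_range_succ, pow_succ]
    have h5 : (∑ k ∈ range (2 * (j + 1) + 1), ((2 * (j + 1)).choose k : ℚ) * rr (j + 1) k) =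
        -(8 * (3 * (j : ℚ) + 1) * ((-4) ^ j * ∏ i ∈ range j, ((1 / 3 + i) / (1 / 6 + i) : ℚ))) / (6 * j + 1) := by
      rw [eq_div_iff n3]
      linear_combination h
    rw [h5]
    field_simp
    ring

end Pool.Agent.R488.Cub
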