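import Mathlib
import Pool.Agent.R488.Cub.Lin

set_option autoImplicit false

/-!
The sum `∑ C(-1/3,k)^2 9^k` modulo `p^2` in terms of `C(4j,2j)`, `p = 6j+1`.
-/

namespace Pool.Agent.R488.Cub

open Finset Pool.Agent.R439.PL Pool.Agent.R439.PL.S4 Pool.Agent.R488.Tri

variable {p j : ℕ} [hp : Fact p.Prime]

def tm (u : ℚ) (k : ℕ) : ℚ := 9 ^ k * ∏ i ∈ range k,
  ((1 / 3 + i - u) * (1 / 3 + i - 2 * u) * ((1 + i - 3 * u) * (1 + i))⁻¹)

def FF (p : ℕ) (u : ℚ) : ℚ := ∑ k ∈ range p, tm u k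

theorem j_pos (hpj : p = 6 * j + 1) : 0 < j := by
  rcases Nat.eq_zero_or_pos j with h | h
  · subst h; exact absurd hp.out (by rw [hpj]; norm_num)
  · exact h

theorem Uint (hpj : p = 6 * j + 1) {k : ℕ} (h0 : 0 < k) (h : k ≤ 6) : U p (k : ℚ) :=
  U_nat h0 (by have := j_pos hpj; omega)

theorem U3 (hpj : p = 6 * j + 1) : U p (3 : ℚ) := by exact_mod_cast Uint hpj (k := 3) (by norm_num) (by norm_num)
theorem U2 (hpj : p = 6 * j + 1) : U p (2 : ℚ) := by exact_mod_cast Uint hpj (k := 2) (by norm_num) (by norm_num)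
theorem U6 (hpj : p = 6 * j + 1) : U p (6 : ℚ) := by exact_mod_cast Uint hpj (k := 6) (by norm_num) (by norm_num)
theorem U4 (hpj : p = 6 * j + 1) : U p (4 : ℚ) := by exact_mod_cast Uint hpj (k := 4) (by norm_num) (by norm_num)

theorem lin_FF (hpj : p = 6 * j + 1) : Lin p (FF p) := by
  have u3 := U3 hpj
  have m13 : (1 / 3 : ℚ) ∈ Zp p := by rw [one_div]; exact u3.2.2
  refine Lin.sum fun k hk => ?_
  have hk' := mem_range.1 hk
  have h9 : (9 : ℚ) ^ k ∈ Zp p := pow_mem (by exact_mod_cast nat_mem (p := p) 9) _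
  have h1 : Lin p (fun u => (9 : ℚ) ^ k + 0 * u) := Lin.affine h9 (zero_mem _)
  have h2 : Lin p (fun u => ∏ i ∈ range k,
      (((1 / 3 + i : ℚ) + (-1) * u) * ((1 / 3 + i : ℚ) + (-2) * u) *
        (((1 + i : ℚ) + (-3) * u) * ((1 + i : ℚ) + 0 * u))⁻¹)) := by
    refine Lin.prod fun i hi => ?_
    have hi' := mem_range.1 hi
    have a1 : (1 / 3 + i : ℚ) ∈ Zp p := add_mem m13 (nat_mem i)
    have u1 := U_nat (p := p) (k := 1 + i) (by omega) (by omega)
    push_cast at u1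
    have m1 : (-1 : ℚ) ∈ Zp p := neg_mem (one_mem _)
    have m2 : (-2 : ℚ) ∈ Zp p := by exact_mod_cast int_mem (p := p) (-2)
    have m3 : (-3 : ℚ) ∈ Zp p := by exact_mod_cast int_mem (p := p) (-3)
    refine ((Lin.affine a1 m1).mul (Lin.affine a1 m2)).mul (Lin.inv ((Lin.affine u1.2.1 m3).mul
      (Lin.affine u1.2.1 (zero_mem _))) ?_)
    simpa using u1.mul u1
  have h3 := h1.mul h2
  have e : (fun u => ((9 : ℚ) ^ k + 0 * u) * ∏ i ∈ range k,
      (((1 / 3 + i : ℚ) + (-1) * u) * ((1 / 3 + i : ℚ) + (-2) * u) *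
        (((1 + i : ℚ) + (-3) * u) * ((1 + i : ℚ) + 0 * u))⁻¹)) = fun u => tm u k := by
    funext u
    rw [tm, zero_mul, add_zero]
    congr 1
    refine prod_congr rfl fun i _ => ?_
    rw [add_zero]
    congr 1
    · ring
    · congr 2; ring
  rwa [e] at h3

theorem FF_zero (p : ℕ) : FF p 0 = ∑ k ∈ range p, gb (-1 / 3) k ^ 2 * 9 ^ k := by
  refine sum_congr rfl fun k _ => ?_
  have h1 : (k.factorial : ℚ) = ∏ i ∈ range k, ((i : ℚ) + 1) := by
    rw [← prod_range_add_one_eq_factorial]; push_cast; rfl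
  rw [tm, gb, div_pow, h1, ← prod_pow, ← prod_pow, ← prod_div_distrib, mul_comm]
  congr 1
  refine prod_congr rfl fun i _ => ?_
  have : (i : ℚ) + 1 ≠ 0 := by positivity
  rw [mul_zero, mul_zero, sub_zero, sub_zero, eq_div_iff (pow_ne_zero 2 this),
    ← div_eq_mul_inv, div_mul_eq_mul_div, div_eq_iff (by
      have : (1 : ℚ) + i ≠ 0 := by positivity
      exact mul_ne_zero this this)]
  ring

/-- `∏_{i<k} (i-a)/(1+i) = (-1)^k C(a,k)` -/
theorem prod_neg (a k : ℕ) : ∏ i ∈ range k, (((i : ℚ) - a) * (1 + (i : ℚ))⁻¹) = (-1) ^ k * (a.choose k : ℚ) := by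
  induction k with
  | zero => simp
  | succ k ih =>
    rw [prod_range_succ, ih, pow_succ]
    have h1 := Nat.choose_succ_right_eq a k
    have h2 : ((a.choose (k + 1) : ℕ) : ℚ) * (k + 1) = (a.choose k : ℚ) * (a - k) := by
      rcases Nat.lt_or_ge a k with h | h
      · rw [Nat.choose_eq_zero_of_lt h, Nat.choose_eq_zero_of_lt (by omega)]; simp
      · have : (((a.choose (k + 1) * (k + 1) : ℕ)) : ℚ) = ((a.choose k * (a - k) : ℕ) : ℚ) := by rw [h1]
        rw [Nat.cast_mul, Nat.cast_mul, Nat.cast_sub h] at this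
        push_cast at this
        exact this
    have h3 : (1 : ℚ) + k ≠ 0 := by positivity
    field_simp
    linear_combination h2

theorem FF_one (hb : StmtB2) (hpj : p = 6 * j + 1) : FF p (p / 6) =
    (-4) ^ j * ∏ i ∈ range j, ((1 / 3 + i) / (1 / 6 + i) : ℚ) := by
  have hpq : (p : ℚ) = 6 * j + 1 := by exact_mod_cast hpj
  rw [← hb j, FF]
  have h1 : ∀ k, tm (p / 6) k = ((2 * j).choose k : ℚ) * ((-9) ^ k *
      ∏ i ∈ range k, ((1 / 6 - j + i) / (1 / 2 - 3 * j + i) : ℚ)) := by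
    intro k
    have h2 : (-1 : ℚ) ^ k * ((2 * j).choose k : ℚ) * ((-9) ^ k *
      ∏ i ∈ range k, ((1 / 6 - j + i) / (1 / 2 - 3 * j + i) : ℚ)) = (-1) ^ k * tm (p / 6) k := by
      rw [← prod_neg, tm, ← mul_assoc, mul_comm _ ((-9 : ℚ) ^ k), mul_assoc, ← prod_mul_distrib, ← mul_assoc,
        ← mul_pow]
      congr 1
      · norm_num
      · refine prod_congr rfl fun i _ => ?_
        have e1 : (1 / 3 + i - 2 * ((p : ℚ) / 6) : ℚ) = i - ((2 * j : ℕ) : ℚ) := by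
          rw [hpq]; push_cast; ring
        have e2 : (1 / 3 + i - (p : ℚ) / 6 : ℚ) = 1 / 6 - j + i := by rw [hpq]; ring
        have e3 : (1 + i - 3 * ((p : ℚ) / 6) : ℚ) = 1 / 2 - 3 * j + i := by rw [hpq]; ring
        rw [e1, e2, e3, mul_inv, div_eq_mul_inv]
        ring
    have h3 : ((-1 : ℚ)) ^ k ≠ 0 := pow_ne_zero _ (by norm_num)
    apply mul_left_cancel₀ h3
    rw [← h2]; ring
  rw [sum_congr rfl fun k _ => h1 k]
  symm
  refine sum_subset (range_subset_range.2 (by omega)) fun k _ hk => ?_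
  rw [Nat.choose_eq_zero_of_lt (by have := mt mem_range.2 hk; omega)]
  simp

theorem choose_ratio (hj : 0 < j) {k : ℕ} (hk : k ≤ 2 * j) :
    ∏ i ∈ range k, (((i : ℚ) - 2 * j) * ((i : ℚ) - 6 * j)⁻¹) =
      ((6 * j - k).choose (4 * j) : ℚ) / ((6 * j).choose (4 * j) : ℚ) := by
  have h0 : ((6 * j).choose (4 * j) : ℚ) ≠ 0 := by
    exact_mod_cast (Nat.choose_pos (show 4 * j ≤ 6 * j by omega)).ne'
  induction k with
  | zero => rw [Nat.sub_zero, div_self h0]; simp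
  | succ k ih =>
    rw [prod_range_succ, ih (by omega)]
    have h1 := Nat.choose_mul_succ_eq (6 * j - (k + 1)) (4 * j)
    rw [show 6 * j - (k + 1) + 1 = 6 * j - k by omega] at h1
    have h2 : (((6 * j - (k + 1)).choose (4 * j) : ℕ) : ℚ) * (6 * j - k) =
        ((6 * j - k).choose (4 * j) : ℚ) * (2 * j - k) := by
      have h3 : (((6 * j - (k + 1)).choose (4 * j) * (6 * j - k) : ℕ) : ℚ) =
          (((6 * j - k).choose (4 * j) * (6 * j - k - 4 * j) : ℕ) : ℚ) := by rw [h1]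
      rw [show 6 * j - k - 4 * j = 2 * j - k by omega, Nat.cast_mul, Nat.cast_mul,
        Nat.cast_sub (by omega), Nat.cast_sub (by omega)] at h3
      push_cast at h3
      exact h3
    have hkq : (k : ℚ) + 1 ≤ 2 * j := by exact_mod_cast hk
    have hjq : (0 : ℚ) < j := by exact_mod_cast hj
    have h4 : (k : ℚ) - 6 * j ≠ 0 := by
      have : (k : ℚ) - 6 * j < 0 := by linarith
      exact this.ne
    rw [← div_eq_mul_inv, div_mul_div_comm, div_eq_div_iff (mul_ne_zero h0 h4) h0]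
    linear_combination ((6 * j).choose (4 * j) : ℚ) * h2

theorem gb_neg (a : ℚ) (k : ℕ) : ∏ i ∈ range k, ((i - a) * (1 + (i : ℚ))⁻¹) = (-1) ^ k * gb a k := by
  have h1 : (k.factorial : ℚ) = ∏ i ∈ range k, ((i : ℚ) + 1) := by
    rw [← prod_range_add_one_eq_factorial]; push_cast; rfl
  have h2 : (-1 : ℚ) ^ k = ∏ i ∈ range k, (-1 : ℚ) := by rw [prod_const, card_range]
  rw [gb, h1, ← prod_div_distrib, h2, ← prod_mul_distrib]
  refine prod_congr rfl fun i _ => ?_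
  rw [div_eq_mul_inv, add_comm (1 : ℚ)]
  ring

theorem FF_two (hb : StmtB1) (hpj : p = 6 * j + 1) : FF p (2 * (p / 6)) =
    27 ^ (2 * j) * gb (-2 / 3) (2 * j) / ((6 * j).choose (4 * j) : ℚ) := by
  have hj := j_pos hpj
  have hpq : (p : ℚ) = 6 * j + 1 := by exact_mod_cast hpj
  rw [← hb (2 * j), FF, sum_div]
  have h1 : ∀ k ∈ range (2 * j + 1), tm (2 * (p / 6)) k = (-9 : ℚ) ^ k * gb (2 * ((2 * j : ℕ) : ℚ) + 1 / 3) k *
      ((3 * (2 * j) - k).choose (2 * (2 * j)) : ℚ) / ((6 * j).choose (4 * j) : ℚ) := by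
    intro k hk
    have hk' := mem_range.1 hk
    have h2 := choose_ratio hj (show k ≤ 2 * j by omega)
    have h3 := gb_neg (2 * ((2 * j : ℕ) : ℚ) + 1 / 3) k
    have h4 : tm (2 * (p / 6)) k = 9 ^ k * ((∏ i ∈ range k, (((i : ℚ) - 2 * j) * ((i : ℚ) - 6 * j)⁻¹)) *
        ∏ i ∈ range k, ((i - (2 * ((2 * j : ℕ) : ℚ) + 1 / 3)) * (1 + (i : ℚ))⁻¹)) := by
      rw [tm, ← prod_mul_distrib]
      congr 1
      refine prod_congr rfl fun i _ => ?_
      have e1 : (1 / 3 + i - 2 * ((p : ℚ) / 6) : ℚ) = i - 2 * j := by rw [hpq]; ring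
      have e2 : (1 / 3 + i - 2 * (2 * ((p : ℚ) / 6)) : ℚ) = i - (2 * ((2 * j : ℕ) : ℚ) + 1 / 3) := by
        rw [hpq]; push_cast; ring
      have e3 : (1 + i - 3 * (2 * ((p : ℚ) / 6)) : ℚ) = i - 6 * j := by rw [hpq]; ring
      rw [e1, e2, e3, mul_inv]
      ring
    have e5 : (9 : ℚ) ^ k * (-1) ^ k = (-9) ^ k := by rw [← mul_pow]; norm_num
    rw [h4, h2, h3, show 3 * (2 * j) - k = 6 * j - k by omega, show 2 * (2 * j) = 4 * j by ring, ← e5]
    ring
  rw [← sum_congr rfl h1]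
  symm
  refine sum_subset (range_subset_range.2 (by omega)) fun k _ hk => ?_
  have hk' := mt mem_range.2 hk
  rw [tm, prod_eq_zero (i := 2 * j) (mem_range.2 (by omega)), mul_zero]
  have : (1 / 3 + ((2 * j : ℕ) : ℚ) - 2 * ((p : ℚ) / 6) : ℚ) = 0 := by rw [hpq]; push_cast; ring
  rw [this, zero_mul, zero_mul]

end Pool.Agent.R488.Cub
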