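import Mathlib
import Pool.Agent.R488.Cub.Eval

set_option autoImplicit false

/-!
The sum `∑ C(-1/3,k)^2 9^k` is `C(4j,2j)` modulo `p^2`, `p = 6j+1`.
-/

namespace Pool.Agent.R488.Cub

open Finset Pool.Agent.R439.PL Pool.Agent.R439.PL.S4 Pool.Agent.R488.Tri

variable {p j : ℕ} [hp : Fact p.Prime]

/-- `(1+s)(1+t) = 1+s+t` modulo `p^2` -/
theorem mul_small {s t : ℚ} (hs : I p 1 s) (ht : I p 1 t) : EQ p 2 ((1 + s) * (1 + t)) (1 + s + t) := by
  refine ⟨mul_mem (add_mem (one_mem _) hs.mem) (add_mem (one_mem _) ht.mem),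
    add_mem (add_mem (one_mem _) hs.mem) ht.mem, ?_⟩
  have : (1 + s) * (1 + t) - (1 + s + t) = s * t := by ring
  rw [this]
  exact hs.mul ht

theorem U_small {s : ℚ} (hs : I p 1 s) : U p (1 + s) := by
  have h : EQ p 1 1 (1 + s) := ⟨one_mem _, add_mem (one_mem _) hs.mem, by
    have : (1 : ℚ) - (1 + s) = -s := by ring
    rw [this]; exact hs.neg⟩
  exact h.unit (by norm_num) U.one

theorem inv_small {s : ℚ} (hs : I p 1 s) : EQ p 2 (1 + s)⁻¹ (1 - s) := by
  have hu := U_small hs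
  refine ⟨hu.2.2, sub_mem (one_mem _) hs.mem, ?_⟩
  have h0 := hu.1
  have : (1 + s)⁻¹ - (1 - s) = (s * s) * (1 + s)⁻¹ := by
    field_simp
    ring
  rw [this]
  exact (hs.mul hs).mulR hu.2.2

/-- `H(4j) = H(2j)` modulo `p` -/
theorem H42 (hpj : p = 6 * j + 1) : I p 1 (H (4 * j) - H (2 * j)) := by
  have hpq : (p : ℚ) = 6 * j + 1 := by exact_mod_cast hpj
  have h1 : H (4 * j) - H (2 * j) = ∑ i ∈ range (2 * j), ((4 * j : ℕ) - (i : ℚ))⁻¹ := by
    rw [H_sub _ _ (by omega), show 4 * j - 2 * j = 2 * j by omega]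
  have h2 : H (4 * j) - H (2 * j) = ∑ i ∈ range (2 * j), ((2 * j : ℚ) + 1 + i)⁻¹ := by
    rw [h1, ← sum_range_reflect]
    refine sum_congr rfl fun i hi => ?_
    have hi' := mem_range.1 hi
    rw [Nat.sub_sub, Nat.cast_sub (show 1 + i ≤ 2 * j by omega)]
    congr 1
    push_cast; ring
  have h3 : 2 * (H (4 * j) - H (2 * j)) = ∑ i ∈ range (2 * j), (p : ℚ) *
      (((4 * j : ℕ) - (i : ℚ))⁻¹ * ((2 * j : ℚ) + 1 + i)⁻¹) := by
    have : 2 * (H (4 * j) - H (2 * j)) = (H (4 * j) - H (2 * j)) + (H (4 * j) - H (2 * j)) := by ring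
    rw [this]
    conv_lhs => rw [h1]
    rw [h1] at h2
    conv_lhs => arg 2; rw [h2]
    rw [← sum_add_distrib]
    refine sum_congr rfl fun i hi => ?_
    have hi' := mem_range.1 hi
    have a1 : ((4 * j : ℕ) - (i : ℚ)) ≠ 0 := by
      have := Nat.cast_sub (R := ℚ) (show i ≤ 4 * j by omega)
      rw [← this]
      exact_mod_cast (show 4 * j - i ≠ 0 by omega)
    have a2 : (2 * j : ℚ) + 1 + i ≠ 0 := by positivity
    rw [hpq]
    push_cast at a1 ⊢
    field_simp
    ring
  have h4 : I p 1 (2 * (H (4 * j) - H (2 * j))) := by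
    rw [h3]
    refine I.sum fun i hi => ?_
    have hi' := mem_range.1 hi
    have u1 := U_nat (p := p) (k := 4 * j - i) (by omega) (by omega)
    have u2 := U_nat (p := p) (k := 2 * j + 1 + i) (by omega) (by omega)
    rw [Nat.cast_sub (by omega)] at u1
    push_cast at u1 u2
    refine (I_p (p := p)).mulR (mul_mem ?_ u2.2.2)
    push_cast
    exact u1.2.2
  exact (U2 hpj).cancel h4

theorem C_unit {a b : ℕ} (h : b ≤ a) (ha : a < p) : U p (a.choose b : ℚ) := by
  refine U_nat' fun hd => ?_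
  have h1 := Nat.choose_mul_factorial_mul_factorial h
  have h2 : p ∣ a.factorial := by
    rw [← h1]; exact (hd.mul_right _).mul_right _
  exact absurd ((hp.out.dvd_factorial).1 h2) (by omega)

/-- exact relation of the binomial coefficients -/
theorem C_exact (j : ℕ) : ((3 * j).choose j : ℚ) ^ 2 * ((6 * j).choose (3 * j) : ℚ) =
    ((6 * j).choose (2 * j) : ℚ) * ((4 * j).choose (2 * j) : ℚ) * ((2 * j).choose j : ℚ) := by
  have h1 := Nat.choose_mul_factorial_mul_factorial (show j ≤ 3 * j by omega)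
  have h2 := Nat.choose_mul_factorial_mul_factorial (show 3 * j ≤ 6 * j by omega)
  have h3 := Nat.choose_mul_factorial_mul_factorial (show 2 * j ≤ 6 * j by omega)
  have h4 := Nat.choose_mul_factorial_mul_factorial (show 2 * j ≤ 4 * j by omega)
  have h5 := Nat.choose_mul_factorial_mul_factorial (show j ≤ 2 * j by omega)
  rw [show 3 * j - j = 2 * j by omega] at h1
  rw [show 6 * j - 3 * j = 3 * j by omega] at h2
  rw [show 6 * j - 2 * j = 4 * j by omega] at h3
  rw [show 4 * j - 2 * j = 2 * j by omega] at h4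
  rw [show 2 * j - j = j by omega] at h5
  have f1 : (j.factorial : ℚ) ≠ 0 := by exact_mod_cast j.factorial_ne_zero
  have f2 : ((2 * j).factorial : ℚ) ≠ 0 := by exact_mod_cast (2 * j).factorial_ne_zero
  have f3 : ((3 * j).factorial : ℚ) ≠ 0 := by exact_mod_cast (3 * j).factorial_ne_zero
  have f4 : ((4 * j).factorial : ℚ) ≠ 0 := by exact_mod_cast (4 * j).factorial_ne_zero
  have g1 : ((3 * j).choose j : ℚ) = (3 * j).factorial / (j.factorial * (2 * j).factorial) := by
    rw [eq_div_iff (mul_ne_zero f1 f2), ← mul_assoc]; exact_mod_cast h1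
  have g2 : ((6 * j).choose (3 * j) : ℚ) = (6 * j).factorial / ((3 * j).factorial * (3 * j).factorial) := by
    rw [eq_div_iff (mul_ne_zero f3 f3), ← mul_assoc]; exact_mod_cast h2
  have g3 : ((6 * j).choose (2 * j) : ℚ) = (6 * j).factorial / ((2 * j).factorial * (4 * j).factorial) := by
    rw [eq_div_iff (mul_ne_zero f2 f4), ← mul_assoc]; exact_mod_cast h3
  have g4 : ((4 * j).choose (2 * j) : ℚ) = (4 * j).factorial / ((2 * j).factorial * (2 * j).factorial) := by
    rw [eq_div_iff (mul_ne_zero f2 f2), ← mul_assoc]; exact_mod_cast h4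
  have g5 : ((2 * j).choose j : ℚ) = (2 * j).factorial / (j.factorial * j.factorial) := by
    rw [eq_div_iff (mul_ne_zero f1 f1), ← mul_assoc]; exact_mod_cast h5
  rw [g1, g2, g3, g4, g5]
  field_simp

/-- `C(4j,2j) = 16^j ∏_{i<2j} (1/2+i)/(i+1)` -/
theorem C4_half (m : ℕ) : ((2 * m).choose m : ℚ) = 4 ^ m * ∏ i ∈ range m, ((1 / 2 + i) / (1 + i) : ℚ) := by
  induction m with
  | zero => simp
  | succ m ih =>
    have h := Nat.succ_mul_centralBinom_succ m
    rw [Nat.centralBinom_eq_two_mul_choose, Nat.centralBinom_eq_two_mul_choose] at h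
    have h2 : ((m : ℚ) + 1) * ((2 * (m + 1)).choose (m + 1) : ℚ) = 2 * (2 * m + 1) * ((2 * m).choose m : ℚ) := by
      exact_mod_cast h
    have a1 : (m : ℚ) + 1 ≠ 0 := by positivity
    apply mul_left_cancel₀ a1
    rw [h2, ih, prod_range_succ, pow_succ]
    have a2 : (1 : ℚ) + m ≠ 0 := by positivity
    field_simp
    ring

end Pool.Agent.R488.Cub
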