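import Mathlib
import Pool.Agent.R488.Cub.Eval2

set_option autoImplicit false

/-!
The sum `∑ C(-1/3,k)^2 9^k` is `C(4j,2j)` modulo `p^2`, `p = 6j+1`.
-/

namespace Pool.Agent.R488.Cub

open Finset Pool.Agent.R439.PL Pool.Agent.R439.PL.S4 Pool.Agent.R488.Tri

variable {p j : ℕ} [hp : Fact p.Prime]

theorem mone_sq' (n : ℕ) : ((-1 : ℚ)) ^ n * (-1) ^ n = 1 := by rw [← mul_pow]; norm_num

theorem EQ_cancel {k : ℕ} {x y z : ℚ} (hx : U p x) (hy : y ∈ Zp p) (hz : z ∈ Zp p)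
    (h : EQ p k (x * y) (x * z)) : EQ p k y z := by
  refine ⟨hy, hz, hx.cancel ?_⟩
  rw [mul_sub]; exact h.2.2

theorem EQ_lin {c x y : ℚ} (hc : c ∈ Zp p) (h : EQ p 2 x y) : EQ p 2 (1 + c * x) (1 + c * y) :=
  (EQ.refl (one_mem _)).add ((EQ.refl hc).mul h)

theorem C4_eq (hpj : p = 6 * j + 1) : EQ p 2 ((4 * j).choose (2 * j) : ℚ)
    (16 ^ j * ((3 * j).choose j : ℚ) * (1 - p / 2 * (H (3 * j) - H j))) := by
  have hpq : (p : ℚ) = 6 * j + 1 := by exact_mod_cast hpj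
  have hj := j_pos hpj
  have u2 := U2 hpj
  have hd : I p 1 ((p : ℚ) / 2) := by
    rw [div_eq_mul_inv]; exact (I_p (p := p)).mulR u2.2.2
  have h1 := prodH (p := p) (a := 3 * j) (b := 2 * j) (by omega) (by omega) hd
  rw [prod_choose _ _ (by omega), show 3 * j - 2 * j = j by omega] at h1
  have h2 := C4_half (2 * j)
  rw [show 2 * (2 * j) = 4 * j by ring] at h2
  have h3 : ((2 * j).factorial : ℚ) = ∏ i ∈ range (2 * j), (1 + (i : ℚ)) := by
    rw [← prod_range_add_one_eq_factorial]; push_cast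
    exact prod_congr rfl fun i _ => add_comm _ _
  have h4 : ((4 * j).choose (2 * j) : ℚ) = 16 ^ j * ((∏ i ∈ range (2 * j), (((3 * j : ℕ) : ℚ) - i - p / 2)) *
      ((2 * j).factorial : ℚ)⁻¹) := by
    have e0 : (4 : ℚ) ^ 2 = 16 := by norm_num
    rw [h2, prod_div_distrib, ← h3, pow_mul, div_eq_mul_inv, e0]
    congr 1
    · congr 1
      have : ∏ i ∈ range (2 * j), ((1 : ℚ) / 2 + i) = ∏ i ∈ range (2 * j), (-1 * (((3 * j : ℕ) : ℚ) - i - p / 2)) := by
        refine prod_congr rfl fun i _ => ?_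
        rw [hpq]; push_cast; ring
      rw [this, prod_mul_distrib, prod_const, card_range, pow_mul, neg_one_sq, one_pow, one_mul]
  have uf := U_fac (p := p) (k := 2 * j) (by omega)
  have h5 := (EQ.refl (k := 2) (pow_mem (nat_mem (p := p) 16) j)).mul (h1.mul (EQ.refl (k := 2) uf.2.2))
  rw [show ((16 : ℕ) : ℚ) = 16 by norm_num, ← h4] at h5
  have a1 := uf.1
  have e : (16 : ℚ) ^ j * (((3 * j).choose (2 * j) : ℚ) * ((2 * j).factorial : ℚ) *
      (1 - p / 2 * (H (3 * j) - H j)) * ((2 * j).factorial : ℚ)⁻¹) =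
      16 ^ j * ((3 * j).choose j : ℚ) * (1 - p / 2 * (H (3 * j) - H j)) := by
    rw [← Nat.choose_symm_of_eq_add (show 3 * j = j + 2 * j by ring)]
    field_simp
  rwa [e] at h5

theorem gb_eq (hpj : p = 6 * j + 1) : EQ p 2 (gb (-2 / 3) (2 * j)) ((4 * j).choose (2 * j) : ℚ) := by
  have hpq : (p : ℚ) = 6 * j + 1 := by exact_mod_cast hpj
  have hj := j_pos hpj
  have u3 := U3 hpj
  have m2 := (U2 hpj).2.1
  have hd : I p 1 (2 / 3 * (p : ℚ)) := by
    rw [div_eq_mul_inv]; exact (I_p (p := p)).mulL (mul_mem m2 u3.2.2)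
  have h1 := prodH (p := p) (a := 4 * j) (b := 2 * j) (by omega) (by omega) hd
  rw [prod_choose _ _ (by omega), show 4 * j - 2 * j = 2 * j by omega] at h1
  have uf := U_fac (p := p) (k := 2 * j) (by omega)
  have h2 := h1.mul (EQ.refl (k := 2) uf.2.2)
  have e1 : (∏ i ∈ range (2 * j), (((4 * j : ℕ) : ℚ) - i - 2 / 3 * p)) * ((2 * j).factorial : ℚ)⁻¹ =
      gb (-2 / 3) (2 * j) := by
    rw [gb, div_eq_mul_inv]
    congr 1
    refine prod_congr rfl fun i _ => ?_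
    rw [hpq]; push_cast; ring
  rw [e1] at h2
  refine h2.trans ⟨h2.2.1, nat_mem _, ?_⟩
  have a1 := uf.1
  have e2 : ((4 * j).choose (2 * j) : ℚ) * ((2 * j).factorial : ℚ) * (1 - 2 / 3 * p * (H (4 * j) - H (2 * j))) *
      ((2 * j).factorial : ℚ)⁻¹ - ((4 * j).choose (2 * j) : ℚ) =
      -(((4 * j).choose (2 * j) : ℚ)) * ((2 / 3 * p) * (H (4 * j) - H (2 * j))) := by
    field_simp
    ring
  rw [e2]
  exact (hd.mul (H42 hpj)).mulL (neg_mem (nat_mem _))

/-- the value of the sum modulo `p^2` -/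
theorem main_eq (h1 : StmtB1) (h2 : StmtB2) (hE : StmtE) (hpj : p = 6 * j + 1) :
    EQ p 2 (FF p 0) ((4 * j).choose (2 * j) : ℚ) := by
  have hpq : (p : ℚ) = 6 * j + 1 := by exact_mod_cast hpj
  have hj := j_pos hpj
  have u2 := U2 hpj
  have u3 := U3 hpj
  have u6 := U6 hpj
  obtain ⟨E3, E2, E1⟩ := hE p j hpj
  obtain ⟨a, ha⟩ : ∃ a : ℚ, a = 64 ^ j - 1 := ⟨_, rfl⟩
  obtain ⟨b, hb⟩ : ∃ b : ℚ, b = (-27) ^ j - 1 := ⟨_, rfl⟩
  rw [← ha] at E3 E1
  rw [← hb] at E2 E1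
  have Ia : I p 1 a := by
    have h := ((I_p (p := p)).mulR (H_mem (p := p) (m := 3 * j) (by omega)))
    have h' : I p 1 (2 * a) := by
      have e : 2 * a = (p * H (3 * j) - -2 * a) - p * H (3 * j) := by ring
      rw [e]; exact (E3.2.2.mono (by norm_num)).sub h
    exact u2.cancel h'
  have Ib : I p 1 b := by
    have h := ((I_p (p := p)).mulR (H_mem (p := p) (m := 2 * j) (by omega)))
    have h' : I p 1 (3 * b) := by
      have e : 3 * b = (p * H (2 * j) - -3 * b) - p * H (2 * j) := by ring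
      rw [e]; exact (E2.2.2.mono (by norm_num)).sub h
    exact u3.cancel h'
  have m1 := neg_mem' (p := p) j
  obtain ⟨C4, hC4⟩ : ∃ C4 : ℚ, C4 = ((4 * j).choose (2 * j) : ℚ) := ⟨_, rfl⟩
  obtain ⟨C3, hC3⟩ : ∃ C3 : ℚ, C3 = ((3 * j).choose j : ℚ) := ⟨_, rfl⟩
  obtain ⟨C2, hC2⟩ : ∃ C2 : ℚ, C2 = ((2 * j).choose j : ℚ) := ⟨_, rfl⟩
  have uC4 : U p C4 := by rw [hC4]; exact C_unit (by omega) (by omega)
  have mC3 : C3 ∈ Zp p := by rw [hC3]; exact nat_mem _
  have mC2 : C2 ∈ Zp p := by rw [hC2]; exact nat_mem _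
  have m12 : (1 / 2 : ℚ) ∈ Zp p := by rw [one_div]; exact u2.2.2
  have m13 : (1 / 3 : ℚ) ∈ Zp p := by rw [one_div]; exact u3.2.2
  have m16 : (1 / 6 : ℚ) ∈ Zp p := by rw [one_div]; exact u6.2.2
  -- e1
  have e1 : EQ p 2 C4 (16 ^ j * C3 * (1 + -(3 / 2) * b)) := by
    have h := C4_eq (p := p) hpj
    rw [← hC4, ← hC3] at h
    refine h.trans ?_
    refine (EQ.refl (mul_mem (by exact_mod_cast pow_mem (nat_mem (p := p) 16) j) mC3)).mul ?_
    have h' := EQ_lin (neg_mem m12) (E3.sub E1)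
    have x1 : 1 + -(1 / 2) * (p * H (3 * j) - p * H j) = 1 - p / 2 * (H (3 * j) - H j) := by ring
    have x2 : 1 + -(1 / 2) * (-2 * a - (-2 * a - 3 * b)) = 1 + -(3 / 2) * b := by ring
    rwa [x1, x2] at h'
  -- e2
  have e2 : EQ p 2 (C3 ^ 2 * ((-1) ^ j * (1 + 2 * a))) ((1 + 3 * b) * C4 * C2) := by
    have x := C_exact j
    rw [← hC4, ← hC3, ← hC2] at x
    have y3 := choose_pm2 (p := p) (k := 3 * j) (by omega)
    have y2 := choose_pm2 (p := p) (k := 2 * j) (by omega)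
    rw [show p - 1 = 6 * j by omega] at y3 y2
    have z3 : EQ p 2 ((6 * j).choose (3 * j) : ℚ) ((-1) ^ j * (1 + 2 * a)) := by
      refine y3.trans ?_
      have e : (-1 : ℚ) ^ (3 * j) = (-1) ^ j := by rw [pow_mul]; norm_num
      rw [e]
      refine (EQ.refl m1).mul ?_
      have h' := EQ_lin (neg_mem (one_mem _)) E3
      have x1 : 1 + -1 * (p * H (3 * j)) = 1 - p * H (3 * j) := by ring
      have x2 : 1 + -1 * (-2 * a) = 1 + 2 * a := by ring
      rwa [x1, x2] at h'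
    have z2 : EQ p 2 ((6 * j).choose (2 * j) : ℚ) (1 + 3 * b) := by
      refine y2.trans ?_
      have e : (-1 : ℚ) ^ (2 * j) = 1 := by rw [pow_mul]; norm_num
      rw [e, one_mul]
      have h' := EQ_lin (neg_mem (one_mem _)) E2
      have x1 : 1 + -1 * (p * H (2 * j)) = 1 - p * H (2 * j) := by ring
      have x2 : 1 + -1 * (-3 * b) = 1 + 3 * b := by ring
      rwa [x1, x2] at h'
    have l := (EQ.refl (k := 2) (pow_mem mC3 2)).mul z3
    have r := (z2.mul (EQ.refl (k := 2) uC4.2.1)).mul (EQ.refl (k := 2) mC2)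
    rw [x] at l
    exact l.symm.trans r
  have I3b : I p 1 (3 * b) := Ib.mulL u3.2.1
  have I2a : I p 1 (2 * a) := Ia.mulL u2.2.1
  have I32b : I p 1 (-(3 / 2) * b) := by
    have : -(3 / 2) * b = (-(3 * 2⁻¹)) * b := by ring
    rw [this]; exact Ib.mulL (neg_mem (mul_mem u3.2.1 u2.2.2))
  -- e3
  have m256 : (256 : ℚ) ^ j ∈ Zp p := by exact_mod_cast pow_mem (nat_mem (p := p) 256) j
  have e3 : EQ p 2 (C4 * C4) (256 ^ j * C3 ^ 2 * (1 + -(3 * b))) := by
    refine (e1.mul e1).trans ?_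
    have h := (EQ.refl (k := 2) (mul_mem m256 (pow_mem mC3 2))).mul (mul_small I32b I32b)
    have x1 : (256 : ℚ) ^ j * C3 ^ 2 * ((1 + -(3 / 2) * b) * (1 + -(3 / 2) * b)) =
        16 ^ j * C3 * (1 + -(3 / 2) * b) * (16 ^ j * C3 * (1 + -(3 / 2) * b)) := by
      have : (256 : ℚ) ^ j = 16 ^ j * 16 ^ j := by rw [← mul_pow]; norm_num
      rw [this]; ring
    have x2 : 1 + -(3 / 2) * b + -(3 / 2) * b = 1 + -(3 * b) := by ring
    rwa [x1, x2] at h
  -- e5
  have e5 : EQ p 2 (C4 * ((-1) ^ j * (1 + 2 * a))) (256 ^ j * C2) := by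
    have mz : (-1) ^ j * (1 + 2 * a) ∈ Zp p := mul_mem m1 (add_mem (one_mem _) I2a.mem)
    have h := e3.mul (EQ.refl (k := 2) mz)
    have h' := ((EQ.refl (k := 2) m256).mul (EQ.refl (k := 2) (U_small I3b.neg).2.1)).mul e2
    have x1 : 256 ^ j * C3 ^ 2 * (1 + -(3 * b)) * ((-1) ^ j * (1 + 2 * a)) =
        256 ^ j * (1 + -(3 * b)) * (C3 ^ 2 * ((-1) ^ j * (1 + 2 * a))) := by ring
    rw [x1] at h
    have h2 := h.trans h'
    have h3 := ((EQ.refl (k := 2) m256).mul (mul_small I3b.neg I3b)).mul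
      (EQ.refl (k := 2) (mul_mem uC4.2.1 mC2))
    have x2 : (256 : ℚ) ^ j * ((1 + -(3 * b)) * (1 + 3 * b)) * (C4 * C2) =
        256 ^ j * (1 + -(3 * b)) * ((1 + 3 * b) * C4 * C2) := by ring
    rw [x2] at h3
    have h4 := h2.trans h3
    have x3 : C4 * C4 * ((-1) ^ j * (1 + 2 * a)) = C4 * (C4 * ((-1) ^ j * (1 + 2 * a))) := by ring
    have x4 : 256 ^ j * (1 + -(3 * b) + 3 * b) * (C4 * C2) = C4 * (256 ^ j * C2) := by ring
    rw [x3, x4] at h4
    exact EQ_cancel uC4 (mul_mem uC4.2.1 mz) (mul_mem m256 mC2) h4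
  -- e6
  have m4j : (-4 : ℚ) ^ j ∈ Zp p := pow_mem (by exact_mod_cast int_mem (p := p) (-4)) _
  have e6 : EQ p 2 (C4 * (1 + a)) ((-4) ^ j * C2) := by
    have mz : (-1) ^ j * (1 + -a) ∈ Zp p := mul_mem m1 (add_mem (one_mem _) Ia.neg.mem)
    have h := e5.mul (EQ.refl (k := 2) mz)
    have l := (EQ.refl (k := 2) uC4.2.1).mul (mul_small I2a Ia.neg)
    have r := (EQ.refl (k := 2) (mul_mem m4j mC2)).mul (mul_small Ia Ia.neg)
    have s1 := mone_sq' j
    have x1 : C4 * ((-1) ^ j * (1 + 2 * a)) * ((-1) ^ j * (1 + -a)) = C4 * ((1 + 2 * a) * (1 + -a)) := by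
      linear_combination (C4 * ((1 + 2 * a) * (1 + -a))) * s1
    have x2 : 256 ^ j * C2 * ((-1) ^ j * (1 + -a)) = (-4) ^ j * C2 * ((1 + a) * (1 + -a)) := by
      have y1 : (256 : ℚ) ^ j = 4 ^ j * 64 ^ j := by rw [← mul_pow]; norm_num
      have y2 : (-4 : ℚ) ^ j = (-1) ^ j * 4 ^ j := by rw [← mul_pow]; norm_num
      have y3 : (64 : ℚ) ^ j = 1 + a := by rw [ha]; ring
      rw [y1, y2, y3]; ring
    rw [x1, x2] at h
    have h2 := (l.symm.trans h).trans r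
    have x3 : 1 + 2 * a + -a = 1 + a := by ring
    have x4 : (-4) ^ j * C2 * (1 + a + -a) = (-4) ^ j * C2 := by ring
    rwa [x3, x4] at h2
  -- G
  have I23a : I p 1 (-(2 / 3) * a) := by
    have : -(2 / 3) * a = (-(2 * 3⁻¹)) * a := by ring
    rw [this]; exact Ia.mulL (neg_mem (mul_mem u2.2.1 u3.2.2))
  have Iab : I p 1 (1 / 3 * a + 1 / 2 * b) := (Ia.mulL m13).add (Ib.mulL m12)
  have eG : EQ p 2 (FF p (p / 6)) ((-4) ^ j * C2 * (1 + (-a + -(1 / 2) * b))) := by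
    rw [FF_one h2 hpj]
    have hd3 : I p 1 ((p : ℚ) / 3) := by rw [div_eq_mul_inv]; exact (I_p (p := p)).mulR u3.2.2
    have hd6 : I p 1 ((p : ℚ) / 6) := by rw [div_eq_mul_inv]; exact (I_p (p := p)).mulR u6.2.2
    have t1 := prodH (p := p) (a := 2 * j) (b := j) (by omega) (by omega) hd3
    have t2 := prodH (p := p) (a := j) (b := j) (by omega) (by omega) hd6
    rw [prod_choose _ _ (by omega), show 2 * j - j = j by omega, ← hC2] at t1
    rw [prod_choose _ _ (by omega), Nat.choose_self, Nat.sub_self] at t2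
    have hH0 : H 0 = 0 := by simp [H]
    rw [hH0, sub_zero, Nat.cast_one, one_mul] at t2
    have uf := U_fac (p := p) (k := j) (by omega)
    have t1' : EQ p 2 (∏ i ∈ range j, (((2 * j : ℕ) : ℚ) - i - p / 3)) (C2 * j.factorial * (1 + -(2 / 3) * a)) := by
      refine t1.trans ((EQ.refl (mul_mem mC2 uf.2.1)).mul ?_)
      have h' := EQ_lin (neg_mem m13) (E2.sub E1)
      have x1 : 1 + -(1 / 3) * (p * H (2 * j) - p * H j) = 1 - p / 3 * (H (2 * j) - H j) := by ring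
      have x2 : 1 + -(1 / 3) * (-3 * b - (-2 * a - 3 * b)) = 1 + -(2 / 3) * a := by ring
      rwa [x1, x2] at h'
    have t2' : EQ p 2 (∏ i ∈ range j, ((j : ℚ) - i - p / 6)) (j.factorial * (1 + (1 / 3 * a + 1 / 2 * b))) := by
      refine t2.trans ((EQ.refl uf.2.1).mul ?_)
      have h' := EQ_lin (neg_mem m16) E1
      have x1 : 1 + -(1 / 6) * (p * H j) = 1 - p / 6 * H j := by ring
      have x2 : 1 + -(1 / 6) * (-2 * a - 3 * b) = 1 + (1 / 3 * a + 1 / 2 * b) := by ring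
      rwa [x1, x2] at h'
    have ut : U p ((j.factorial : ℚ) * (1 + (1 / 3 * a + 1 / 2 * b))) := uf.mul (U_small Iab)
    have ut2 : U p (∏ i ∈ range j, ((j : ℚ) - i - p / 6)) := t2'.symm.unit (by norm_num) ut
    have t3 := t1'.div (by norm_num) t2' ut2
    have t4 : C2 * j.factorial * (1 + -(2 / 3) * a) / (j.factorial * (1 + (1 / 3 * a + 1 / 2 * b))) =
        C2 * ((1 + -(2 / 3) * a) * (1 + (1 / 3 * a + 1 / 2 * b))⁻¹) := by
      have b1 := uf.1
      have b2 := (U_small Iab).1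
      field_simp
    rw [t4] at t3
    have t5 := (EQ.refl (k := 2) (U_small I23a).2.1).mul (inv_small Iab)
    have t6 := mul_small I23a Iab.neg
    rw [← sub_eq_add_neg] at t6
    have t7 := t3.trans ((EQ.refl (k := 2) mC2).mul (t5.trans t6))
    have x5 : 1 + -(2 / 3) * a + -(1 / 3 * a + 1 / 2 * b) = 1 + (-a + -(1 / 2) * b) := by ring
    rw [x5] at t7
    have t8 : ∏ i ∈ range j, ((1 / 3 + i) / (1 / 6 + i) : ℚ) =
        (∏ i ∈ range j, (((2 * j : ℕ) : ℚ) - i - p / 3)) / ∏ i ∈ range j, ((j : ℚ) - i - p / 6) := by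
      rw [← prod_div_distrib]
      refine prod_congr rfl fun i _ => ?_
      have y1 : ((2 * j : ℕ) : ℚ) - i - p / 3 = -(1 / 3 + i) := by rw [hpq]; push_cast; ring
      have y2 : (j : ℚ) - i - p / 6 = -(1 / 6 + i) := by rw [hpq]; ring
      rw [y1, y2, neg_div_neg_eq]
    rw [t8]
    have t9 := (EQ.refl (k := 2) m4j).mul t7
    rwa [← mul_assoc] at t9
  have Iabn : I p 1 (-a + -(1 / 2) * b) := Ia.neg.add (Ib.mulL (neg_mem m12))
  have eG' : EQ p 2 (FF p (p / 6)) (C4 * (1 + -(1 / 2) * b)) := by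
    have g1 := e6.symm.mul (EQ.refl (k := 2) (U_small Iabn).2.1)
    have g2 := eG.trans g1
    have g3 := (EQ.refl (k := 2) uC4.2.1).mul (mul_small Ia Iabn)
    rw [← mul_assoc] at g3
    have g4 := g2.trans g3
    have x : 1 + a + (-a + -(1 / 2) * b) = 1 + -(1 / 2) * b := by ring
    rwa [x] at g4
  -- F
  have eF : EQ p 2 (FF p (2 * (p / 6))) (C4 * (1 + -b)) := by
    rw [FF_two h1 hpj]
    have y2 := choose_pm2 (p := p) (k := 2 * j) (by omega)
    rw [show p - 1 = 6 * j by omega] at y2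
    have z2 : EQ p 2 ((6 * j).choose (4 * j) : ℚ) (1 + 3 * b) := by
      rw [← Nat.choose_symm_of_eq_add (show 6 * j = 2 * j + 4 * j by ring)]
      refine y2.trans ?_
      have e : (-1 : ℚ) ^ (2 * j) = 1 := by rw [pow_mul]; norm_num
      rw [e, one_mul]
      have h' := EQ_lin (neg_mem (one_mem _)) E2
      have x1 : 1 + -1 * (p * H (2 * j)) = 1 - p * H (2 * j) := by ring
      have x2 : 1 + -1 * (-3 * b) = 1 + 3 * b := by ring
      rwa [x1, x2] at h'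
    have uz : U p ((6 * j).choose (4 * j) : ℚ) := C_unit (by omega) (by omega)
    have gbe := gb_eq (p := p) hpj
    rw [← hC4] at gbe
    have w1 : (27 : ℚ) ^ (2 * j) = (1 + b) * (1 + b) := by
      rw [hb]
      have : (1 + ((-27 : ℚ) ^ j - 1)) = (-27) ^ j := by ring
      rw [this, ← mul_pow, pow_mul]; norm_num
    rw [w1]
    have w2 := ((mul_small Ib Ib).mul gbe).div (by norm_num) z2 uz
    have w3 := ((mul_small (I2b_aux Ib Ib) I3b.neg))
    have w4 := (EQ.refl (k := 2) (mul_mem (U_small (I2b_aux Ib Ib)).2.1 uC4.2.1)).mul (inv_small I3b)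
    have x1 : (1 + b + b) * C4 / (1 + 3 * b) = (1 + (b + b)) * C4 * (1 + 3 * b)⁻¹ := by
      rw [div_eq_mul_inv]; ring
    rw [x1] at w2
    have w5 := w2.trans w4
    have w6 := (EQ.refl (k := 2) uC4.2.1).mul w3
    have x2 : (1 + (b + b)) * C4 * (1 - 3 * b) = C4 * ((1 + (b + b)) * (1 + -(3 * b))) := by ring
    rw [x2] at w5
    have w7 := w5.trans w6
    have x3 : 1 + (b + b) + -(3 * b) = 1 + -b := by ring
    rwa [x3] at w7
  -- conclusion
  have hI6 : I p 1 ((p : ℚ) / 6) := by rw [div_eq_mul_inv]; exact (I_p (p := p)).mulR u6.2.2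
  have fin := (lin_FF (p := p) hpj).interp hI6
  have fin2 := ((EQ.refl (k := 2) u2.2.1).mul eG').sub eF
  have x : 2 * (C4 * (1 + -(1 / 2) * b)) - C4 * (1 + -b) = C4 := by ring
  rw [x] at fin2
  rw [← hC4]
  exact fin.trans fin2
where
  I2b_aux {x y : ℚ} (hx : I p 1 x) (hy : I p 1 y) : I p 1 (x + y) := hx.add hy

end Pool.Agent.R488.Cub
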