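import Mathlib
import Pool.Agent.R488.Cub.Eval3

set_option autoImplicit false

/-!
The basic congruences for `p = 6j+1`, extracted.
-/

namespace Pool.Agent.R488.Cub

open Finset Pool.Agent.R439.PL Pool.Agent.R439.PL.S4 Pool.Agent.R488.Tri

variable {p j : ℕ} [hp : Fact p.Prime]

/-- the basic congruences -/
theorem facts (hE : StmtE) (hpj : p = 6 * j + 1) : ∃ a b C4 C3 C2 : ℚ,
    C4 = ((4 * j).choose (2 * j) : ℚ) ∧ C3 = ((3 * j).choose j : ℚ) ∧ C2 = ((2 * j).choose j : ℚ) ∧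
    a = 64 ^ j - 1 ∧ b = (-27) ^ j - 1 ∧ I p 1 a ∧ I p 1 b ∧ U p C4 ∧ C3 ∈ Zp p ∧ C2 ∈ Zp p ∧
    EQ p 2 (p * H (3 * j)) (-2 * a) ∧ EQ p 2 (p * H (2 * j)) (-3 * b) ∧ EQ p 2 (p * H j) (-2 * a - 3 * b) ∧
    EQ p 2 C4 (16 ^ j * C3 * (1 + -(3 / 2) * b)) ∧ EQ p 2 (C4 * (1 + a)) ((-4) ^ j * C2) := by
  have hpq : (p : ℚ) = 6 * j + 1 := by exact_mod_cast hpj
  have hj := j_pos hpj
  have u2 := U2 hpj
  have u3 := U3 hpj
  have u6 := U6 hpj
  obtain ⟨E3, E2, E1⟩ := hE p j hpj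
  obtain ⟨a, ha⟩ : ∃ a : ℚ, a = 64 ^ j - 1 := ⟨_, rfl⟩
  obtain ⟨b, hb⟩ : ∃ b : ℚ, b = (-27) ^ j - 1 := ⟨_, rfl⟩
  rw [← ha] at E3 E1
  rw [← hb] at E2 E1
  have Ia : I p 1 a := by
    have h := ((I_p (p := p)).mulR (H_mem (p := p) (m := 3 * j) (by omega)))
    have h' : I p 1 (2 * a) := by
      have e : 2 * a = (p * H (3 * j) - -2 * a) - p * H (3 * j) := by ring
      rw [e]; exact (E3.2.2.mono (by norm_num)).sub h
    exact u2.cancel h'
  have Ib : I p 1 b := by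
    have h := ((I_p (p := p)).mulR (H_mem (p := p) (m := 2 * j) (by omega)))
    have h' : I p 1 (3 * b) := by
      have e : 3 * b = (p * H (2 * j) - -3 * b) - p * H (2 * j) := by ring
      rw [e]; exact (E2.2.2.mono (by norm_num)).sub h
    exact u3.cancel h'
  have m1 := neg_mem' (p := p) j
  obtain ⟨C4, hC4⟩ : ∃ C4 : ℚ, C4 = ((4 * j).choose (2 * j) : ℚ) := ⟨_, rfl⟩
  obtain ⟨C3, hC3⟩ : ∃ C3 : ℚ, C3 = ((3 * j).choose j : ℚ) := ⟨_, rfl⟩
  obtain ⟨C2, hC2⟩ : ∃ C2 : ℚ, C2 = ((2 * j).choose j : ℚ) := ⟨_, rfl⟩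
  have uC4 : U p C4 := by rw [hC4]; exact C_unit (by omega) (by omega)
  have mC3 : C3 ∈ Zp p := by rw [hC3]; exact nat_mem _
  have mC2 : C2 ∈ Zp p := by rw [hC2]; exact nat_mem _
  have m12 : (1 / 2 : ℚ) ∈ Zp p := by rw [one_div]; exact u2.2.2
  have m13 : (1 / 3 : ℚ) ∈ Zp p := by rw [one_div]; exact u3.2.2
  have m16 : (1 / 6 : ℚ) ∈ Zp p := by rw [one_div]; exact u6.2.2
  -- e1
  have e1 : EQ p 2 C4 (16 ^ j * C3 * (1 + -(3 / 2) * b)) := by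
    have h := C4_eq (p := p) hpj
    rw [← hC4, ← hC3] at h
    refine h.trans ?_
    refine (EQ.refl (mul_mem (by exact_mod_cast pow_mem (nat_mem (p := p) 16) j) mC3)).mul ?_
    have h' := EQ_lin (neg_mem m12) (E3.sub E1)
    have x1 : 1 + -(1 / 2) * (p * H (3 * j) - p * H j) = 1 - p / 2 * (H (3 * j) - H j) := by ring
    have x2 : 1 + -(1 / 2) * (-2 * a - (-2 * a - 3 * b)) = 1 + -(3 / 2) * b := by ring
    rwa [x1, x2] at h'
  -- e2
  have e2 : EQ p 2 (C3 ^ 2 * ((-1) ^ j * (1 + 2 * a))) ((1 + 3 * b) * C4 * C2) := by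
    have x := C_exact j
    rw [← hC4, ← hC3, ← hC2] at x
    have y3 := choose_pm2 (p := p) (k := 3 * j) (by omega)
    have y2 := choose_pm2 (p := p) (k := 2 * j) (by omega)
    rw [show p - 1 = 6 * j by omega] at y3 y2
    have z3 : EQ p 2 ((6 * j).choose (3 * j) : ℚ) ((-1) ^ j * (1 + 2 * a)) := by
      refine y3.trans ?_
      have e : (-1 : ℚ) ^ (3 * j) = (-1) ^ j := by rw [pow_mul]; norm_num
      rw [e]
      refine (EQ.refl m1).mul ?_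
      have h' := EQ_lin (neg_mem (one_mem _)) E3
      have x1 : 1 + -1 * (p * H (3 * j)) = 1 - p * H (3 * j) := by ring
      have x2 : 1 + -1 * (-2 * a) = 1 + 2 * a := by ring
      rwa [x1, x2] at h'
    have z2 : EQ p 2 ((6 * j).choose (2 * j) : ℚ) (1 + 3 * b) := by
      refine y2.trans ?_
      have e : (-1 : ℚ) ^ (2 * j) = 1 := by rw [pow_mul]; norm_num
      rw [e, one_mul]
      have h' := EQ_lin (neg_mem (one_mem _)) E2
      have x1 : 1 + -1 * (p * H (2 * j)) = 1 - p * H (2 * j) := by ring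
      have x2 : 1 + -1 * (-3 * b) = 1 + 3 * b := by ring
      rwa [x1, x2] at h'
    have l := (EQ.refl (k := 2) (pow_mem mC3 2)).mul z3
    have r := (z2.mul (EQ.refl (k := 2) uC4.2.1)).mul (EQ.refl (k := 2) mC2)
    rw [x] at l
    exact l.symm.trans r
  have I3b : I p 1 (3 * b) := Ib.mulL u3.2.1
  have I2a : I p 1 (2 * a) := Ia.mulL u2.2.1
  have I32b : I p 1 (-(3 / 2) * b) := by
    have : -(3 / 2) * b = (-(3 * 2⁻¹)) * b := by ring
    rw [this]; exact Ib.mulL (neg_mem (mul_mem u3.2.1 u2.2.2))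
  -- e3
  have m256 : (256 : ℚ) ^ j ∈ Zp p := by exact_mod_cast pow_mem (nat_mem (p := p) 256) j
  have e3 : EQ p 2 (C4 * C4) (256 ^ j * C3 ^ 2 * (1 + -(3 * b))) := by
    refine (e1.mul e1).trans ?_
    have h := (EQ.refl (k := 2) (mul_mem m256 (pow_mem mC3 2))).mul (mul_small I32b I32b)
    have x1 : (256 : ℚ) ^ j * C3 ^ 2 * ((1 + -(3 / 2) * b) * (1 + -(3 / 2) * b)) =
        16 ^ j * C3 * (1 + -(3 / 2) * b) * (16 ^ j * C3 * (1 + -(3 / 2) * b)) := by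
      have : (256 : ℚ) ^ j = 16 ^ j * 16 ^ j := by rw [← mul_pow]; norm_num
      rw [this]; ring
    have x2 : 1 + -(3 / 2) * b + -(3 / 2) * b = 1 + -(3 * b) := by ring
    rwa [x1, x2] at h
  -- e5
  have e5 : EQ p 2 (C4 * ((-1) ^ j * (1 + 2 * a))) (256 ^ j * C2) := by
    have mz : (-1) ^ j * (1 + 2 * a) ∈ Zp p := mul_mem m1 (add_mem (one_mem _) I2a.mem)
    have h := e3.mul (EQ.refl (k := 2) mz)
    have h' := ((EQ.refl (k := 2) m256).mul (EQ.refl (k := 2) (U_small I3b.neg).2.1)).mul e2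
    have x1 : 256 ^ j * C3 ^ 2 * (1 + -(3 * b)) * ((-1) ^ j * (1 + 2 * a)) =
        256 ^ j * (1 + -(3 * b)) * (C3 ^ 2 * ((-1) ^ j * (1 + 2 * a))) := by ring
    rw [x1] at h
    have h2 := h.trans h'
    have h3 := ((EQ.refl (k := 2) m256).mul (mul_small I3b.neg I3b)).mul
      (EQ.refl (k := 2) (mul_mem uC4.2.1 mC2))
    have x2 : (256 : ℚ) ^ j * ((1 + -(3 * b)) * (1 + 3 * b)) * (C4 * C2) =
        256 ^ j * (1 + -(3 * b)) * ((1 + 3 * b) * C4 * C2) := by ring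
    rw [x2] at h3
    have h4 := h2.trans h3
    have x3 : C4 * C4 * ((-1) ^ j * (1 + 2 * a)) = C4 * (C4 * ((-1) ^ j * (1 + 2 * a))) := by ring
    have x4 : 256 ^ j * (1 + -(3 * b) + 3 * b) * (C4 * C2) = C4 * (256 ^ j * C2) := by ring
    rw [x3, x4] at h4
    exact EQ_cancel uC4 (mul_mem uC4.2.1 mz) (mul_mem m256 mC2) h4
  -- e6
  have m4j : (-4 : ℚ) ^ j ∈ Zp p := pow_mem (by exact_mod_cast int_mem (p := p) (-4)) _
  have e6 : EQ p 2 (C4 * (1 + a)) ((-4) ^ j * C2) := by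
    have mz : (-1) ^ j * (1 + -a) ∈ Zp p := mul_mem m1 (add_mem (one_mem _) Ia.neg.mem)
    have h := e5.mul (EQ.refl (k := 2) mz)
    have l := (EQ.refl (k := 2) uC4.2.1).mul (mul_small I2a Ia.neg)
    have r := (EQ.refl (k := 2) (mul_mem m4j mC2)).mul (mul_small Ia Ia.neg)
    have s1 := mone_sq' j
    have x1 : C4 * ((-1) ^ j * (1 + 2 * a)) * ((-1) ^ j * (1 + -a)) = C4 * ((1 + 2 * a) * (1 + -a)) := by
      linear_combination (C4 * ((1 + 2 * a) * (1 + -a))) * s1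
    have x2 : 256 ^ j * C2 * ((-1) ^ j * (1 + -a)) = (-4) ^ j * C2 * ((1 + a) * (1 + -a)) := by
      have y1 : (256 : ℚ) ^ j = 4 ^ j * 64 ^ j := by rw [← mul_pow]; norm_num
      have y2 : (-4 : ℚ) ^ j = (-1) ^ j * 4 ^ j := by rw [← mul_pow]; norm_num
      have y3 : (64 : ℚ) ^ j = 1 + a := by rw [ha]; ring
      rw [y1, y2, y3]; ring
    rw [x1, x2] at h
    have h2 := (l.symm.trans h).trans r
    have x3 : 1 + 2 * a + -a = 1 + a := by ring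
    have x4 : (-4) ^ j * C2 * (1 + a + -a) = (-4) ^ j * C2 := by ring
    rwa [x3, x4] at h2
  exact ⟨a, b, C4, C3, C2, hC4, hC3, hC2, ha, hb, Ia, Ib, uC4, mC3, mC2, E3, E2, E1, e1, e6⟩

end Pool.Agent.R488.Cub
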