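import Mathlib
import Pool.Agent.R488.Cub.Defs

set_option autoImplicit false

/-!
CUB-E: harmonic numbers of `p/2`, `p/3`, `p/6` modulo `p^2` for `p = 6j+1`.
-/

namespace Pool.Agent.R488.Cub

open Finset Pool.Agent.R439.PL

namespace HarmP

/-- sum of the binomial coefficients `C(n,k)` with `k = r` modulo `6` -/
def S (n : ℕ) (r : ZMod 6) : ℚ := ∑ k ∈ range (n + 1), if (k : ZMod 6) = r then (n.choose k : ℚ) else 0

theorem S_succ (n : ℕ) (r : ZMod 6) : S (n + 1) r = S n r + S n (r - 1) := by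
  have h1 : S n r = ∑ k ∈ range (n + 1 + 1), if (k : ZMod 6) = r then (n.choose k : ℚ) else 0 := by
    rw [sum_range_succ, Nat.choose_succ_self]
    simp [S]
  rw [h1, S, sum_range_succ', sum_range_succ' _ (n + 1), S]
  have h2 : ∀ k : ℕ, (if ((k + 1 : ℕ) : ZMod 6) = r then ((n + 1).choose (k + 1) : ℚ) else 0) =
      (if ((k + 1 : ℕ) : ZMod 6) = r then (n.choose (k + 1) : ℚ) else 0) +
      (if (k : ZMod 6) = r - 1 then (n.choose k : ℚ) else 0) := by
    intro k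
    have h3 : ((k + 1 : ℕ) : ZMod 6) = r ↔ (k : ZMod 6) = r - 1 := by
      push_cast
      rw [eq_sub_iff_add_eq]
    by_cases h : (k : ZMod 6) = r - 1
    · rw [if_pos (h3.mpr h), if_pos (h3.mpr h), if_pos h, Nat.choose_succ_succ]
      push_cast; ring
    · rw [if_neg (fun h' => h (h3.mp h')), if_neg (fun h' => h (h3.mp h')), if_neg h]
      ring
  rw [sum_congr rfl fun k _ => h2 k, sum_add_distrib]
  simp only [Nat.choose_zero_right]
  ring

theorem S_closed (j : ℕ) :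
    S (6 * j + 1) 0 = (2 * 64 ^ j + 1 + 3 * (-27) ^ j) / 6 ∧
    S (6 * j + 1) 1 = (2 * 64 ^ j + 1 + 3 * (-27) ^ j) / 6 ∧
    S (6 * j + 1) 2 = (2 * 64 ^ j - 2) / 6 ∧
    S (6 * j + 1) 3 = (2 * 64 ^ j + 1 - 3 * (-27) ^ j) / 6 ∧
    S (6 * j + 1) 4 = (2 * 64 ^ j + 1 - 3 * (-27) ^ j) / 6 ∧
    S (6 * j + 1) 5 = (2 * 64 ^ j - 2) / 6 := by
  induction j with
  | zero =>
    have e1 : ((1 : ZMod 6) = 0) = False := by decide
    have e : ∀ r : ZMod 6, S (6 * 0 + 1) r = (if (0 : ZMod 6) = r then 1 else 0) +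
        (if (1 : ZMod 6) = r then 1 else 0) := by
      intro r
      simp [S, sum_range_succ]
    refine ⟨?_, ?_, ?_, ?_, ?_, ?_⟩
    · rw [e, if_pos (by decide), if_neg (by decide)]; norm_num
    · rw [e, if_neg (by decide), if_pos (by decide)]; norm_num
    · rw [e, if_neg (by decide), if_neg (by decide)]; norm_num
    · rw [e, if_neg (by decide), if_neg (by decide)]; norm_num
    · rw [e, if_neg (by decide), if_neg (by decide)]; norm_num
    · rw [e, if_neg (by decide), if_neg (by decide)]; norm_num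
  | succ j ih =>
    obtain ⟨h0, h1, h2, h3, h4, h5⟩ := ih
    have m0 : (0 : ZMod 6) - 1 = 5 := by decide
    have m1 : (1 : ZMod 6) - 1 = 0 := by decide
    have m2 : (2 : ZMod 6) - 1 = 1 := by decide
    have m3 : (3 : ZMod 6) - 1 = 2 := by decide
    have m4 : (4 : ZMod 6) - 1 = 3 := by decide
    have m5 : (5 : ZMod 6) - 1 = 4 := by decide
    rw [show 6 * (j + 1) + 1 = 6 * j + 1 + 1 + 1 + 1 + 1 + 1 + 1 by ring]
    generalize 6 * j + 1 = n at *
    simp only [S_succ, m0, m1, m2, m3, m4, m5, h0, h1, h2, h3, h4, h5]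
    refine ⟨?_, ?_, ?_, ?_, ?_, ?_⟩ <;> ring

theorem blocks (f : ℕ → ℚ) (j : ℕ) : ∑ k ∈ range (6 * j), f k =
    ∑ i ∈ range j, (f (6 * i) + f (6 * i + 1) + f (6 * i + 2) + f (6 * i + 3) + f (6 * i + 4) +
      f (6 * i + 5)) := by
  induction j with
  | zero => simp
  | succ j ih =>
    rw [show 6 * (j + 1) = 6 * j + 1 + 1 + 1 + 1 + 1 + 1 by ring, sum_range_succ, sum_range_succ,
      sum_range_succ, sum_range_succ, sum_range_succ, sum_range_succ, sum_range_succ, ih]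
    ring

theorem castmod (i t : ℕ) : ((6 * i + t : ℕ) : ZMod 6) = (t : ZMod 6) := by
  push_cast
  have : (6 : ZMod 6) = 0 := by decide
  rw [this]; ring

theorem S_blocks (n j : ℕ) (hn : n = 6 * j + 1) :
    S n 0 = ∑ i ∈ range j, (n.choose (6 * i) : ℚ) + (n.choose (6 * j) : ℚ) ∧
    S n 2 = ∑ i ∈ range j, (n.choose (6 * i + 2) : ℚ) ∧
    S n 3 = ∑ i ∈ range j, (n.choose (6 * i + 3) : ℚ) ∧
    S n 4 = ∑ i ∈ range j, (n.choose (6 * i + 4) : ℚ) := by
  subst hn
  have c0 : ∀ i, ((6 * i : ℕ) : ZMod 6) = ((0 : ℕ) : ZMod 6) := fun i => castmod i 0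
  refine ⟨?_, ?_, ?_, ?_⟩ <;>
  · rw [S, sum_range_succ, sum_range_succ, blocks]
    simp only [castmod, c0]
    simp (decide := true)

/-- `C(p-1,k) = (-1)^k` modulo `p` -/
theorem choose_pm1 {p : ℕ} [hp : Fact p.Prime] (k : ℕ) (hk : k < p) :
    EQ p 1 ((p - 1).choose k : ℚ) ((-1) ^ k) := by
  induction k with
  | zero => simpa using EQ.refl (k := 1) (one_mem (Zp p))
  | succ k ih =>
    have ih := ih (by omega)
    have h1 : (((p - 1).choose (k + 1) : ℕ) : ℚ) + ((p - 1).choose k : ℕ) = (p.choose (k + 1) : ℕ) := by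
      obtain ⟨q, hq⟩ : ∃ q, p = q + 1 := ⟨p - 1, by omega⟩
      rw [hq, Nat.add_sub_cancel, Nat.choose_succ_succ]; push_cast; ring
    have h2 : p ∣ p.choose (k + 1) := hp.out.dvd_choose_self (by omega) hk
    obtain ⟨c, hc⟩ := h2
    refine ⟨nat_mem _, pow_mem (neg_mem (one_mem _)) _, ?_⟩
    have h3 : (((p - 1).choose (k + 1) : ℕ) : ℚ) - (-1) ^ (k + 1) = p * c -
        (((p - 1).choose k : ℚ) - (-1) ^ k) := by
      have : ((p.choose (k + 1) : ℕ) : ℚ) = p * c := by rw [hc]; push_cast; ring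
      rw [pow_succ]
      linear_combination h1 + this
    rw [h3]
    exact ((I_p (p := p)).mulR (nat_mem c)).sub ih.2.2

/-- `C(p,r+1) = (-1)^r p/(r+1)` modulo `p^2` -/
theorem term {p : ℕ} [hp : Fact p.Prime] (r : ℕ) (hr : r + 1 < p) :
    EQ p 2 (p.choose (r + 1) : ℚ) ((-1) ^ r * (p * (1 / ((r : ℚ) + 1)))) := by
  have hu : U p ((r : ℚ) + 1) := by
    have h : ¬ (p : ℤ) ∣ ((r + 1 : ℕ) : ℤ) := by
      intro h
      have h1 := Int.natCast_dvd_natCast.mp h
      exact absurd (Nat.le_of_dvd (by omega) h1) (by omega)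
    have h2 := U_int h
    push_cast at h2
    exact h2
  have h1 : ((r : ℚ) + 1) * (p.choose (r + 1) : ℚ) = p * ((p - 1).choose r : ℚ) := by
    obtain ⟨q, hq⟩ : ∃ q, p = q + 1 := ⟨p - 1, by omega⟩
    have h := Nat.add_one_mul_choose_eq q r
    have : (((q + 1) * q.choose r : ℕ) : ℚ) = (((q + 1).choose (r + 1) * (r + 1) : ℕ) : ℚ) := by rw [h]
    rw [hq, Nat.add_sub_cancel]
    push_cast at this ⊢
    linear_combination (-1) * this
  have h2 := choose_pm1 (p := p) r (by omega)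
  have m1 : (1 / ((r : ℚ) + 1)) ∈ Zp p := by rw [one_div]; exact hu.2.2
  have m2 : ((-1 : ℚ)) ^ r ∈ Zp p := pow_mem (neg_mem (one_mem _)) _
  have e1 : (p.choose (r + 1) : ℚ) = p * ((p - 1).choose r : ℚ) * (1 / (r + 1)) := by
    rw [← h1]
    have := hu.1
    field_simp
  refine ⟨nat_mem _, mul_mem m2 (mul_mem p_mem m1), ?_⟩
  have e2 : (p.choose (r + 1) : ℚ) - (-1) ^ r * (p * (1 / ((r : ℚ) + 1))) =
      (p * (((p - 1).choose r : ℚ) - (-1) ^ r)) * (1 / (r + 1)) := by rw [e1]; ring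
  rw [e2]
  exact ((I_p (p := p)).mul h2.2.2).mulR m1

/-- general form: a sum of `ε(i) C(p, c(i+1))` -/
theorem gen {p : ℕ} [hp : Fact p.Prime] (c m : ℕ) (hc : 0 < c) (hm : c * m < p) (ε : ℕ → ℤ)
    (hε : ∀ i, (ε i : ℚ) * (-1) ^ (c * i + (c - 1)) = -1) :
    EQ p 2 (p * H m) (-(c : ℚ) * ∑ i ∈ range m, (ε i : ℚ) * (p.choose (c * (i + 1)) : ℚ)) := by
  have h1 : (p * H m : ℚ) = -(c : ℚ) * ∑ i ∈ range m, (ε i : ℚ) *
      ((-1) ^ (c * i + (c - 1)) * (p * (1 / (((c * i + (c - 1) : ℕ) : ℚ) + 1)))) := by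
    rw [H, mul_sum, mul_sum]
    refine sum_congr rfl fun i _ => ?_
    have h2 : (((c * i + (c - 1) : ℕ) : ℚ) + 1) = c * (i + 1) := by
      have : c * i + (c - 1) + 1 = c * (i + 1) := by
        rw [mul_add, mul_one]; omega
      exact_mod_cast this
    rw [h2]
    have h3 := hε i
    have hc' : (c : ℚ) ≠ 0 := by exact_mod_cast hc.ne'
    have hi : (i : ℚ) + 1 ≠ 0 := by positivity
    have h4 : (ε i : ℚ) * ((-1) ^ (c * i + (c - 1)) * (p * (1 / (c * ((i : ℚ) + 1))))) =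
        ((ε i : ℚ) * (-1) ^ (c * i + (c - 1))) * (p * (1 / (c * ((i : ℚ) + 1)))) := by ring
    rw [h4, h3]
    field_simp
  rw [h1]
  refine EQ.symm ?_
  refine (EQ.refl (neg_mem (nat_mem c))).mul ?_
  refine EQ.sum fun i hi => ?_
  have hi' := mem_range.mp hi
  refine (EQ.refl (int_mem _)).mul ?_
  have h5 : c * (i + 1) ≤ c * m := Nat.mul_le_mul_left c (by omega)
  have h6 : c * (i + 1) = c * i + (c - 1) + 1 := by
    rw [mul_add, mul_one]; omega
  rw [h6] at h5 ⊢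
  exact term (c * i + (c - 1)) (by omega)

end HarmP

open HarmP in
theorem harm : StmtE := by
  intro p j _ hpj
  obtain ⟨s0, s2, s3, s4⟩ := S_blocks p j hpj
  have hcl := S_closed j
  rw [← hpj] at hcl
  obtain ⟨c0, -, c2, c3, c4, -⟩ := hcl
  -- shift of the first sum
  have sh : ∑ i ∈ range j, (p.choose (6 * i) : ℚ) + (p.choose (6 * j) : ℚ) =
      ∑ i ∈ range j, (p.choose (6 * (i + 1)) : ℚ) + 1 := by
    rw [← sum_range_succ (fun i => (p.choose (6 * i) : ℚ)), sum_range_succ']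
    simp
  rw [sh, c0] at s0
  rw [c2] at s2
  rw [c3] at s3
  rw [c4] at s4
  have b3 : ∀ f : ℕ → ℚ, ∑ i ∈ range (3 * j), f i = ∑ i ∈ range j, (f (3 * i) + f (3 * i + 1) + f (3 * i + 2)) := by
    intro f
    clear s0 s2 s3 s4 c0 c2 c3 c4 sh hpj
    induction j with
    | zero => simp
    | succ j ih =>
      rw [show 3 * (j + 1) = 3 * j + 1 + 1 + 1 by ring, sum_range_succ, sum_range_succ, sum_range_succ,
        sum_range_succ, ih]
      ring
  have b2 : ∀ f : ℕ → ℚ, ∑ i ∈ range (2 * j), f i = ∑ i ∈ range j, (f (2 * i) + f (2 * i + 1)) := by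
    intro f
    clear b3 s0 s2 s3 s4 c0 c2 c3 c4 sh hpj
    induction j with
    | zero => simp
    | succ j ih =>
      rw [show 2 * (j + 1) = 2 * j + 1 + 1 by ring, sum_range_succ, sum_range_succ, sum_range_succ, ih]
      ring
  refine ⟨?_, ?_, ?_⟩
  · have h := gen (p := p) 2 (3 * j) (by norm_num) (by omega) (fun _ => 1) (by
      intro i
      rw [pow_add, pow_mul]; norm_num)
    have e : -((2 : ℕ) : ℚ) * ∑ i ∈ range (3 * j), (((fun _ => 1 : ℕ → ℤ) i : ℤ) : ℚ) *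
        (p.choose (2 * (i + 1)) : ℚ) = -2 * (64 ^ j - 1) := by
      rw [b3, sum_add_distrib, sum_add_distrib]
      simp only [Int.cast_one, one_mul]
      have e1 : ∑ i ∈ range j, (p.choose (2 * (3 * i + 1)) : ℚ) = ∑ i ∈ range j, (p.choose (6 * i + 2) : ℚ) :=
        sum_congr rfl fun i _ => by rw [show 2 * (3 * i + 1) = 6 * i + 2 by ring]
      have e2 : ∑ i ∈ range j, (p.choose (2 * (3 * i + 1 + 1)) : ℚ) = ∑ i ∈ range j, (p.choose (6 * i + 4) : ℚ) :=
        sum_congr rfl fun i _ => by rw [show 2 * (3 * i + 1 + 1) = 6 * i + 4 by ring]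
      have e3 : ∑ i ∈ range j, (p.choose (2 * (3 * i + 2 + 1)) : ℚ) = ∑ i ∈ range j, (p.choose (6 * (i + 1)) : ℚ) :=
        sum_congr rfl fun i _ => by rw [show 2 * (3 * i + 2 + 1) = 6 * (i + 1) by ring]
      rw [e1, e2, e3, ← s2, ← s4]
      push_cast
      linear_combination (2 : ℚ) * s0
    rw [e] at h
    exact h
  · have h := gen (p := p) 3 (2 * j) (by norm_num) (by omega) (fun i => (-1) ^ (i + 1)) (by
      intro i
      push_cast
      rw [← pow_add]
      have : i + 1 + (3 * i + (3 - 1)) = 2 * (2 * i + 1) + 1 := by omega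
      rw [this, pow_succ, pow_mul]; norm_num)
    have e : -((3 : ℕ) : ℚ) * ∑ i ∈ range (2 * j), (((fun i => (-1) ^ (i + 1) : ℕ → ℤ) i : ℤ) : ℚ) *
        (p.choose (3 * (i + 1)) : ℚ) = -3 * ((-27) ^ j - 1) := by
      rw [b2, sum_add_distrib]
      push_cast
      have e1 : ∑ i ∈ range j, ((-1 : ℚ) ^ (2 * i + 1) * (p.choose (3 * (2 * i + 1)) : ℚ)) =
          -∑ i ∈ range j, (p.choose (6 * i + 3) : ℚ) := by
        rw [← sum_neg_distrib]
        refine sum_congr rfl fun i _ => ?_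
        rw [show 3 * (2 * i + 1) = 6 * i + 3 by ring, pow_succ, pow_mul]; norm_num
      have e2 : ∑ i ∈ range j, ((-1 : ℚ) ^ (2 * i + 1 + 1) * (p.choose (3 * (2 * i + 1 + 1)) : ℚ)) =
          ∑ i ∈ range j, (p.choose (6 * (i + 1)) : ℚ) := by
        refine sum_congr rfl fun i _ => ?_
        rw [show 3 * (2 * i + 1 + 1) = 6 * (i + 1) by ring, show 2 * i + 1 + 1 = 2 * (i + 1) by ring, pow_mul]
        norm_num
      rw [e1, e2, ← s3]
      linear_combination (3 : ℚ) * s0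
    rw [e] at h
    exact h
  · have h := gen (p := p) 6 j (by norm_num) (by omega) (fun _ => 1) (by
      intro i
      rw [show 6 * i + (6 - 1) = 2 * (3 * i + 2) + 1 by omega, pow_succ, pow_mul]; norm_num)
    have e : -((6 : ℕ) : ℚ) * ∑ i ∈ range j, (((fun _ => 1 : ℕ → ℤ) i : ℤ) : ℚ) *
        (p.choose (6 * (i + 1)) : ℚ) = -2 * (64 ^ j - 1) - 3 * ((-27) ^ j - 1) := by
      simp only [Int.cast_one, one_mul]
      push_cast
      linear_combination (6 : ℚ) * s0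
    rw [e] at h
    exact h

end Pool.Agent.R488.Cub
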