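import Pool.Agent.R488.Cub.Defs

set_option autoImplicit false

namespace Pool.Agent.R488.Cub

theorem uniq : StmtUniq := by
  intro p hp L M L' M' h h'
  have hp0 : (0 : ℤ) < p := by exact_mod_cast hp.pos
  have hprime : Prime (p : ℤ) := Nat.prime_iff_prime_int.mp hp
  have key : ∀ D E : ℤ, 16 * (p : ℤ) ^ 2 = E ^ 2 + 27 * D ^ 2 → (p : ℤ) ∣ D → D = 0 := by
    intro D E hE hD
    obtain ⟨k, rfl⟩ := hD
    by_contra hne
    have hk : k ≠ 0 := by
      rintro rfl
      exact hne (by ring)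
    have hk1 : 1 ≤ k ^ 2 := by
      have := sq_pos_of_ne_zero (a := k) (by exact hk)
      omega
    have hp2 : 0 < (p : ℤ) ^ 2 := by positivity
    nlinarith [mul_le_mul_of_nonneg_left hk1 hp2.le, sq_nonneg E]
  have hD0 : L ^ 2 * M' ^ 2 = L' ^ 2 * M ^ 2 := by
    have hdvd : (p : ℤ) ∣ (L * M' - L' * M) * (L * M' + L' * M) := by
      refine ⟨4 * (M' ^ 2 - M ^ 2), ?_⟩
      linear_combination (-M' ^ 2) * h + M ^ 2 * h'
    rcases hprime.dvd_or_dvd hdvd with h1 | h1
    · have := key (L * M' - L' * M) (L * L' + 27 * M * M')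
        (by linear_combination (4 * (p : ℤ)) * h + (L ^ 2 + 27 * M ^ 2) * h') h1
      have e : L * M' = L' * M := by linarith
      calc L ^ 2 * M' ^ 2 = (L * M') ^ 2 := by ring
        _ = (L' * M) ^ 2 := by rw [e]
        _ = _ := by ring
    · have := key (L * M' + L' * M) (L * L' - 27 * M * M')
        (by linear_combination (4 * (p : ℤ)) * h + (L ^ 2 + 27 * M ^ 2) * h') h1
      have e : L * M' = -(L' * M) := by linarith
      calc L ^ 2 * M' ^ 2 = (L * M') ^ 2 := by ring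
        _ = (-(L' * M)) ^ 2 := by rw [e]
        _ = _ := by ring
  have hM : M' ^ 2 = M ^ 2 := by
    have : 4 * (p : ℤ) * M' ^ 2 = 4 * (p : ℤ) * M ^ 2 := by
      linear_combination (M' ^ 2) * h + hD0 - M ^ 2 * h'
    exact mul_left_cancel₀ (by positivity) this
  have hL : L ^ 2 = L' ^ 2 := by linarith
  exact sq_eq_sq_iff_eq_or_eq_neg.mp hL

end Pool.Agent.R488.Cub
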