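import Mathlib
import Pool.Agent.R488.Cub.Eval3
import Pool.Agent.R488.Cub.B1
import Pool.Agent.R488.Cub.B2
import Pool.Agent.R488.Cub.Alt
import Pool.Agent.R488.Cub.Uniq
import Pool.Agent.R488.Cub.Harm
import Pool.Agent.R488.Cub.JSum
import Pool.Agent.R488.Cub.Jac

set_option autoImplicit false

/-!
`C(4j,2j) = L - p/L` modulo `p^2`, where `p = 6j+1`, `4p = L^2+27M^2`, `L = 2` modulo `3`.
-/

namespace Pool.Agent.R488.Cub

open Finset Pool.Agent.R439.PL Pool.Agent.R439.PL.S4 Pool.Agent.R488.Tri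

variable {p j : ℕ} [hp : Fact p.Prime]

theorem JS_eq (hpj : p = 6 * j + 1) : EQ p 2 (JS p j) (-((4 * j).choose (2 * j) : ℚ)) := by
  have hj := j_pos hpj
  refine (jsum p j hpj).trans ?_
  rw [alt j hj]
  have h := H42 (p := p) hpj
  refine ⟨add_mem (mul_mem (sub_mem p_mem (one_mem _)) (nat_mem _)) (mul_mem p_mem ?_),
    neg_mem (nat_mem _), ?_⟩
  · refine mul_mem (neg_mem (nat_mem _)) (add_mem (one_mem _) (mul_mem ?_ h.mem))
    exact_mod_cast nat_mem (p := p) (4 * j)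
  · have e : (p - 1) * ((4 * j).choose (2 * j) : ℚ) + p * (-((4 * j).choose (2 * j) : ℚ) *
        (1 + 4 * j * (H (4 * j) - H (2 * j)))) - -((4 * j).choose (2 * j) : ℚ) =
        (p * (H (4 * j) - H (2 * j))) * (-((4 * j).choose (2 * j) : ℚ) * (4 * j)) := by ring
    rw [e]
    refine ((I_p (p := p)).mul h).mulR (mul_mem (neg_mem (nat_mem _)) ?_)
    exact_mod_cast nat_mem (p := p) (4 * j)

/-- the theorem on `C(4j,2j)` -/
theorem choose_L (hpj : p = 6 * j + 1) {L M : ℤ} (hL : 4 * (p : ℤ) = L ^ 2 + 27 * M ^ 2)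
    (hL2 : L % 3 = 2) : EQ p 2 ((4 * j).choose (2 * j) : ℚ) ((L : ℚ) - p / L) := by
  have hj := j_pos hpj
  have h1 := JS_eq (p := p) hpj
  obtain ⟨L', M', h2, h3, h4⟩ := jac p j hpj
  have hu : U p (-((4 * j).choose (2 * j) : ℚ)) := by
    have := C_unit (p := p) (a := 4 * j) (b := 2 * j) (by omega) (by omega)
    exact ⟨neg_ne_zero.2 this.1, neg_mem this.2.1, by rw [inv_neg]; exact neg_mem this.2.2⟩
  have h5 : ¬ I p 1 (JS p j) := by
    intro h
    refine hu.not_I (k := 1) (by norm_num) ?_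
    have e : -((4 * j).choose (2 * j) : ℚ) = JS p j - (JS p j - -((4 * j).choose (2 * j) : ℚ)) := by ring
    rw [e]
    exact h.sub (h1.2.2.mono (by norm_num))
  have h6 := (h1.symm.trans (h4 h5)).neg
  rw [neg_neg] at h6
  have h7 : L' = -L := by
    rcases uniq p hp.out L M L' M' hL h2 with h | h <;> omega
  subst h7
  have e : -(((-L : ℤ) : ℚ) - p / ((-L : ℤ) : ℚ)) = (L : ℚ) - p / L := by
    push_cast
    rw [div_neg]; ring
  rwa [e] at h6

theorem main_L (hpj : p = 6 * j + 1) {L M : ℤ} (hL : 4 * (p : ℤ) = L ^ 2 + 27 * M ^ 2)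
    (hL2 : L % 3 = 2) : EQ p 2 (∑ k ∈ range p, gb (-1 / 3) k ^ 2 * 9 ^ k) ((L : ℚ) - p / L) := by
  rw [← FF_zero]
  exact (main_eq b1 b2 harm hpj).trans (choose_L hpj hL hL2)

end Pool.Agent.R488.Cub
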